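import Mathlib

/-!
# Lifts of diffeomorphisms of the circle
-/

set_option autoImplicit false

open Filter Topology Set Real

open scoped Manifold ContDiff

namespace Pool.Agent.W328

/-- The universal covering map, with period one. -/
noncomputable def E (x : ℝ) : Circle := Circle.exp (2 * π * x)

theorem E_eq {x y : ℝ} : E x = E y ↔ ∃ m : ℤ, x = y + m := by
  rw [E, E, Circle.exp_eq_exp]
  have hp := Real.pi_pos
  constructor
  · rintro ⟨m, hm⟩
    refine ⟨m, ?_⟩
    have : 2 * π * (x - (y + m)) = 0 := by linarith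
    have h2 : x - (y + m) = 0 := by
      rcases mul_eq_zero.1 this with h | h
      · exact absurd h (by positivity)
      · exact h
    linarith
  · rintro ⟨m, rfl⟩
    exact ⟨m, by ring⟩

theorem E_add_int (x : ℝ) (m : ℤ) : E (x + m) = E x := E_eq.2 ⟨m, rfl⟩

theorem E_add_one (x : ℝ) : E (x + 1) = E x := E_eq.2 ⟨1, by simp⟩

theorem E_surj (z : Circle) : ∃ x, E x = z := by
  refine ⟨Complex.arg (z : ℂ) / (2 * π), ?_⟩
  rw [E]
  conv_rhs => rw [← Circle.exp_arg z]
  congr 1
  field_simp

theorem E_surj' (c : ℝ) (z : Circle) : ∃ x, c ≤ x ∧ x < c + 1 ∧ E x = z := by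
  obtain ⟨x, hx⟩ := E_surj z
  refine ⟨x - ⌊x - c⌋, ?_, ?_, ?_⟩
  · have := Int.floor_le (x - c); linarith
  · have := Int.lt_floor_add_one (x - c); linarith
  · rw [← hx, E_eq]
    exact ⟨-⌊x - c⌋, by push_cast; ring⟩

theorem E_inj {c x y : ℝ} (h1 : c ≤ x) (h2 : x < c + 1) (h3 : c ≤ y) (h4 : y < c + 1)
    (h : E x = E y) : x = y := by
  obtain ⟨m, hm⟩ := E_eq.1 h
  have h5 : (m:ℝ) < 1 := by linarith
  have h6 : (-1:ℝ) < m := by linarith
  have h7 : m < 1 := by exact_mod_cast h5
  have h8 : -1 < m := by exact_mod_cast h6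
  have : m = 0 := by omega
  rw [hm, this]; simp

theorem E_continuous : Continuous E := Circle.exp.continuous.comp (by fun_prop)

theorem E_coe (x : ℝ) : (E x : ℂ) = Complex.exp ((2 * π * x : ℝ) * Complex.I) := Circle.coe_exp _

theorem E_contMDiff : ContMDiff 𝓘(ℝ, ℝ) (𝓡 1) 1 E := by
  have h : ContMDiff 𝓘(ℝ, ℝ) 𝓘(ℝ, ℝ) 1 (fun x : ℝ => 2 * π * x) := by
    rw [contMDiff_iff_contDiff]
    fun_prop
  exact contMDiff_circleExp.comp h

attribute [local instance] finrank_real_complex_fact'

theorem coe_contMDiff : ContMDiff (𝓡 1) 𝓘(ℝ, ℂ) 1 (fun z : Circle => (z : ℂ)) :=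
  contMDiff_coe_sphere

theorem exists_lift (f : Circle → Circle) (hf : ContMDiff (𝓡 1) (𝓡 1) 1 f) :
    ∃ F : ℝ → ℝ, ContDiff ℝ 1 F ∧ ∀ x, E (F x) = f (E x) := by
  let G : ℝ → ℂ := fun x => (f (E x) : ℂ)
  have hG : ContDiff ℝ 1 G := by
    rw [← contMDiff_iff_contDiff]
    exact coe_contMDiff.comp (hf.comp E_contMDiff)
  obtain ⟨hGd, hGc⟩ := contDiff_one_iff_deriv.1 hG
  have hG0 : ∀ x, G x ≠ 0 := fun x => Circle.coe_ne_zero _
  let q : ℝ → ℂ := fun x => deriv G x / G x
  have hq : Continuous q := hGc.div hG.continuous hG0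
  let L : ℝ → ℂ := fun x => ∫ t in (0:ℝ)..x, q t
  have hL : ∀ x, HasDerivAt L (q x) x := fun x => (hq.integral_hasStrictDerivAt 0 x).hasDerivAt
  have hL0 : L 0 = 0 := intervalIntegral.integral_same
  -- `G x = G 0 * exp (L x)`
  have hH : ∀ x, G x * Complex.exp (-L x) = G 0 := by
    intro x
    have hd : ∀ y, HasDerivAt (fun y => G y * Complex.exp (-L y)) 0 y := by
      intro y
      have h1 := (hGd y).hasDerivAt
      have h2 := ((hL y).fun_neg).cexp
      refine (h1.mul h2).congr_deriv ?_
      have : deriv G y = q y * G y := by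
        show _ = deriv G y / G y * G y
        rw [div_mul_cancel₀ _ (hG0 y)]
      rw [this]; ring
    have h4 := is_const_of_deriv_eq_zero (fun y => (hd y).differentiableAt)
      (fun y => (hd y).deriv) x 0
    rw [h4, hL0]; simp
  have hGL : ∀ x, G x = G 0 * Complex.exp (L x) := by
    intro x
    rw [← hH x, mul_assoc, ← Complex.exp_add]; simp
  have hre : ∀ x, (L x).re = 0 := by
    intro x
    have h1 : ‖G x‖ = 1 := Circle.norm_coe _
    have h2 : ‖G 0‖ = 1 := Circle.norm_coe _
    rw [hGL x, norm_mul, h2, one_mul, Complex.norm_exp] at h1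
    rwa [Real.exp_eq_one_iff] at h1
  obtain ⟨θ, hθ⟩ := E_surj (f (E 0))
  refine ⟨fun x => θ + (L x).im / (2 * π), ?_, ?_⟩
  · have hLc : ContDiff ℝ 1 L := by
      rw [contDiff_one_iff_deriv]
      refine ⟨fun x => (hL x).differentiableAt, ?_⟩
      have : deriv L = q := funext fun x => (hL x).deriv
      rw [this]; exact hq
    have hi : ContDiff ℝ 1 (fun x => (L x).im) := Complex.imCLM.contDiff.comp hLc
    exact contDiff_const.add (hi.div_const _)
  · intro x
    apply Subtype.ext
    show ((E (θ + (L x).im / (2 * π)) : Circle) : ℂ) = G x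
    rw [hGL x, E_coe]
    have h1 : G 0 = Complex.exp ((2 * π * θ : ℝ) * Complex.I) := by
      rw [← E_coe, hθ]
    rw [h1, ← Complex.exp_add]
    congr 1
    have h2 : L x = (L x).im * Complex.I := by
      apply Complex.ext <;> simp [hre x]
    conv_rhs => rw [h2]
    push_cast
    have hp : (π:ℂ) ≠ 0 := by exact_mod_cast Real.pi_ne_zero
    field_simp

theorem int_const {u : ℝ → ℝ} (hu : Continuous u) (h : ∀ x, ∃ m : ℤ, u x = m) :
    ∃ m : ℤ, ∀ x, u x = m := by
  choose m hm using h
  have hc : Continuous m := by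
    rw [Int.isClosedEmbedding_coe_real.isInducing.continuous_iff]
    have : (Int.cast ∘ m : ℝ → ℝ) = u := funext fun x => (hm x).symm
    rw [this]; exact hu
  refine ⟨m 0, fun x => ?_⟩
  rw [hm x, PreconnectedSpace.constant inferInstance hc (x := x) (y := 0)]

/-- Two continuous lifts differ by an integer. -/
theorem lift_unique {F H : ℝ → ℝ} (hF : Continuous F) (hH : Continuous H)
    (h : ∀ x, E (F x) = E (H x)) : ∃ m : ℤ, ∀ x, F x = H x + m := by
  obtain ⟨m, hm⟩ := int_const (hF.sub hH) (fun x => by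
    obtain ⟨m, hm⟩ := E_eq.1 (h x)
    exact ⟨m, by show F x - H x = m; rw [hm]; ring⟩)
  exact ⟨m, fun x => by
    have := hm x
    change F x - H x = m at this
    linarith⟩

/-- A lift of an orientation preserving diffeomorphism. -/
structure Good (f : Circle → Circle) (F : ℝ → ℝ) : Prop where
  contDiff : ContDiff ℝ 1 F
  lift : ∀ x, E (F x) = f (E x)
  deriv_pos : ∀ x, 0 < deriv F x
  add_one : ∀ x, F (x + 1) = F x + 1
  surj : Function.Surjective F

theorem exists_lift_pm (f g : Circle → Circle) (hf : ContMDiff (𝓡 1) (𝓡 1) 1 f)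
    (hg : ContMDiff (𝓡 1) (𝓡 1) 1 g) (hgf : ∀ z, g (f z) = z) (hfg : ∀ z, f (g z) = z) :
    ∃ F : ℝ → ℝ, ContDiff ℝ 1 F ∧ (∀ x, E (F x) = f (E x)) ∧ (∀ x, deriv F x ≠ 0) ∧
      Function.Surjective F ∧ (StrictMono F ∨ StrictAnti F) ∧
      ((∀ x, F (x + 1) = F x + 1) ∨ (∀ x, F (x + 1) = F x - 1)) := by
  obtain ⟨F, hF, hFl⟩ := exists_lift f hf
  obtain ⟨H, hH, hHl⟩ := exists_lift g hg
  obtain ⟨m, hm⟩ := lift_unique (F := fun x => H (F x)) (H := fun x => x)
    (hH.continuous.comp hF.continuous) continuous_id (fun x => by rw [hHl, hFl, hgf])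
  obtain ⟨m', hm'⟩ := lift_unique (F := fun x => F (H x)) (H := fun x => x)
    (hF.continuous.comp hH.continuous) continuous_id (fun x => by rw [hFl, hHl, hfg])
  obtain ⟨d, hd⟩ := lift_unique (F := fun x => F (x + 1)) (H := F)
    (hF.continuous.comp (by fun_prop)) hF.continuous (fun x => by rw [hFl, hFl, E_add_one])
  obtain ⟨e, he⟩ := lift_unique (F := fun x => H (x + 1)) (H := H)
    (hH.continuous.comp (by fun_prop)) hH.continuous (fun x => by rw [hHl, hHl, E_add_one])
  have hinj : Function.Injective F := by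
    intro x y hxy
    have h1 := hm x
    have h2 := hm y
    simp only [hxy] at h1
    linarith
  have hHint : ∀ (n : ℤ) (x : ℝ), H (x + n) = H x + n * e := by
    have hn : ∀ n : ℕ, ∀ x : ℝ, H (x + n) = H x + n * e := by
      intro n
      induction n with
      | zero => intro x; simp
      | succ n ih =>
        intro x
        have := he (x + n)
        push_cast
        rw [← add_assoc]
        rw [this, ih]; ring
    intro n x
    obtain ⟨k, rfl | rfl⟩ := n.eq_nat_or_neg
    · exact_mod_cast hn k x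
    · have := hn k (x + ((-k : ℤ) : ℝ))
      push_cast at this ⊢
      rw [neg_add_cancel_right] at this
      linarith
  have hde : d * e = 1 := by
    have h1 := hm 1
    have h2 := hm 0
    have h3 := hd 0
    rw [zero_add] at h3
    rw [h3, hHint, h2] at h1
    have : (d:ℝ) * e = 1 := by linarith
    exact_mod_cast this
  refine ⟨F, hF, hFl, fun x h0 => ?_, ?_, hF.continuous.strictMono_of_inj hinj, ?_⟩
  · have h1 : HasDerivAt (fun x => H (F x)) (deriv H (F x) * deriv F x) x :=
      ((hH.differentiable (by norm_num) _).hasDerivAt).comp x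
        (hF.differentiable (by norm_num) _).hasDerivAt
    have h2 : HasDerivAt (fun x => H (F x)) 1 x := by
      have : (fun x => H (F x)) = fun x => x + (m:ℝ) := funext hm
      rw [this]
      exact (hasDerivAt_id x).add_const _
    have h3 := h1.unique h2
    rw [h0, mul_zero] at h3
    exact zero_ne_one h3
  · intro y
    refine ⟨H (y - m'), ?_⟩
    have := hm' (y - m')
    rw [this]; ring
  · rcases Int.eq_one_or_neg_one_of_mul_eq_one hde with h | h
    · left; intro x
      have := hd x
      rw [h] at this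
      simpa using this
    · right; intro x
      have := hd x
      rw [h] at this
      push_cast at this
      rw [this]; ring

theorem good_of_mono {f : Circle → Circle} {F : ℝ → ℝ} (hF : ContDiff ℝ 1 F)
    (hl : ∀ x, E (F x) = f (E x)) (hd : ∀ x, deriv F x ≠ 0) (hs : Function.Surjective F)
    (hm : StrictMono F) (h1 : (∀ x, F (x + 1) = F x + 1) ∨ (∀ x, F (x + 1) = F x - 1)) :
    Good f F := by
  refine ⟨hF, hl, fun x => lt_of_le_of_ne hm.monotone.deriv_nonneg (hd x).symm, ?_, hs⟩
  rcases h1 with h1 | h1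
  · exact h1
  · exfalso
    have h2 := hm (show (0:ℝ) < 0 + 1 by norm_num)
    rw [h1 0] at h2
    linarith

namespace Good

variable {f g : Circle → Circle} {F H : ℝ → ℝ}

theorem strictMono (h : Good f F) : StrictMono F :=
  strictMono_of_deriv_pos h.deriv_pos

theorem differentiable (h : Good f F) : Differentiable ℝ F :=
  h.contDiff.differentiable (by norm_num)

theorem add_int (h : Good f F) (m : ℤ) : Good f (fun x => F x + m) := by
  refine ⟨h.contDiff.add contDiff_const, fun x => ?_, fun x => ?_, fun x => ?_, fun y => ?_⟩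
  · rw [E_add_int, h.lift]
  · rw [deriv_add_const]; exact h.deriv_pos x
  · show F (x + 1) + m = F x + m + 1
    rw [h.add_one]; ring
  · obtain ⟨x, hx⟩ := h.surj (y - m)
    exact ⟨x, by show F x + m = y; rw [hx]; ring⟩

theorem comp (h : Good f F) (h' : Good g H) : Good (f ∘ g) (F ∘ H) := by
  refine ⟨h.contDiff.comp h'.contDiff, fun x => ?_, fun x => ?_, fun x => ?_,
    h.surj.comp h'.surj⟩
  · show E (F (H x)) = f (g (E x))
    rw [h.lift, h'.lift]
  · rw [deriv_comp x (h.differentiable _) (h'.differentiable _)]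
    exact mul_pos (h.deriv_pos _) (h'.deriv_pos _)
  · show F (H (x + 1)) = F (H x) + 1
    rw [h'.add_one, h.add_one]

end Good

/-- The square of a diffeomorphism has a good lift. -/
theorem exists_good_sq (f g : Circle → Circle) (hf : ContMDiff (𝓡 1) (𝓡 1) 1 f)
    (hg : ContMDiff (𝓡 1) (𝓡 1) 1 g) (hgf : ∀ z, g (f z) = z) (hfg : ∀ z, f (g z) = z) :
    ∃ F, Good (f ∘ f) F := by
  obtain ⟨F, hF, hl, hd, hs, hm, h1⟩ := exists_lift_pm f g hf hg hgf hfg
  have hdiff : Differentiable ℝ F := hF.differentiable (by norm_num)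
  refine ⟨F ∘ F, good_of_mono (hF.comp hF) (fun x => ?_) (fun x => ?_) (hs.comp hs) ?_ ?_⟩
  · show E (F (F x)) = f (f (E x))
    rw [hl, hl]
  · rw [deriv_comp x (hdiff _) (hdiff _)]
    exact mul_ne_zero (hd _) (hd _)
  · rcases hm with hm | hm
    · exact hm.comp hm
    · exact hm.comp hm
  · left; intro x
    show F (F (x + 1)) = F (F x) + 1
    rcases h1 with h1 | h1
    · rw [h1, h1]
    · rw [h1]
      have := h1 (F x - 1)
      rw [sub_add_cancel] at this
      linarith

end Pool.Agent.W328
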