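import Pool.Agent.W328.Incr2
import Pool.Agent.W328.Lift

/-!
# Smooth actions of the periodic group on the circle
-/

set_option autoImplicit false

open Filter Topology Set

open scoped Manifold ContDiff commutatorElement

namespace Pool.Agent.W328

/-- A `C¹` action on the circle, trivial on `T`. -/
structure Act (ρ : P → Circle → Circle) : Prop where
  mul : ∀ g ∈ TT, ∀ h ∈ TT, ∀ z, ρ (g * h) z = ρ g (ρ h z)
  one : ∀ z, ρ 1 z = z
  trivT : ∀ z, ρ T z = z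
  smooth : ∀ g ∈ TT, ContMDiff (𝓡 1) (𝓡 1) 1 (ρ g)

theorem good_id : Good (fun z => z) (fun x => x) :=
  ⟨contDiff_id, fun _ => rfl, fun x => by simp, fun _ => rfl, Function.surjective_id⟩

namespace Act

variable {ρ : P → Circle → Circle} (A : Act ρ)

include A

theorem inv_left {g : P} (hg : g ∈ TT) (z : Circle) : ρ g⁻¹ (ρ g z) = z := by
  rw [← A.mul _ (TT.inv_mem hg) _ hg, inv_mul_cancel, A.one]

theorem inv_right {g : P} (hg : g ∈ TT) (z : Circle) : ρ g (ρ g⁻¹ z) = z := by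
  rw [← A.mul _ hg _ (TT.inv_mem hg), mul_inv_cancel, A.one]

/-- Elements with a good lift. -/
def goodS : Subgroup P where
  carrier := {g | g ∈ TT ∧ ∃ G, Good (ρ g) G}
  one_mem' := ⟨TT.one_mem, fun x => x, by
    have : ρ 1 = fun z => z := funext A.one
    rw [this]; exact good_id⟩
  mul_mem' := by
    rintro g h ⟨hg, G, hG⟩ ⟨hh, H, hH⟩
    refine ⟨TT.mul_mem hg hh, G ∘ H, ?_⟩
    have : ρ (g * h) = ρ g ∘ ρ h := funext (A.mul g hg h hh)
    rw [this]; exact hG.comp hH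
  inv_mem' := by
    rintro g ⟨hg, G, hG⟩
    have hgi := TT.inv_mem hg
    refine ⟨hgi, ?_⟩
    obtain ⟨H, hH, hl, hd, hs, hm, h1⟩ := exists_lift_pm (ρ g⁻¹) (ρ g) (A.smooth _ hgi)
      (A.smooth _ hg) (A.inv_right hg) (A.inv_left hg)
    obtain ⟨m, hm'⟩ := lift_unique (F := fun x => H (G x)) (H := fun x => x)
      (hH.continuous.comp hG.contDiff.continuous) continuous_id
      (fun x => by rw [hl, hG.lift, A.inv_left hg])
    refine ⟨H, good_of_mono hH hl hd hs ?_ h1⟩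
    rcases hm with hm | hm
    · exact hm
    · exfalso
      have h2 := hm (hG.strictMono (show (0:ℝ) < 1 by norm_num))
      have h3 := hm' 0
      have h4 := hm' 1
      linarith

theorem goodS_sq {g : P} (hg : g ∈ TT) : g * g ∈ A.goodS := by
  refine ⟨TT.mul_mem hg hg, ?_⟩
  obtain ⟨F, hF⟩ := exists_good_sq (ρ g) (ρ g⁻¹) (A.smooth _ hg) (A.smooth _ (TT.inv_mem hg))
    (A.inv_left hg) (A.inv_right hg)
  refine ⟨F, ?_⟩
  have : ρ (g * g) = ρ g ∘ ρ g := funext (A.mul g hg g hg)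
  rw [this]; exact hF

theorem good {g : P} (hg : g ∈ TT) : ∃ G, Good (ρ g) G := by
  have hle : TT ≤ A.goodS := by
    refine TT_gen _ ?_ ?_
    · intro a ha
      have h1 := A.goodS_sq (Tr_mem (a / 2) (zldiv ha ltwo))
      have : Tr (a / 2) (zldiv ha ltwo) * Tr (a / 2) (zldiv ha ltwo) = Tr a ha := by
        apply P_ext; intro x
        rw [P_mul, Tr_apply, Tr_apply, Tr_apply]; ring
      rwa [this] at h1
    · intro u hu v hv huv hv1 g hg
      obtain ⟨u', hu', h1, h2⟩ := z_between (show v - 1 < u by linarith)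
      have h3 := TS_perfect (v' := u' + 1) hu hv hu' huv.le h2 (by linarith) le_rfl hg
      refine (Subgroup.commutator_le.2 ?_) h3
      intro a ha b hb
      have ha := TS_le _ _ ha
      have hb := TS_le _ _ hb
      have e : ⁅a, b⁆ = (a * a) * ((a⁻¹ * b) * (a⁻¹ * b)) * (b⁻¹ * b⁻¹) := by
        rw [commutatorElement_def]; group
      rw [e]
      exact A.goodS.mul_mem (A.goodS.mul_mem (A.goodS_sq ha)
        (A.goodS_sq (TT.mul_mem (TT.inv_mem ha) hb))) (A.goodS_sq (TT.inv_mem hb))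
  exact (hle hg).2

end Act

/-! ### Lifted groups -/

/-- Invertible degree one lifts. -/
abbrev CU := CircleDeg1Liftˣ

theorem CU_ext {f g : CU} (h : ∀ x, f x = g x) : f = g :=
  Units.ext (CircleDeg1Lift.ext h)

theorem CU_mul (f g : CU) (x : ℝ) : (f * g) x = f (g x) := rfl

theorem CU_one (x : ℝ) : (1 : CU) x = x := rfl

theorem CU_inv_self (f : CU) (x : ℝ) : f⁻¹ (f x) = x := CircleDeg1Lift.units_inv_apply_apply f x

theorem CU_self_inv (f : CU) (x : ℝ) : f (f⁻¹ x) = x := CircleDeg1Lift.units_apply_inv_apply f x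

theorem CU_cont (f : CU) : Continuous f := (CircleDeg1Lift.toOrderIso f).continuous

theorem CU_smono (f : CU) : StrictMono f := (CircleDeg1Lift.toOrderIso f).strictMono

theorem CU_add_one (f : CU) (x : ℝ) : f (x + 1) = f x + 1 := CircleDeg1Lift.map_add_one _ x

theorem CU_add_int (f : CU) (x : ℝ) (n : ℤ) : f (x + n) = f x + n :=
  CircleDeg1Lift.map_add_int _ x n

theorem exists_CU {f : Circle → Circle} {G : ℝ → ℝ} (h : Good f G) : ∃ F : CU, ∀ x, F x = G x := by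
  let F : CircleDeg1Lift := ⟨⟨G, h.strictMono.monotone⟩, h.add_one⟩
  have hb : Function.Bijective F := ⟨h.strictMono.injective, h.surj⟩
  have hu : IsUnit F := CircleDeg1Lift.isUnit_iff_bijective.2 hb
  exact ⟨hu.unit, fun x => rfl⟩

/-- Translation number of a pair. -/
noncomputable def tau (p : P × CU) : ℝ := CircleDeg1Lift.translationNumber (p.2 : CircleDeg1Lift)

theorem tau_add_int {p q : P × CU} {m : ℤ} (h : ∀ x, p.2 x = q.2 x + m) :
    tau p = tau q + m := by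
  have e : (p.2 : CircleDeg1Lift) =
      (CircleDeg1Lift.translate (Multiplicative.ofAdd (m:ℝ)) : CircleDeg1Lift) * q.2 :=
    CircleDeg1Lift.ext fun x => by
      rw [CircleDeg1Lift.mul_apply, CircleDeg1Lift.translate_apply, h, add_comm]
  have hc : Commute (CircleDeg1Lift.translate (Multiplicative.ofAdd (m:ℝ)) : CircleDeg1Lift)
      (q.2 : CircleDeg1Lift) := by
    rw [CircleDeg1Lift.commute_iff_commute]
    intro x
    rw [CircleDeg1Lift.translate_apply, CircleDeg1Lift.translate_apply]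
    exact (CircleDeg1Lift.map_int_add _ m x).symm
  rw [tau, tau, e, CircleDeg1Lift.translationNumber_mul_of_commute hc,
    CircleDeg1Lift.translationNumber_translate, add_comm]

theorem tau_conj (p q : P × CU) : tau (p * q * p⁻¹) = tau q := by
  have := CircleDeg1Lift.translationNumber_conj_eq p.2 (q.2 : CircleDeg1Lift)
  exact this

theorem tau_mul_of_comm {p q : P × CU} (h : p * q = q * p) : tau (p * q) = tau p + tau q := by
  have hc : Commute (p.2 : CircleDeg1Lift) (q.2 : CircleDeg1Lift) := by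
    have h1 : p.2 * q.2 = q.2 * p.2 := congrArg Prod.snd h
    have h2 := congrArg (fun f : CU => (f : CircleDeg1Lift)) h1
    exact h2
  exact CircleDeg1Lift.translationNumber_mul_of_commute hc

theorem tau_one : tau 1 = 0 := CircleDeg1Lift.translationNumber_one

theorem tau_inv (p : P × CU) : tau p⁻¹ = -tau p :=
  CircleDeg1Lift.translationNumber_units_inv p.2

theorem tau_le {p : P × CU} {C : ℝ} (h : ∀ y, |p.2 y - y| ≤ C) : |tau p| ≤ C := by
  rw [abs_le]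
  constructor
  · exact CircleDeg1Lift.le_translationNumber_of_add_le _ fun x => by
      have := (abs_le.1 (h x)).1
      linarith
  · exact CircleDeg1Lift.translationNumber_le_of_le_add _ fun x => by
      have := (abs_le.1 (h x)).2
      linarith

theorem disp_of_tau {p : P × CU} (h : tau p = 0) (y : ℝ) : |p.2 y - y| ≤ 1 := by
  rw [abs_le]
  have h1 := CircleDeg1Lift.map_lt_add_translationNumber_add_one (p.2 : CircleDeg1Lift) y
  have h2 := CircleDeg1Lift.map_lt_add_translationNumber_add_one ((p⁻¹).2 : CircleDeg1Lift) (p.2 y)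
  have h3 : CircleDeg1Lift.translationNumber (p.2 : CircleDeg1Lift) = 0 := h
  have h4 : CircleDeg1Lift.translationNumber ((p⁻¹).2 : CircleDeg1Lift) = 0 := by
    have := tau_inv p
    rw [h, neg_zero] at this
    exact this
  rw [h3] at h1
  rw [h4] at h2
  have h5 : (p⁻¹).2 (p.2 y) = y := CU_inv_self p.2 y
  rw [h5] at h2
  constructor <;> linarith

theorem disp_diff (f : CU) (x y : ℝ) : |(f x - x) - (f y - y)| ≤ 1 := by
  have h1 := Int.floor_le (x - y)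
  have h2 := Int.lt_floor_add_one (x - y)
  have h3 : f y + ⌊x - y⌋ ≤ f x := by
    rw [← CU_add_int]; exact (CU_smono f).monotone (by linarith)
  have h4 : f x ≤ f y + (⌊x - y⌋ + 1) := by
    have := CU_add_int f y (⌊x - y⌋ + 1)
    push_cast at this
    rw [← this]; exact (CU_smono f).monotone (by linarith)
  rw [abs_le]
  constructor <;> linarith

theorem comm_disp (f g : CU) (y : ℝ) : |(⁅f, g⁆ : CU) y - y| ≤ 2 := by
  have e : (⁅f, g⁆ : CU) y = f (g (f⁻¹ (g⁻¹ y))) := rfl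
  set w := f⁻¹ (g⁻¹ y) with hw
  have e2 : y = g (f w) := by rw [hw, CU_self_inv, CU_self_inv]
  rw [e]
  conv_lhs => rw [e2]
  have h1 := disp_diff f (g w) w
  have h2 := disp_diff g (f w) w
  rw [abs_le] at h1 h2 ⊢
  constructor <;> linarith [h1.1, h1.2, h2.1, h2.2]

theorem mem_comm_lift {G : Type*} [Group G] (H : Subgroup G) {x : G}
    (hx : x ∈ (⁅H, H⁆ : Subgroup G)) : ∃ y : H, y ∈ commutator H ∧ (y : G) = x := by
  have e : (⁅H, H⁆ : Subgroup G) = Subgroup.map H.subtype (commutator H) := by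
    rw [commutator_def, Subgroup.map_commutator, ← MonoidHom.range_eq_map,
      Subgroup.range_subtype]
  rw [e] at hx
  obtain ⟨y, hy, hy'⟩ := hx
  exact ⟨y, hy, hy'⟩

theorem comm_bdd {G : Type*} [Group G] {x : G} (hx : x ∈ commutator G) :
    ∃ C : ℝ, ∀ (Ψ : G →* CU) (y : ℝ), |Ψ x y - y| ≤ C := by
  rw [commutator_def] at hx
  refine Subgroup.closure_induction
    (p := fun x _ => ∃ C : ℝ, ∀ (Ψ : G →* CU) (y : ℝ), |Ψ x y - y| ≤ C) ?_ ?_ ?_ ?_ hx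
  · rintro _ ⟨a, -, b, -, rfl⟩
    refine ⟨2, fun Ψ y => ?_⟩
    rw [map_commutatorElement]
    exact comm_disp _ _ _
  · exact ⟨0, fun Ψ y => by rw [map_one, CU_one]; simp⟩
  · rintro a b _ _ ⟨C, hC⟩ ⟨D, hD⟩
    refine ⟨C + D, fun Ψ y => ?_⟩
    rw [map_mul, CU_mul]
    have h1 := hC Ψ (Ψ b y)
    have h2 := hD Ψ y
    rw [abs_le] at h1 h2 ⊢
    constructor <;> linarith [h1.1, h1.2, h2.1, h2.2]
  · rintro a _ ⟨C, hC⟩
    refine ⟨C, fun Ψ y => ?_⟩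
    have h1 := hC Ψ ((Ψ a)⁻¹ y)
    rw [CU_self_inv] at h1
    rw [map_inv, abs_sub_comm]
    exact h1

namespace Act

variable {ρ : P → Circle → Circle} (A : Act ρ)

/-- All lifts. -/
def EE : Subgroup (P × CU) where
  carrier := {p | p.1 ∈ TT ∧ ∀ x, E (p.2 x) = ρ p.1 (E x)}
  one_mem' := ⟨TT.one_mem, fun x => by
    show E x = ρ 1 (E x)
    rw [A.one]⟩
  mul_mem' := by
    rintro p q ⟨h1, h2⟩ ⟨h3, h4⟩
    refine ⟨TT.mul_mem h1 h3, fun x => ?_⟩
    show E (p.2 (q.2 x)) = ρ (p.1 * q.1) (E x)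
    rw [A.mul _ h1 _ h3, h2, h4]
  inv_mem' := by
    rintro p ⟨h1, h2⟩
    refine ⟨TT.inv_mem h1, fun x => ?_⟩
    show E (p.2⁻¹ x) = ρ (p.1⁻¹) (E x)
    have h3 := h2 (p.2⁻¹ x)
    rw [CU_self_inv] at h3
    rw [h3, A.inv_left h1]

/-- Lifts of elements of `TS u v`. -/
def ET (u v : ℝ) : Subgroup (P × CU) := A.EE ⊓ (TS u v).comap (MonoidHom.fst P CU)

theorem mem_ET {u v : ℝ} {p : P × CU} : p ∈ A.ET u v ↔ p ∈ A.EE ∧ p.1 ∈ TS u v := Iff.rfl

theorem ET_mono {u v u' v' : ℝ} (hu : u' ≤ u) (hv : v ≤ v') : A.ET u v ≤ A.ET u' v' :=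
  fun _ h => ⟨h.1, TS_mono hu hv h.2⟩

theorem exists_EE {g : P} (hg : g ∈ TT) : ∃ p ∈ A.EE, p.1 = g := by
  obtain ⟨G, hG⟩ := A.good hg
  obtain ⟨F, hF⟩ := exists_CU hG
  exact ⟨(g, F), ⟨hg, fun x => by show E (F x) = ρ g (E x); rw [hF, hG.lift]⟩, rfl⟩

theorem exists_ET {u v : ℝ} {g : P} (hg : g ∈ TS u v) : ∃ p ∈ A.ET u v, p.1 = g := by
  obtain ⟨p, hp, rfl⟩ := A.exists_EE hg.1
  exact ⟨p, ⟨hp, hg⟩, rfl⟩

theorem EE_unique {p q : P × CU} (hp : p ∈ A.EE) (hq : q ∈ A.EE) (h : p.1 = q.1) :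
    ∃ m : ℤ, ∀ x, p.2 x = q.2 x + m :=
  lift_unique (CU_cont p.2) (CU_cont q.2) fun x => by rw [hp.2, hq.2, h]

theorem eq_of_tau {p q : P × CU} (hp : p ∈ A.EE) (hq : q ∈ A.EE) (h : p.1 = q.1)
    (ht : tau p = tau q) : p = q := by
  obtain ⟨m, hm⟩ := A.EE_unique hp hq h
  have h1 := tau_add_int hm
  have h2 : (m:ℝ) = 0 := by linarith
  refine Prod.ext h (CU_ext fun x => ?_)
  rw [hm, h2, add_zero]

theorem EE_comm {p q : P × CU} (hp : p ∈ A.EE) (hq : q ∈ A.EE) (h : p.1 * q.1 = q.1 * p.1) :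
    p * q = q * p := by
  have h1 : p * q * p⁻¹ = q := by
    refine A.eq_of_tau (A.EE.mul_mem (A.EE.mul_mem hp hq) (A.EE.inv_mem hp)) hq ?_ (tau_conj _ _)
    show p.1 * q.1 * p.1⁻¹ = q.1
    rw [h]; group
  rw [mul_inv_eq_iff_eq_mul] at h1
  exact h1

theorem ET_conj {p k : P × CU} {u v : ℝ} (hp : p ∈ A.ET u v) (hk : k ∈ A.EE) :
    k * p * k⁻¹ ∈ A.ET (k.1 u) (k.1 v) :=
  ⟨A.EE.mul_mem (A.EE.mul_mem hk hp.1) (A.EE.inv_mem hk), TS_conj hp.2 hk.1⟩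

/-- Displaced copies. -/
theorem copies {u v : ℝ} (hu : u ∈ ZA) (hv : v ∈ ZA) (huv : u < v) (hv1 : v < u + 1) (n : ℕ) :
    ∃ Φ : A.ET u v →* P × CU, ∀ x, Φ x ∈ A.ET 0 (1 - 1 / 2 ^ n) ∧ tau (Φ x) = n * tau x := by
  induction n with
  | zero =>
    refine ⟨1, fun x => ⟨Subgroup.one_mem _, ?_⟩⟩
    show tau 1 = _
    rw [tau_one]; simp
  | succ n ih =>
    obtain ⟨Φ, hΦ⟩ := ih
    have hz : ∀ n : ℕ, (1:ℝ) - 1 / 2 ^ n ∈ ZA := fun n => zsub zone (zldiv zone (lpow ltwo n))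
    have h2 : (0:ℝ) < 1 / 2 ^ (n + 1) := by positivity
    have h3 : (1:ℝ) / 2 ^ n = 2 * (1 / 2 ^ (n + 1)) := by rw [pow_succ]; field_simp
    have h4 : (1:ℝ) / 2 ^ n ≤ 1 := by
      rw [div_le_one (by positivity)]; exact one_le_pow₀ (by norm_num)
    obtain ⟨γ, hγ, hγu, hγv⟩ := extT hu hv (hz n) (hz (n + 1)) huv hv1 (by linarith) (by linarith)
    obtain ⟨k, hk, rfl⟩ := A.exists_EE hγ
    have hc : ∀ x : A.ET u v, k * x * k⁻¹ ∈ A.ET (1 - 1 / 2 ^ n) (1 - 1 / 2 ^ (n + 1)) := by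
      intro x
      have := A.ET_conj x.2 hk
      rwa [hγu, hγv] at this
    have hcomm : ∀ x y : A.ET u v, Φ x * (k * y * k⁻¹) = (k * y * k⁻¹) * Φ x := by
      intro x y
      refine A.EE_comm (hΦ x).1.1 (hc y).1 ?_
      exact TS_comm (hΦ x).1.2 (hc y).2 (by linarith)
    have hmul : ∀ x y : A.ET u v, Φ (x * y) * (k * (x * y : A.ET u v) * k⁻¹) =
        Φ x * (k * x * k⁻¹) * (Φ y * (k * y * k⁻¹)) := by
      intro x y
      have e : k * ((x * y : A.ET u v) : P × CU) * k⁻¹ = (k * x * k⁻¹) * (k * y * k⁻¹) := by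
        rw [Subgroup.coe_mul]; group
      rw [e, map_mul]
      calc Φ x * Φ y * (k * ↑x * k⁻¹ * (k * ↑y * k⁻¹)) =
            Φ x * (Φ y * (k * ↑x * k⁻¹)) * (k * ↑y * k⁻¹) := by group
        _ = _ := by rw [hcomm y x]; group
    refine ⟨MonoidHom.mk' (fun x => Φ x * (k * x * k⁻¹)) hmul, fun x => ⟨?_, ?_⟩⟩
    · show Φ x * (k * x * k⁻¹) ∈ _
      exact Subgroup.mul_mem _ (A.ET_mono le_rfl (by linarith) (hΦ x).1)
        (A.ET_mono (by linarith) le_rfl (hc x))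
    · show tau (Φ x * (k * x * k⁻¹)) = _
      rw [tau_mul_of_comm (hcomm x x), (hΦ x).2, tau_conj]
      push_cast; ring

theorem tau_comm {u v : ℝ} (hu : u ∈ ZA) (hv : v ∈ ZA) (huv : u < v) (hv1 : v < u + 1)
    {x : P × CU} (hx : x ∈ (⁅A.ET u v, A.ET u v⁆ : Subgroup (P × CU))) : tau x = 0 := by
  obtain ⟨y, hy, rfl⟩ := mem_comm_lift _ hx
  obtain ⟨C, hC⟩ := comm_bdd hy
  by_contra hne
  have hpos : 0 < |tau y| := abs_pos.2 hne
  obtain ⟨n, hn⟩ := exists_nat_gt (C / |tau y|)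
  obtain ⟨Φ, hΦ⟩ := A.copies hu hv huv hv1 n
  have h1 : |tau (Φ y)| ≤ C := tau_le fun z => hC ((MonoidHom.snd P CU).comp Φ) z
  rw [(hΦ y).2, abs_mul, Nat.abs_cast] at h1
  rw [div_lt_iff₀ hpos] at hn
  linarith

theorem map_fst_ET (u v : ℝ) : (A.ET u v).map (MonoidHom.fst P CU) = TS u v := by
  ext g
  constructor
  · rintro ⟨p, hp, rfl⟩
    exact hp.2
  · intro hg
    obtain ⟨p, hp, rfl⟩ := A.exists_ET hg
    exact ⟨p, hp, rfl⟩

theorem exists_comm {u v u' v' : ℝ} (hu : u ∈ ZA) (hv : v ∈ ZA) (hu' : u' ∈ ZA) (huv : u ≤ v)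
    (h1 : u' < u) (h2 : v < v') (h3 : v' ≤ u' + 1) {g : P} (hg : g ∈ TS u v) :
    ∃ q ∈ (⁅A.ET u' v', A.ET u' v'⁆ : Subgroup (P × CU)), q.1 = g := by
  have h4 := TS_perfect hu hv hu' huv h1 h2 h3 hg
  rw [← A.map_fst_ET, ← Subgroup.map_commutator] at h4
  obtain ⟨q, hq, rfl⟩ := h4
  exact ⟨q, hq, rfl⟩

theorem comm_le (u v : ℝ) : (⁅A.ET u v, A.ET u v⁆ : Subgroup (P × CU)) ≤ A.EE := by
  rw [Subgroup.commutator_le]
  intro a ha b hb
  rw [commutatorElement_def]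
  exact A.EE.mul_mem (A.EE.mul_mem (A.EE.mul_mem ha.1 hb.1) (A.EE.inv_mem ha.1))
    (A.EE.inv_mem hb.1)

/-- Margins. -/
theorem margins {u v : ℝ} (huv : u < v) (hv1 : v < u + 1) :
    ∃ u' ∈ ZA, ∃ v' ∈ ZA, u' < u ∧ v < v' ∧ u' < v' ∧ v' < u' + 1 := by
  obtain ⟨v', hv', h1, h2⟩ := z_between hv1
  obtain ⟨u', hu', h3, h4⟩ := z_between (show v' - 1 < u by linarith)
  exact ⟨u', hu', v', hv', h4, h1, by linarith, by linarith⟩

theorem exists_tau_zero {u v : ℝ} (hu : u ∈ ZA) (hv : v ∈ ZA) (huv : u < v) (hv1 : v < u + 1)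
    {g : P} (hg : g ∈ TS u v) : ∃ p ∈ A.ET u v, p.1 = g ∧ tau p = 0 := by
  obtain ⟨u', hu', v', hv', h1, h2, h3, h4⟩ := margins huv hv1
  obtain ⟨q, hq, rfl⟩ := A.exists_comm hu hv hu' huv.le h1 h2 h4.le hg
  exact ⟨q, ⟨A.comm_le _ _ hq, hg⟩, rfl, A.tau_comm hu' hv' h3 h4 hq⟩

theorem tau_mul {u v : ℝ} (hu : u ∈ ZA) (hv : v ∈ ZA) (huv : u < v) (hv1 : v < u + 1)
    {p q : P × CU} (hp : p ∈ A.ET u v) (hq : q ∈ A.ET u v) (h1 : tau p = 0) (h2 : tau q = 0) :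
    tau (p * q) = 0 := by
  obtain ⟨u', hu', v', hv', h3, h4, h5, h6⟩ := margins huv hv1
  obtain ⟨p', hp', e1⟩ := A.exists_comm hu hv hu' huv.le h3 h4 h6.le hp.2
  obtain ⟨q', hq', e2⟩ := A.exists_comm hu hv hu' huv.le h3 h4 h6.le hq.2
  have e3 := A.eq_of_tau (A.comm_le _ _ hp') hp.1 e1 (by rw [A.tau_comm hu' hv' h5 h6 hp', h1])
  have e4 := A.eq_of_tau (A.comm_le _ _ hq') hq.1 e2 (by rw [A.tau_comm hu' hv' h5 h6 hq', h2])
  rw [← e3, ← e4]
  exact A.tau_comm hu' hv' h5 h6 (Subgroup.mul_mem _ hp' hq')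

/-- The right part. -/
def MR : Subgroup (P × CU) where
  carrier := {p | ∃ v ∈ ZA, 0 < v ∧ v < 1 ∧ p ∈ A.ET 0 v ∧ tau p = 0}
  one_mem' := ⟨1/2, zldiv zone ltwo, by norm_num, by norm_num, Subgroup.one_mem _, tau_one⟩
  mul_mem' := by
    rintro p q ⟨v, hv, h0, h1, hp, hp'⟩ ⟨w, hw, k0, k1, hq, hq'⟩
    rcases le_total v w with h | h
    · have hp := A.ET_mono le_rfl h hp
      exact ⟨w, hw, k0, k1, Subgroup.mul_mem _ hp hq,
        A.tau_mul zzero hw k0 (by linarith) hp hq hp' hq'⟩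
    · have hq := A.ET_mono le_rfl h hq
      exact ⟨v, hv, h0, h1, Subgroup.mul_mem _ hp hq,
        A.tau_mul zzero hv h0 (by linarith) hp hq hp' hq'⟩
  inv_mem' := by
    rintro p ⟨v, hv, h0, h1, hp, hp'⟩
    exact ⟨v, hv, h0, h1, Subgroup.inv_mem _ hp, by rw [tau_inv, hp', neg_zero]⟩

/-- The left part. -/
def ML : Subgroup (P × CU) where
  carrier := {p | ∃ v ∈ ZA, 0 < v ∧ v < 1 ∧ p ∈ A.ET v 1 ∧ tau p = 0}
  one_mem' := ⟨1/2, zldiv zone ltwo, by norm_num, by norm_num, Subgroup.one_mem _, tau_one⟩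
  mul_mem' := by
    rintro p q ⟨v, hv, h0, h1, hp, hp'⟩ ⟨w, hw, k0, k1, hq, hq'⟩
    rcases le_total v w with h | h
    · have hq := A.ET_mono h le_rfl hq
      exact ⟨v, hv, h0, h1, Subgroup.mul_mem _ hp hq,
        A.tau_mul hv zone h1 (by linarith) hp hq hp' hq'⟩
    · have hp := A.ET_mono h le_rfl hp
      exact ⟨w, hw, k0, k1, Subgroup.mul_mem _ hp hq,
        A.tau_mul hw zone k1 (by linarith) hp hq hp' hq'⟩
  inv_mem' := by
    rintro p ⟨v, hv, h0, h1, hp, hp'⟩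
    exact ⟨v, hv, h0, h1, Subgroup.inv_mem _ hp, by rw [tau_inv, hp', neg_zero]⟩

theorem MR_conj {p k : P × CU} (hp : p ∈ A.MR) (hk : k ∈ A.EE) (hk0 : k.1 0 = 0) :
    k * p * k⁻¹ ∈ A.MR := by
  obtain ⟨v, hv, h0, h1, hp, hp'⟩ := hp
  have h2 := A.ET_conj hp hk
  rw [hk0] at h2
  have h3 : k.1 1 = 1 := by
    have := mem_TT.1 hk.1 0
    rw [zero_add, hk0, zero_add] at this
    exact this
  refine ⟨k.1 v, (P_mem _).2 hv, ?_, ?_, h2, by rw [tau_conj, hp']⟩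
  · rw [← hk0]; exact P_strictMono _ h0
  · rw [← h3]; exact P_strictMono _ h1

theorem ML_zero {l : P × CU} (hl : l ∈ A.ML) : l ∈ A.EE ∧ l.1 0 = 0 := by
  obtain ⟨v, hv, h0, h1, hp, hp'⟩ := hl
  refine ⟨hp.1, ?_⟩
  have h2 := TT_int hp.1.1 0 1
  push_cast at h2
  have h3 : l.1 1 = 1 := hp.2.2 1 le_rfl (by linarith)
  rw [zero_add, h3] at h2
  linarith

theorem MR_zero {l : P × CU} (hl : l ∈ A.MR) : l ∈ A.EE ∧ l.1 0 = 0 := by
  obtain ⟨v, hv, h0, h1, hp, hp'⟩ := hl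
  refine ⟨hp.1, ?_⟩
  have h2 := TT_int hp.1.1 0 1
  push_cast at h2
  have h3 : l.1 1 = 1 := hp.2.2 1 h1.le (by norm_num)
  rw [zero_add, h3] at h2
  linarith

/-- The whole group. -/
def M : Subgroup (P × CU) where
  carrier := {p | ∃ r ∈ A.MR, ∃ l ∈ A.ML, p = r * l}
  one_mem' := ⟨1, A.MR.one_mem, 1, A.ML.one_mem, by rw [mul_one]⟩
  mul_mem' := by
    rintro _ _ ⟨r, hr, l, hl, rfl⟩ ⟨r', hr', l', hl', rfl⟩
    obtain ⟨h1, h2⟩ := A.ML_zero hl
    exact ⟨r * (l * r' * l⁻¹), A.MR.mul_mem hr (A.MR_conj hr' h1 h2), l * l',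
      A.ML.mul_mem hl hl', by group⟩
  inv_mem' := by
    rintro _ ⟨r, hr, l, hl, rfl⟩
    obtain ⟨h1, h2⟩ := A.ML_zero (A.ML.inv_mem hl)
    exact ⟨l⁻¹ * r⁻¹ * (l⁻¹)⁻¹, A.MR_conj (A.MR.inv_mem hr) h1 h2, l⁻¹, A.ML.inv_mem hl,
      by group⟩

theorem M_EE : A.M ≤ A.EE := by
  rintro _ ⟨r, hr, l, hl, rfl⟩
  exact A.EE.mul_mem (A.MR_zero hr).1 (A.ML_zero hl).1

theorem M_disp {p : P × CU} (hp : p ∈ A.M) (y : ℝ) : |p.2 y - y| ≤ 2 := by
  obtain ⟨r, ⟨_, _, _, _, _, hr⟩, l, ⟨_, _, _, _, _, hl⟩, rfl⟩ := hp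
  have h1 := disp_of_tau hl y
  have h2 := disp_of_tau hr (l.2 y)
  show |r.2 (l.2 y) - y| ≤ 2
  rw [abs_le] at h1 h2 ⊢
  constructor <;> linarith [h1.1, h1.2, h2.1, h2.2]

theorem M_surj {g : P} (hg : g ∈ TT) (hg0 : g 0 = 0) : ∃ p ∈ A.M, p.1 = g := by
  obtain ⟨m, hm, c, hc, hc0, hc1, n, hn, h⟩ := stab_dec hg hg0
  obtain ⟨p, hp, hp1, hp2⟩ := A.exists_tau_zero zzero (zldiv zone ltwo) (by norm_num)
    (by norm_num) hm
  obtain ⟨q, hq, hq1, hq2⟩ := A.exists_tau_zero hc zone (by linarith) (by linarith) hn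
  refine ⟨p * q, ⟨p, ⟨1/2, zldiv zone ltwo, by norm_num, by norm_num, hp, hp2⟩, q,
    ⟨c, hc, hc0, by linarith, hq, hq2⟩, rfl⟩, ?_⟩
  show p.1 * q.1 = g
  rw [hp1, hq1, h]

/-- Common fixed point. -/
theorem exists_fix : ∃ c : ℝ, ∀ p ∈ A.M, p.2 c = c := by
  let S : Set ℝ := {y | ∃ p ∈ A.M, y = p.2 0}
  have hne : S.Nonempty := ⟨0, 1, A.M.one_mem, rfl⟩
  have hb : BddAbove S := by
    refine ⟨2, ?_⟩
    rintro _ ⟨p, hp, rfl⟩
    have := (abs_le.1 (A.M_disp hp 0)).2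
    linarith
  have hle : ∀ p ∈ A.M, p.2 (sSup S) ≤ sSup S := by
    intro p hp
    have h1 : sSup S ≤ (p⁻¹).2 (sSup S) := by
      refine csSup_le hne ?_
      rintro _ ⟨q, hq, rfl⟩
      have h2 : p.2 (q.2 0) ≤ sSup S := le_csSup hb ⟨p * q, A.M.mul_mem hp hq, rfl⟩
      have h3 := (CU_smono (p⁻¹).2).monotone h2
      have h4 : (p⁻¹).2 (p.2 (q.2 0)) = q.2 0 := CU_inv_self p.2 _
      rwa [h4] at h3
    have h5 := (CU_smono p.2).monotone h1
    have h6 : p.2 ((p⁻¹).2 (sSup S)) = sSup S := CU_self_inv p.2 _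
    rwa [h6] at h5
  refine ⟨sSup S, fun p hp => le_antisymm (hle p hp) ?_⟩
  have h1 := hle _ (A.M.inv_mem hp)
  have h2 := (CU_smono p.2).monotone h1
  have h3 : p.2 ((p⁻¹).2 (sSup S)) = sSup S := CU_self_inv p.2 _
  rwa [h3] at h2

end Act

end Pool.Agent.W328
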