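import Pool.Agent.W328.TT

/-!
# No increasing equivariant map
-/

set_option autoImplicit false

open Filter Topology Set Finset

namespace Pool.Agent.W328

/-! ### Two calculus lemmas -/

theorem osc_bound {u : ℝ → ℝ} (hc : Continuous u) (hp : ∀ x, u (x + 1) = u x) {ε : ℝ}
    (hε : 0 < ε) : ∃ C, 0 ≤ C ∧ ∀ x y, |u x - u y| ≤ ε + C * |x - y| := by
  have hp' : Function.Periodic u 1 := hp
  have hpi : ∀ (n : ℤ) (x : ℝ), u (x - n) = u x := by
    intro n x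
    have := hp'.sub_int_mul_eq (x := x) n
    simpa using this
  obtain ⟨B, hB⟩ : ∃ B, ∀ x, |u x| ≤ B := by
    have hb := hp'.isBounded_of_continuous (by norm_num) hc
    obtain ⟨B, hB⟩ := hb.exists_norm_le
    exact ⟨B, fun x => hB _ (mem_range_self x)⟩
  have hB0 : 0 ≤ B := (abs_nonneg _).trans (hB 0)
  have huc := (isCompact_Icc (a := (-1:ℝ)) (b := 2)).uniformContinuousOn_of_continuous
    hc.continuousOn
  rw [Metric.uniformContinuousOn_iff] at huc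
  obtain ⟨δ, hδ, h⟩ := huc ε hε
  have hδ' : 0 < min δ 1 := by positivity
  refine ⟨2 * B / min δ 1, by positivity, fun x y => ?_⟩
  rcases lt_or_ge |x - y| (min δ 1) with hlt | hge
  · have h1 := Int.floor_le x
    have h2 := Int.lt_floor_add_one x
    have h3 := hlt.trans_le (min_le_right _ _)
    have h4 := hlt.trans_le (min_le_left _ _)
    rw [abs_lt] at h3
    have h5 := h (x - ⌊x⌋) ⟨by linarith, by linarith⟩ (y - ⌊x⌋)
      ⟨by linarith, by linarith⟩ (by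
        rw [Real.dist_eq]
        have : x - ⌊x⌋ - (y - ⌊x⌋) = x - y := by ring
        rw [this]; exact h4)
    rw [hpi, hpi, Real.dist_eq] at h5
    have : 0 ≤ 2 * B / min δ 1 * |x - y| := by positivity
    linarith
  · have h1 : |u x - u y| ≤ 2 * B := by
      have := abs_sub (u x) (u y)
      linarith [hB x, hB y]
    have h2 : 2 * B ≤ 2 * B / min δ 1 * |x - y| := by
      rw [div_mul_eq_mul_div, le_div_iff₀ hδ']
      exact mul_le_mul_of_nonneg_left hge (by positivity)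
    linarith

theorem eq_of_freq {u w : ℝ → ℝ} {x : ℝ} (hu : DifferentiableAt ℝ u x)
    (hw : DifferentiableAt ℝ w x) (h : ∃ᶠ y in 𝓝[≠] x, u y = w y) :
    u x = w x ∧ deriv u x = deriv w x := by
  have hd := (hu.sub hw)
  have hdd := hd.hasDerivAt
  have h0 : (u - w) x = 0 := by
    have ht : Tendsto (u - w) (𝓝[≠] x) (𝓝 ((u - w) x)) := hd.continuousAt.tendsto.mono_left
      nhdsWithin_le_nhds
    have := (isClosed_singleton (x := (0:ℝ))).mem_of_frequently_of_tendsto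
      (h.mono fun y hy => by show u y - w y = 0; rw [hy, sub_self]) ht
    exact this
  have h1 : u x = w x := sub_eq_zero.1 h0
  refine ⟨h1, ?_⟩
  rw [hasDerivAt_iff_tendsto_slope] at hdd
  have h2 := (isClosed_singleton (x := (0:ℝ))).mem_of_frequently_of_tendsto
    (h.mono fun y hy => by
      show slope (u - w) x y = 0
      rw [slope_def_field, h0]
      show (u y - w y - 0) / (y - x) = 0
      rw [hy]; simp) hdd
  have h3 : deriv (u - w) x = 0 := h2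
  have h4 : deriv (u - w) x = deriv u x - deriv w x := deriv_sub hu hw
  linarith

/-! ### Sums over residues -/

theorem sum_two_mul (p : ℕ → ℝ) (m : ℕ) (hp : ∀ j, p (j + (2 * m + 1)) = p j) :
    ∑ j ∈ range (2 * m + 1), p (2 * j) = ∑ j ∈ range (2 * m + 1), p j := by
  have h1 : ∀ m : ℕ, ∀ q : ℕ → ℝ, ∑ j ∈ range (2 * m + 1), q j =
      ∑ j ∈ range (m + 1), q (2 * j) + ∑ j ∈ range m, q (2 * j + 1) := by
    intro m q
    induction m with
    | zero => simp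
    | succ m ih =>
      have e : 2 * (m + 1) + 1 = 2 * m + 1 + 1 + 1 := by ring
      rw [e, sum_range_succ, sum_range_succ, ih, sum_range_succ (fun j => q (2 * j)) (m + 1),
        sum_range_succ (fun j => q (2 * j + 1)) m]
      have e2 : 2 * m + 1 + 1 = 2 * (m + 1) := by ring
      rw [e2]; ring
  have h2 : 2 * m + 1 = (m + 1) + m := by ring
  rw [h1 m p]
  conv_lhs => rw [h2]
  rw [sum_range_add]
  congr 1
  refine sum_congr rfl fun j _ => ?_
  have e : 2 * (m + 1 + j) = (2 * j + 1) + (2 * m + 1) := by ring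
  rw [e, hp]

theorem sum_shift (p : ℕ → ℝ) (n : ℕ) (hp : ∀ j, p (j + n) = p j) :
    ∑ j ∈ range n, p (j + 1) = ∑ j ∈ range n, p j := by
  have h1 := sum_range_succ p n
  have h2 := sum_range_succ' p n
  have h3 := hp 0
  rw [zero_add] at h3
  rw [h1] at h2
  linarith

theorem sum_two_mul_add_one (p : ℕ → ℝ) (m : ℕ) (hp : ∀ j, p (j + (2 * m + 1)) = p j) :
    ∑ j ∈ range (2 * m + 1), p (2 * j + 1) = ∑ j ∈ range (2 * m + 1), p j := by
  rw [sum_two_mul (fun j => p (j + 1)) m, sum_shift p _ hp]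
  intro j
  have e : j + (2 * m + 1) + 1 = (j + 1) + (2 * m + 1) := by ring
  rw [e, hp]

theorem sum_three (p : ℕ → ℝ) (n : ℕ) (hp : ∀ j, p (j + n) = p j) :
    ∑ j ∈ range (3 * n), p j = 3 * ∑ j ∈ range n, p j := by
  have e : 3 * n = n + (n + n) := by ring
  rw [e, sum_range_add, sum_range_add]
  have h1 : ∀ j, p (n + j) = p j := fun j => by rw [add_comm, hp]
  have h2 : ∀ j, p (n + (n + j)) = p j := fun j => by rw [h1, h1]
  simp only [h1]
  ring

theorem odd_three (l : ℕ) : ∃ m, 3 ^ l = 2 * m + 1 := by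
  induction l with
  | zero => exact ⟨0, rfl⟩
  | succ l ih =>
    obtain ⟨m, hm⟩ := ih
    exact ⟨3 * m + 1, by rw [pow_succ, hm]; ring⟩

theorem z_three (j l : ℕ) : (j:ℝ) / 3 ^ l ∈ ZA := zldiv (znat j) (lpow lthree l)

/-! ### The setting -/

/-- `G` is a smooth lift of `g` relative to `F`. -/
structure IsL (F : ℝ → ℝ) (g : P) (G : ℝ → ℝ) : Prop where
  contDiff : ContDiff ℝ 1 G
  deriv_pos : ∀ x, 0 < deriv G x
  add_one : ∀ x, G (x + 1) = G x + 1
  eq : ∀ a ∈ ZA, G (F a) = F (g a)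

/-- Assumptions on `F`. -/
structure Inc (F : ℝ → ℝ) : Prop where
  mono : ∀ a ∈ ZA, ∀ b ∈ ZA, a < b → F a < F b
  add_one : ∀ a ∈ ZA, F (a + 1) = F a + 1
  lift : ∀ g ∈ TT, ∃ G, IsL F g G

/-- Right limit. -/
noncomputable def rr (F : ℝ → ℝ) (a : ℝ) : ℝ := sInf (F '' {b | b ∈ ZA ∧ a < b})

/-- Left limit. -/
noncomputable def ll (F : ℝ → ℝ) (a : ℝ) : ℝ := sSup (F '' {b | b ∈ ZA ∧ b < a})

namespace IsL

variable {F G H : ℝ → ℝ} {g h : P}

theorem diff (hG : IsL F g G) : Differentiable ℝ G := hG.contDiff.differentiable (by norm_num)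

theorem cont (hG : IsL F g G) : Continuous G := hG.contDiff.continuous

theorem contd (hG : IsL F g G) : Continuous (deriv G) :=
  (contDiff_one_iff_deriv.1 hG.contDiff).2

theorem smono (hG : IsL F g G) : StrictMono G := strictMono_of_deriv_pos hG.deriv_pos

theorem deriv_add_one (hG : IsL F g G) (x : ℝ) : deriv G (x + 1) = deriv G x := by
  have h1 : deriv (fun x => G (x + 1)) x = deriv G (x + 1) := deriv_comp_add_const _ _ _
  rw [← h1]
  have : (fun x => G (x + 1)) = fun x => G x + 1 := funext hG.add_one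
  rw [this, deriv_add_const]

theorem mul (hG : IsL F g G) (hH : IsL F h H) : IsL F (g * h) (G ∘ H) := by
  refine ⟨hG.contDiff.comp hH.contDiff, fun x => ?_, fun x => ?_, fun a ha => ?_⟩
  · rw [deriv_comp x (hG.diff _) (hH.diff _)]
    exact mul_pos (hG.deriv_pos _) (hH.deriv_pos _)
  · show G (H (x + 1)) = G (H x) + 1
    rw [hH.add_one, hG.add_one]
  · show G (H (F a)) = F (g (h a))
    rw [hH.eq a ha, hG.eq _ ((P_mem h).2 ha)]

theorem osc (hG : IsL F g G) {ε : ℝ} (hε : 0 < ε) :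
    ∃ C, 0 ≤ C ∧ ∀ x y, |Real.log (deriv G x) - Real.log (deriv G y)| ≤ ε + C * |x - y| := by
  refine osc_bound (u := fun x => Real.log (deriv G x)) ?_ ?_ hε
  · exact hG.contd.log fun x => (hG.deriv_pos x).ne'
  · intro x
    show Real.log (deriv G (x + 1)) = _
    rw [hG.deriv_add_one]

end IsL

namespace Inc

variable {F : ℝ → ℝ} (hF : Inc F)

include hF

theorem F_add_nat {a : ℝ} (ha : a ∈ ZA) (n : ℕ) : F (a + n) = F a + n := by
  induction n with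
  | zero => simp
  | succ n ih =>
    push_cast
    rw [← add_assoc, hF.add_one _ (zadd ha (znat n)), ih]; ring

theorem le_rr {a : ℝ} (ha : a ∈ ZA) : F a ≤ rr F a := by
  refine le_csInf ⟨F (a + 1), mem_image_of_mem _ ⟨zadd ha zone, by linarith⟩⟩ ?_
  rintro _ ⟨b, ⟨hb, hab⟩, rfl⟩
  exact (hF.mono a ha b hb hab).le

theorem ll_le {a : ℝ} (ha : a ∈ ZA) : ll F a ≤ F a := by
  refine csSup_le ⟨F (a - 1), mem_image_of_mem _ ⟨zsub ha zone, by linarith⟩⟩ ?_
  rintro _ ⟨b, ⟨hb, hab⟩, rfl⟩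
  exact (hF.mono b hb a ha hab).le

theorem rr_lt {a b : ℝ} (ha : a ∈ ZA) (hb : b ∈ ZA) (hab : a < b) : rr F a < F b := by
  obtain ⟨c, hc, h1, h2⟩ := z_between hab
  refine lt_of_le_of_lt (csInf_le ⟨F a, ?_⟩ (mem_image_of_mem _ ⟨hc, h1⟩)) (hF.mono c hc b hb h2)
  rintro _ ⟨b, ⟨hb, hab⟩, rfl⟩
  exact (hF.mono a ha b hb hab).le

theorem lt_ll {a b : ℝ} (ha : a ∈ ZA) (hb : b ∈ ZA) (hab : b < a) : F b < ll F a := by
  obtain ⟨c, hc, h1, h2⟩ := z_between hab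
  refine lt_of_lt_of_le (hF.mono b hb c hc h1) (le_csSup ⟨F a, ?_⟩ (mem_image_of_mem _ ⟨hc, h2⟩))
  rintro _ ⟨b, ⟨hb, hab⟩, rfl⟩
  exact (hF.mono b hb a ha hab).le

theorem rr_near {a : ℝ} (ha : a ∈ ZA) {c : ℝ} (hc : a < c) {ε : ℝ} (hε : 0 < ε) :
    ∃ b ∈ ZA, a < b ∧ b < c ∧ F b < rr F a + ε := by
  have hne : (F '' {b | b ∈ ZA ∧ a < b}).Nonempty :=
    ⟨F (a + 1), mem_image_of_mem _ ⟨zadd ha zone, by linarith⟩⟩
  obtain ⟨_, ⟨b, ⟨hb, hab⟩, rfl⟩, h⟩ := exists_lt_of_csInf_lt hne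
    (show sInf (F '' {b | b ∈ ZA ∧ a < b}) < rr F a + ε by
      show rr F a < rr F a + ε
      linarith)
  obtain ⟨d, hd, h1, h2⟩ := z_between (lt_min hab hc)
  exact ⟨d, hd, h1, h2.trans_le (min_le_right _ _),
    (hF.mono d hd b hb (h2.trans_le (min_le_left _ _))).trans h⟩

theorem ll_near {a : ℝ} (ha : a ∈ ZA) {c : ℝ} (hc : c < a) {ε : ℝ} (hε : 0 < ε) :
    ∃ b ∈ ZA, b < a ∧ c < b ∧ ll F a - ε < F b := by
  have hne : (F '' {b | b ∈ ZA ∧ b < a}).Nonempty :=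
    ⟨F (a - 1), mem_image_of_mem _ ⟨zsub ha zone, by linarith⟩⟩
  obtain ⟨_, ⟨b, ⟨hb, hab⟩, rfl⟩, h⟩ := exists_lt_of_lt_csSup hne
    (show ll F a - ε < sSup (F '' {b | b ∈ ZA ∧ b < a}) by
      show ll F a - ε < ll F a
      linarith)
  obtain ⟨d, hd, h1, h2⟩ := z_between (max_lt hab hc)
  exact ⟨d, hd, h2, (le_max_right _ _).trans_lt h1,
    h.trans (hF.mono b hb d hd ((le_max_left _ _).trans_lt h1))⟩

theorem freq_rr {a : ℝ} (ha : a ∈ ZA) {c : ℝ} (hc : a < c) :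
    ∃ᶠ y in 𝓝[≠] (rr F a), ∃ b ∈ ZA, a < b ∧ b < c ∧ F b = y := by
  have h1 : ∃ᶠ y in 𝓝[>] (rr F a), ∃ b ∈ ZA, a < b ∧ b < c ∧ F b = y := by
    rw [frequently_iff]
    intro U hU
    obtain ⟨δ, hδ, h⟩ := (mem_nhdsGT_iff_exists_Ioo_subset).1 hU
    obtain ⟨b, hb, h1, h2, h3⟩ := hF.rr_near ha hc (ε := δ - rr F a) (by simpa using hδ)
    exact ⟨F b, h ⟨hF.rr_lt ha hb h1, by linarith⟩, b, hb, h1, h2, rfl⟩
  exact h1.filter_mono (nhdsWithin_mono _ fun x hx => ne_of_gt hx)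

theorem freq_ll {a : ℝ} (ha : a ∈ ZA) {c : ℝ} (hc : c < a) :
    ∃ᶠ y in 𝓝[≠] (ll F a), ∃ b ∈ ZA, b < a ∧ c < b ∧ F b = y := by
  have h1 : ∃ᶠ y in 𝓝[<] (ll F a), ∃ b ∈ ZA, b < a ∧ c < b ∧ F b = y := by
    rw [frequently_iff]
    intro U hU
    obtain ⟨δ, hδ, h⟩ := (mem_nhdsLT_iff_exists_Ioo_subset).1 hU
    obtain ⟨b, hb, h1, h2, h3⟩ := hF.ll_near ha hc (ε := ll F a - δ) (by simpa using hδ)
    exact ⟨F b, h ⟨by linarith, hF.lt_ll ha hb h1⟩, b, hb, h1, h2, rfl⟩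
  exact h1.filter_mono (nhdsWithin_mono _ fun x hx => ne_of_lt hx)

theorem G_rr {g : P} {G : ℝ → ℝ} (hG : IsL F g G) {a : ℝ} (ha : a ∈ ZA) :
    G (rr F a) = rr F (g a) := by
  have hga : g a ∈ ZA := (P_mem g).2 ha
  apply le_antisymm
  · refine le_csInf ⟨F (g a + 1), mem_image_of_mem _ ⟨zadd hga zone, by linarith⟩⟩ ?_
    rintro _ ⟨b, ⟨hb, hab⟩, rfl⟩
    have h1 : a < g⁻¹ b := by
      have := P_strictMono g⁻¹ hab
      rwa [P_inv_self] at this
    have h2 : g⁻¹ b ∈ ZA := (P_mem g⁻¹).2 hb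
    have h3 := hG.smono (hF.rr_lt ha h2 h1)
    rw [hG.eq _ h2, P_self_inv] at h3
    exact h3.le
  · refine le_of_forall_pos_lt_add fun ε hε => ?_
    obtain ⟨δ, hδ, h⟩ := Metric.continuousAt_iff.1 (hG.cont.continuousAt (x := rr F a)) ε hε
    obtain ⟨b, hb, h1, -, h3⟩ := hF.rr_near ha (c := a + 1) (by linarith) hδ
    have h4 := hF.rr_lt ha hb h1
    have h5 := h (x := F b) (by rw [Real.dist_eq, abs_lt]; constructor <;> linarith)
    rw [hG.eq b hb, Real.dist_eq, abs_lt] at h5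
    have h6 := hF.rr_lt hga ((P_mem g).2 hb) (P_strictMono g h1)
    linarith

theorem G_ll {g : P} {G : ℝ → ℝ} (hG : IsL F g G) {a : ℝ} (ha : a ∈ ZA) :
    G (ll F a) = ll F (g a) := by
  have hga : g a ∈ ZA := (P_mem g).2 ha
  apply le_antisymm
  · refine le_of_forall_pos_lt_add fun ε hε => ?_
    obtain ⟨δ, hδ, h⟩ := Metric.continuousAt_iff.1 (hG.cont.continuousAt (x := ll F a)) ε hε
    obtain ⟨b, hb, h1, -, h3⟩ := hF.ll_near ha (c := a - 1) (by linarith) hδ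
    have h4 := hF.lt_ll ha hb h1
    have h5 := h (x := F b) (by rw [Real.dist_eq, abs_lt]; constructor <;> linarith)
    rw [hG.eq b hb, Real.dist_eq, abs_lt] at h5
    have h6 := hF.lt_ll hga ((P_mem g).2 hb) (P_strictMono g h1)
    linarith
  · refine csSup_le ⟨F (g a - 1), mem_image_of_mem _ ⟨zsub hga zone, by linarith⟩⟩ ?_
    rintro _ ⟨b, ⟨hb, hab⟩, rfl⟩
    have h1 : g⁻¹ b < a := by
      have := P_strictMono g⁻¹ hab
      rwa [P_inv_self] at this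
    have h2 : g⁻¹ b ∈ ZA := (P_mem g⁻¹).2 hb
    have h3 := hG.smono (hF.lt_ll ha h2 h1)
    rw [hG.eq _ h2, P_self_inv] at h3
    exact h3.le

/-- Translation lifts. -/
theorem isL_Tr {g : P} {G : ℝ → ℝ} (hG : IsL F g G) (n : ℕ) :
    IsL F (Tr n (znat n) * g) (fun x => G x + n) := by
  refine ⟨hG.contDiff.add contDiff_const, fun x => ?_, fun x => ?_, fun a ha => ?_⟩
  · rw [deriv_add_const]; exact hG.deriv_pos x
  · show G (x + 1) + n = G x + n + 1
    rw [hG.add_one]; ring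
  · show G (F a) + n = F (Tr n (znat n) (g a))
    rw [Tr_apply, hG.eq a ha, hF.F_add_nat ((P_mem g).2 ha)]

omit hF in
theorem isL_one : IsL F 1 (fun x => x) :=
  ⟨contDiff_id, fun x => by simp, fun _ => rfl, fun _ _ => rfl⟩

theorem rr_add_one {a : ℝ} (ha : a ∈ ZA) : rr F (a + 1) = rr F a + 1 := by
  have h := hF.G_rr (hF.isL_Tr isL_one 1) ha
  rw [P_mul, Tr_apply] at h
  push_cast at h
  exact h.symm

theorem ll_add_one {a : ℝ} (ha : a ∈ ZA) : ll F (a + 1) = ll F a + 1 := by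
  have h := hF.G_ll (hF.isL_Tr isL_one 1) ha
  rw [P_mul, Tr_apply] at h
  push_cast at h
  exact h.symm

/-- The derivative at the right limit depends only on the right germ. -/
theorem germ_rr {g h : P} {G H : ℝ → ℝ} (hG : IsL F g G) (hH : IsL F h H) {a c : ℝ} (ha : a ∈ ZA)
    (hc : a < c) (hgh : ∀ x, a ≤ x → x ≤ c → g x = h x) :
    deriv G (rr F a) = deriv H (rr F a) := by
  refine (eq_of_freq (hG.diff _) (hH.diff _) ((hF.freq_rr ha hc).mono ?_)).2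
  rintro y ⟨b, hb, h1, h2, rfl⟩
  rw [hG.eq b hb, hH.eq b hb, hgh b h1.le h2.le]

theorem germ_ll {g h : P} {G H : ℝ → ℝ} (hG : IsL F g G) (hH : IsL F h H) {a c : ℝ} (ha : a ∈ ZA)
    (hc : c < a) (hgh : ∀ x, c ≤ x → x ≤ a → g x = h x) :
    deriv G (ll F a) = deriv H (ll F a) := by
  refine (eq_of_freq (hG.diff _) (hH.diff _) ((hF.freq_ll ha hc).mono ?_)).2
  rintro y ⟨b, hb, h1, h2, rfl⟩
  rw [hG.eq b hb, hH.eq b hb, hgh b h2.le h1.le]

/-- Existence of local dilations. -/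
theorem exists_dil {s : ℝ} (hs : s ∈ Lam) {a b : ℝ} (ha : a ∈ ZA) (hb : b ∈ ZA) (hab : a < b)
    (hb1 : b < a + 1) (hsb : s * b < s * a + 1) :
    ∃ g ∈ TT, ∃ G, IsL F g G ∧ ∀ x, a ≤ x → x ≤ b → g x = s * x := by
  obtain ⟨g, hg, h⟩ := loc_ext (Dil s hs) ha hb hab.le hb1 (by rw [Dil_apply, Dil_apply]; exact hsb)
  obtain ⟨G, hG⟩ := hF.lift g hg
  exact ⟨g, hg, G, hG, fun x h1 h2 => by rw [h x h1 h2, Dil_apply]⟩

theorem exists_dil' {s : ℝ} (hs : s ∈ Lam) {a : ℝ} (ha : a ∈ ZA) :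
    ∃ g ∈ TT, ∃ G c, a < c ∧ IsL F g G ∧ ∀ x, a ≤ x → x ≤ c → g x = s * x := by
  have hs0 := lpos hs
  have h0 : 0 < min (1:ℝ) (1 / s) := by positivity
  obtain ⟨b, hb, h1, h2⟩ := z_between (show a < a + min 1 (1 / s) by linarith)
  have h3 := min_le_left (1:ℝ) (1 / s)
  have h4 := min_le_right (1:ℝ) (1 / s)
  obtain ⟨g, hg, G, hG, h⟩ := hF.exists_dil hs ha hb h1 (by linarith) (by
    have h5 : s * b < s * (a + 1 / s) := mul_lt_mul_of_pos_left (by linarith) hs0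
    have h6 : s * (a + 1 / s) = s * a + 1 := by field_simp
    linarith)
  exact ⟨g, hg, G, b, h1, hG, h⟩

/-- The cocycle. -/
theorem exists_phi : ∃ Φ : ℝ → ℝ → ℝ, ∀ s ∈ Lam, ∀ a ∈ ZA, ∀ g G c, IsL F g G → a < c →
    (∀ x, a ≤ x → x ≤ c → g x = s * x) → Real.log (deriv G (rr F a)) = Φ s a := by
  have : ∀ s a : ℝ, ∃ v : ℝ, s ∈ Lam → a ∈ ZA → ∀ g G c, IsL F g G → a < c →
      (∀ x, a ≤ x → x ≤ c → g x = s * x) → Real.log (deriv G (rr F a)) = v := by
    intro s a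
    by_cases h : s ∈ Lam ∧ a ∈ ZA
    · obtain ⟨hs, ha⟩ := h
      obtain ⟨g, hg, G, c, hc, hG, h⟩ := hF.exists_dil' hs ha
      refine ⟨Real.log (deriv G (rr F a)), fun _ _ g' G' c' hG' hc' h' => ?_⟩
      rw [hF.germ_rr hG' hG ha (lt_min hc hc') fun x h1 h2 => by
        rw [h x h1 (h2.trans (min_le_left _ _)), h' x h1 (h2.trans (min_le_right _ _))]]
    · exact ⟨0, fun hs ha => absurd ⟨hs, ha⟩ h⟩
  choose Φ hΦ using this
  exact ⟨Φ, fun s hs a ha => hΦ s a hs ha⟩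

end Inc

end Pool.Agent.W328
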