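import Pool.Agent.W328.Incr

/-!
# No increasing equivariant map, second part
-/

set_option autoImplicit false

open Filter Topology Set Finset

namespace Pool.Agent.W328

namespace Inc

variable {F : ℝ → ℝ} (hF : Inc F)

include hF

/-- Properties of the cocycle. -/
theorem phi_mul {Φ : ℝ → ℝ → ℝ} (hΦ : ∀ s ∈ Lam, ∀ a ∈ ZA, ∀ g G c, IsL F g G → a < c →
    (∀ x, a ≤ x → x ≤ c → g x = s * x) → Real.log (deriv G (rr F a)) = Φ s a)
    {s t a : ℝ} (hs : s ∈ Lam) (ht : t ∈ Lam) (ha : a ∈ ZA) :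
    Φ (s * t) a = Φ s (t * a) + Φ t a := by
  have hta : t * a ∈ ZA := zlmul ht ha
  have ht0 := lpos ht
  obtain ⟨h, -, H, c, hc, hH, h1⟩ := hF.exists_dil' ht ha
  obtain ⟨g, -, G, d, hd, hG, h2⟩ := hF.exists_dil' hs hta
  have hha : h a = t * a := h1 a le_rfl hc.le
  have e : a < min c (d / t) := lt_min hc (by rw [lt_div_iff₀ ht0]; linarith)
  have h3 := hΦ (s * t) (lmul hs ht) a ha (g * h) (G ∘ H) (min c (d / t)) (hG.mul hH) e (by
    intro x hx hx'
    have h4 : x ≤ c := hx'.trans (min_le_left _ _)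
    have h5 : x ≤ d / t := hx'.trans (min_le_right _ _)
    rw [le_div_iff₀ ht0] at h5
    have h6 : t * a ≤ t * x := mul_le_mul_of_nonneg_left hx ht0.le
    rw [P_mul, h1 x hx h4, h2 (t * x) h6 (by linarith)]; ring)
  rw [← h3, deriv_comp _ (hG.diff _) (hH.diff _),
    Real.log_mul (hG.deriv_pos _).ne' (hH.deriv_pos _).ne', hF.G_rr hH ha, hha,
    hΦ s hs _ hta g G d hG hd h2, hΦ t ht a ha h H c hH hc h1]

theorem phi_add_one {Φ : ℝ → ℝ → ℝ} (hΦ : ∀ s ∈ Lam, ∀ a ∈ ZA, ∀ g G c, IsL F g G → a < c →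
    (∀ x, a ≤ x → x ≤ c → g x = s * x) → Real.log (deriv G (rr F a)) = Φ s a)
    (n : ℕ) (hn : ((n + 1 : ℕ):ℝ) ∈ Lam) {a : ℝ} (ha : a ∈ ZA) :
    Φ ((n + 1 : ℕ):ℝ) (a + 1) = Φ ((n + 1 : ℕ):ℝ) a := by
  obtain ⟨g, hg, G, c, hc, hG, h⟩ := hF.exists_dil' hn ha
  have h1 := hΦ _ hn (a + 1) (zadd ha zone) _ _ (c + 1) (hF.isL_Tr hG n) (by linarith) (by
    intro x hx hx'
    have h2 := TT_int hg (x - 1) 1
    push_cast at h2 h
    rw [sub_add_cancel] at h2
    rw [P_mul, Tr_apply, h2, h _ (by linarith) (by linarith)]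
    push_cast; ring)
  rw [← h1, ← hΦ _ hn a ha g G c hG hc h, deriv_add_const, hF.rr_add_one ha, hG.deriv_add_one]

theorem rr_add_nat {a : ℝ} (ha : a ∈ ZA) (n : ℕ) : rr F (a + n) = rr F a + n := by
  induction n with
  | zero => simp
  | succ n ih =>
    push_cast
    rw [← add_assoc, hF.rr_add_one (zadd ha (znat n)), ih]; ring

theorem ll_add_nat {a : ℝ} (ha : a ∈ ZA) (n : ℕ) : ll F (a + n) = ll F a + n := by
  induction n with
  | zero => simp
  | succ n ih =>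
    push_cast
    rw [← add_assoc, hF.ll_add_one (zadd ha (znat n)), ih]; ring

/-- Sums of the cocycle. -/
theorem phi_sum {Φ : ℝ → ℝ → ℝ} (hΦ : ∀ s ∈ Lam, ∀ a ∈ ZA, ∀ g G c, IsL F g G → a < c →
    (∀ x, a ≤ x → x ≤ c → g x = s * x) → Real.log (deriv G (rr F a)) = Φ s a) (l : ℕ) :
    ∑ j ∈ range (3 ^ l), Φ 2 (j / 3 ^ l) = 3 ^ l * Φ 2 0 := by
  have h2p : ∀ a ∈ ZA, Φ 2 (a + 1) = Φ 2 a := by
    intro a ha
    have e : ((1 + 1 : ℕ):ℝ) = 2 := by norm_num
    have := hF.phi_add_one hΦ 1 (by rw [e]; exact ltwo) ha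
    rwa [e] at this
  have h3p : ∀ a ∈ ZA, Φ 3 (a + 1) = Φ 3 a := by
    intro a ha
    have e : ((2 + 1 : ℕ):ℝ) = 3 := by norm_num
    have := hF.phi_add_one hΦ 2 (by rw [e]; exact lthree) ha
    rwa [e] at this
  have hco : ∀ a ∈ ZA, Φ 2 a = Φ 2 (3 * a) - Φ 3 (2 * a) + Φ 3 a := by
    intro a ha
    have e1 := hF.phi_mul hΦ ltwo lthree ha
    have e2 := hF.phi_mul hΦ lthree ltwo ha
    rw [mul_comm] at e2
    linarith
  induction l with
  | zero => simp
  | succ l ih =>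
    have hn : (3:ℝ) ^ l ≠ 0 := by positivity
    have hn' : (3:ℝ) ^ (l + 1) ≠ 0 := by positivity
    obtain ⟨m, hm⟩ := odd_three (l + 1)
    have e1 : ∑ j ∈ range (3 ^ (l + 1)), Φ 2 (j / 3 ^ (l + 1)) =
        ∑ j ∈ range (3 ^ (l + 1)), Φ 2 (j / 3 ^ l) -
        ∑ j ∈ range (3 ^ (l + 1)), Φ 3 ((2 * j : ℕ) / 3 ^ (l + 1)) +
        ∑ j ∈ range (3 ^ (l + 1)), Φ 3 (j / 3 ^ (l + 1)) := by
      rw [← sum_sub_distrib, ← sum_add_distrib]
      refine sum_congr rfl fun j _ => ?_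
      rw [hco _ (z_three j (l + 1))]
      have a1 : 3 * ((j:ℝ) / 3 ^ (l + 1)) = j / 3 ^ l := by rw [pow_succ]; field_simp
      have a2 : 2 * ((j:ℝ) / 3 ^ (l + 1)) = (2 * j : ℕ) / 3 ^ (l + 1) := by push_cast; ring
      rw [a1, a2]
    have e2 : ∑ j ∈ range (3 ^ (l + 1)), Φ 3 ((2 * j : ℕ) / 3 ^ (l + 1)) =
        ∑ j ∈ range (3 ^ (l + 1)), Φ 3 (j / 3 ^ (l + 1)) := by
      have h := sum_two_mul (fun j => Φ 3 (j / 3 ^ (l + 1))) m (by
        intro j
        have : ((j + (2 * m + 1) : ℕ):ℝ) / 3 ^ (l + 1) = j / 3 ^ (l + 1) + 1 := by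
          rw [← hm]; push_cast; field_simp
        rw [this, h3p _ (z_three j (l + 1))])
      rw [← hm] at h
      exact h
    have e3 : ∑ j ∈ range (3 ^ (l + 1)), Φ 2 (j / 3 ^ l) =
        3 * ∑ j ∈ range (3 ^ l), Φ 2 (j / 3 ^ l) := by
      have h := sum_three (fun j => Φ 2 (j / 3 ^ l)) (3 ^ l) (by
        intro j
        have : ((j + 3 ^ l : ℕ):ℝ) / 3 ^ l = j / 3 ^ l + 1 := by
          push_cast; field_simp
        rw [this, h2p _ (z_three j l)])
      have e : 3 ^ (l + 1) = 3 * 3 ^ l := by ring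
      rw [e]
      exact h
    rw [e1, e2, e3, ih]; ring

/-- Uniform family of doubling maps. -/
theorem uniform {ε : ℝ} (hε : 0 < ε) : ∃ C, 0 ≤ C ∧ ∀ a, 0 ≤ a → a < 1 →
      ∃ g G, IsL F g G ∧ (∀ x, a - 1/24 ≤ x → x ≤ a + 1/24 → g x = 2 * x) ∧
        ∀ x y, |Real.log (deriv G x) - Real.log (deriv G y)| ≤ ε + C * |x - y| := by
  have h24 : (24:ℝ) ∈ Lam := ⟨3, 1, by norm_num⟩
  have key : ∀ i : ℕ, ∃ g G C, IsL F g G ∧ 0 ≤ C ∧
      (∀ x, (i:ℝ) / 3 - 1/24 ≤ x → x ≤ (i + 1) / 3 + 1/24 → g x = 2 * x) ∧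
        ∀ x y, |Real.log (deriv G x) - Real.log (deriv G y)| ≤ ε + C * |x - y| := by
    intro i
    obtain ⟨g, -, G, hG, h⟩ := hF.exists_dil ltwo (a := i / 3 - 1/24) (b := (i + 1) / 3 + 1/24)
      (zsub (zldiv (znat i) lthree) (zldiv zone h24))
      (zadd (zldiv (zadd (znat i) zone) lthree) (zldiv zone h24)) (by linarith) (by linarith)
      (by linarith)
    obtain ⟨C, hC, h'⟩ := hG.osc hε
    exact ⟨g, G, C, hG, hC, h, h'⟩
  choose g G C hG hC h h' using key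
  refine ⟨C 0 + C 1 + C 2, by linarith [hC 0, hC 1, hC 2], fun a ha ha' => ?_⟩
  have hi : ∃ i : ℕ, (i:ℝ) / 3 ≤ a ∧ a ≤ (i + 1) / 3 ∧ C i ≤ C 0 + C 1 + C 2 := by
    rcases lt_or_ge a (1/3) with h1 | h1
    · exact ⟨0, by push_cast; linarith, by push_cast; linarith, by linarith [hC 0, hC 1, hC 2]⟩
    rcases lt_or_ge a (2/3) with h2 | h2
    · exact ⟨1, by push_cast; linarith, by push_cast; linarith, by linarith [hC 0, hC 1, hC 2]⟩
    · exact ⟨2, by push_cast; linarith, by push_cast; linarith, by linarith [hC 0, hC 1, hC 2]⟩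
  obtain ⟨i, h1, h2, h3⟩ := hi
  refine ⟨g i, G i, hG i, fun x hx hx' => h i x (by linarith) (by linarith), fun x y => ?_⟩
  refine (h' i x y).trans ?_
  have := mul_le_mul_of_nonneg_right h3 (abs_nonneg (x - y))
  linarith

omit hF in
/-- Mean value theorem in logarithmic form. -/
theorem log_mvt {g : P} {G : ℝ → ℝ} (hG : IsL F g G) {x y ε C : ℝ} (hxy : x < y)
    (h : ∀ x y, |Real.log (deriv G x) - Real.log (deriv G y)| ≤ ε + C * |x - y|) (hC : 0 ≤ C)
    {z : ℝ} (hz : x ≤ z) (hz' : z ≤ y) :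
    |Real.log (G y - G x) - Real.log (y - x) - Real.log (deriv G z)| ≤ ε + C * (y - x) := by
  obtain ⟨ξ, ⟨h1, h2⟩, h3⟩ := exists_deriv_eq_slope G hxy hG.cont.continuousOn
    (hG.diff.differentiableOn)
  have h4 : 0 < G y - G x := sub_pos.2 (hG.smono hxy)
  have h5 : Real.log (G y - G x) - Real.log (y - x) = Real.log (deriv G ξ) := by
    rw [h3, Real.log_div h4.ne' (sub_pos.2 hxy).ne']
  rw [h5]
  refine (h ξ z).trans ?_
  have h6 : |ξ - z| ≤ y - x := by rw [abs_le]; constructor <;> linarith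
  have := mul_le_mul_of_nonneg_left h6 hC
  linarith

omit hF in
theorem limit_aux {u v : ℝ} (h : ∀ ε : ℝ, 0 < ε → ∃ C : ℝ, ∀ l : ℕ, 3 ≤ l →
    (3:ℝ) ^ l * u ≤ 3 ^ l * v + 3 ^ l * ε + C) : u ≤ v := by
  by_contra hlt
  push Not at hlt
  obtain ⟨C, hC⟩ := h ((u - v) / 2) (by linarith)
  obtain ⟨n, hn⟩ := pow_unbounded_of_one_lt (max C 0 / ((u - v) / 2)) (by norm_num : (1:ℝ) < 3)
  have h1 : max C 0 < 3 ^ n * ((u - v) / 2) := by
    rwa [div_lt_iff₀ (by linarith)] at hn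
  have h2 := hC (n + 3) (by omega)
  have h3 : (3:ℝ) ^ n ≤ 3 ^ (n + 3) := pow_le_pow_right₀ (by norm_num) (by omega)
  have h4 : (3:ℝ) ^ n * ((u - v) / 2) ≤ 3 ^ (n + 3) * ((u - v) / 2) :=
    mul_le_mul_of_nonneg_right h3 (by linarith)
  have h5 := le_max_left C 0
  have h6 : (3:ℝ) ^ (n + 3) * u - 3 ^ (n + 3) * v = 2 * (3 ^ (n + 3) * ((u - v) / 2)) := by ring
  linarith

theorem log_two_le {Φ : ℝ → ℝ → ℝ} (hΦ : ∀ s ∈ Lam, ∀ a ∈ ZA, ∀ g G c, IsL F g G → a < c →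
    (∀ x, a ≤ x → x ≤ c → g x = s * x) → Real.log (deriv G (rr F a)) = Φ s a) :
    Real.log 2 ≤ Φ 2 0 := by
  refine limit_aux fun ε hε => ?_
  obtain ⟨C, hC, hu⟩ := hF.uniform hε
  refine ⟨C, fun l hl => ?_⟩
  obtain ⟨k, hk⟩ := odd_three l
  have hn : (0:ℝ) < 3 ^ l := by positivity
  have hn27 : (27:ℝ) ≤ 3 ^ l := by
    calc (27:ℝ) = 3 ^ 3 := by norm_num
      _ ≤ 3 ^ l := pow_le_pow_right₀ (by norm_num) hl
  let R : ℕ → ℝ := fun j => rr F (j / 3 ^ l)
  have hR : ∀ j, R j < R (j + 1) := by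
    intro j
    have h1 : (j:ℝ) / 3 ^ l < ((j + 1 : ℕ):ℝ) / 3 ^ l := by
      push_cast; gcongr; linarith
    exact (hF.rr_lt (z_three _ _) (z_three _ _) h1).trans_le (hF.le_rr (z_three _ _))
  let m : ℕ → ℝ := fun j => R (j + 1) - R j
  have hm : ∀ j, 0 < m j := fun j => sub_pos.2 (hR j)
  have hRp : ∀ j, R (j + 3 ^ l) = R j + 1 := by
    intro j
    show rr F _ = rr F _ + 1
    have : ((j + 3 ^ l : ℕ):ℝ) / 3 ^ l = j / 3 ^ l + 1 := by push_cast; field_simp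
    rw [this, hF.rr_add_one (z_three _ _)]
  have hmp : ∀ j, m (j + 3 ^ l) = m j := by
    intro j
    show R (j + 3 ^ l + 1) - R (j + 3 ^ l) = R (j + 1) - R j
    have e : j + 3 ^ l + 1 = (j + 1) + 3 ^ l := by ring
    rw [e, hRp, hRp]; ring
  have hsum : ∑ j ∈ range (3 ^ l), m j = 1 := by
    have h1 : ∑ j ∈ range (3 ^ l), m j = R (3 ^ l) - R 0 := sum_range_sub R _
    have h2 := hRp 0
    rw [zero_add] at h2
    rw [h1, h2]; ring
  -- the pointwise estimate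
  have hpt : ∀ j ∈ range (3 ^ l), Real.log 2 + (Real.log (m (2 * j)) + Real.log (m (2 * j + 1))) / 2
      - Real.log (m j) ≤ Φ 2 (j / 3 ^ l) + ε + C * m j := by
    intro j hj
    have hj' : (j:ℝ) < 3 ^ l := by exact_mod_cast mem_range.1 hj
    obtain ⟨g, G, hG, hg, ho⟩ := hu (j / 3 ^ l) (by positivity) (by rw [div_lt_one hn]; exact hj')
    have hstep : (1:ℝ) / 3 ^ l ≤ 1 / 24 := by
      apply one_div_le_one_div_of_le <;> linarith
    have e1 : ((j + 1 : ℕ):ℝ) / 3 ^ l = j / 3 ^ l + 1 / 3 ^ l := by push_cast; ring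
    have hinv : (0:ℝ) < 1 / 3 ^ l := by positivity
    have e2 : G (R j) = R (2 * j) := by
      show G (rr F _) = rr F _
      rw [hF.G_rr hG (z_three _ _), hg _ (by linarith) (by linarith)]
      congr 1; push_cast; ring
    have e3 : G (R (j + 1)) = R (2 * j + 2) := by
      show G (rr F _) = rr F _
      rw [hF.G_rr hG (z_three _ _), hg _ (by rw [e1]; linarith) (by rw [e1]; linarith)]
      congr 1; push_cast; ring
    have h1 := log_mvt hG (hR j) ho hC le_rfl (hR j).le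
    rw [e2, e3] at h1
    have h2 : Real.log (deriv G (R j)) = Φ 2 (j / 3 ^ l) :=
      hΦ 2 ltwo _ (z_three _ _) g G (j / 3 ^ l + 1/24) hG (by linarith) fun x hx hx' =>
        hg x (by linarith) hx'
    rw [h2] at h1
    have h3 : R (2 * j + 2) - R (2 * j) = m (2 * j) + m (2 * j + 1) := by
      show _ = R (2 * j + 1) - R (2 * j) + (R (2 * j + 1 + 1) - R (2 * j + 1))
      ring_nf
    have h4 : Real.log 2 + (Real.log (m (2 * j)) + Real.log (m (2 * j + 1))) / 2 ≤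
        Real.log (m (2 * j) + m (2 * j + 1)) := by
      have hp := hm (2 * j)
      have hq := hm (2 * j + 1)
      have h5 : Real.log (4 * (m (2 * j) * m (2 * j + 1))) ≤
          Real.log ((m (2 * j) + m (2 * j + 1)) ^ 2) := by
        apply Real.log_le_log (by positivity)
        nlinarith [sq_nonneg (m (2 * j) - m (2 * j + 1))]
      rw [Real.log_pow, Real.log_mul (by norm_num) (mul_pos hp hq).ne',
        Real.log_mul hp.ne' hq.ne'] at h5
      have h6 : Real.log 4 = 2 * Real.log 2 := by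
        rw [show (4:ℝ) = 2 ^ 2 by norm_num, Real.log_pow]; norm_num
      push_cast at h5
      linarith
    rw [h3, abs_le] at h1
    have h5 : C * (R (j + 1) - R j) = C * m j := rfl
    have h6 : Real.log (R (j + 1) - R j) = Real.log (m j) := rfl
    linarith [h1.2]
  have hS := sum_le_sum hpt
  have hlogp : ∀ j, Real.log (m (j + (2 * k + 1))) = Real.log (m j) := by
    intro j; rw [← hk, hmp]
  have s1 := sum_two_mul (fun j => Real.log (m j)) k hlogp
  have s2 := sum_two_mul_add_one (fun j => Real.log (m j)) k hlogp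
  rw [← hk] at s1 s2
  have s3 : ∑ j ∈ range (3 ^ l), (Real.log 2 + (Real.log (m (2 * j)) + Real.log (m (2 * j + 1))) / 2
      - Real.log (m j)) = 3 ^ l * Real.log 2 := by
    rw [sum_sub_distrib, sum_add_distrib, ← sum_div, sum_add_distrib, s1, s2, sum_const,
      card_range, nsmul_eq_mul]
    push_cast; ring
  have s4 : ∑ j ∈ range (3 ^ l), (Φ 2 (j / 3 ^ l) + ε + C * m j) =
      3 ^ l * Φ 2 0 + 3 ^ l * ε + C := by
    rw [sum_add_distrib, sum_add_distrib, hF.phi_sum hΦ l, ← mul_sum, hsum, sum_const,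
      card_range, nsmul_eq_mul]
    push_cast; ring
  rw [s3, s4] at hS
  exact hS

theorem gap_le {Φ : ℝ → ℝ → ℝ} (hΦ : ∀ s ∈ Lam, ∀ a ∈ ZA, ∀ g G c, IsL F g G → a < c →
    (∀ x, a ≤ x → x ≤ c → g x = s * x) → Real.log (deriv G (rr F a)) = Φ s a)
    (hgap : ll F 0 < rr F 0) : Φ 2 0 ≤ 0 := by
  have hgap' : ∀ a ∈ ZA, ll F a < rr F a := by
    intro a ha
    obtain ⟨G, hG⟩ := hF.lift (Tr a ha) (Tr_mem a ha)
    have h1 := hF.G_rr hG zzero
    have h2 := hF.G_ll hG zzero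
    rw [Tr_apply, zero_add] at h1 h2
    rw [← h1, ← h2]
    exact hG.smono hgap
  refine limit_aux fun ε hε => ?_
  obtain ⟨C, hC, hu⟩ := hF.uniform hε
  refine ⟨C, fun l hl => ?_⟩
  obtain ⟨k, hk⟩ := odd_three l
  have hn : (0:ℝ) < 3 ^ l := by positivity
  let m : ℕ → ℝ := fun j => rr F (j / 3 ^ l) - ll F (j / 3 ^ l)
  have hm : ∀ j, 0 < m j := fun j => sub_pos.2 (hgap' _ (z_three _ _))
  have hmp : ∀ j, m (j + 3 ^ l) = m j := by
    intro j
    show rr F _ - ll F _ = rr F _ - ll F _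
    have : ((j + 3 ^ l : ℕ):ℝ) / 3 ^ l = j / 3 ^ l + 1 := by push_cast; field_simp
    rw [this, hF.rr_add_one (z_three _ _), hF.ll_add_one (z_three _ _)]; ring
  have hsum : ∑ j ∈ range (3 ^ l), m j ≤ 1 := by
    have h1 : ∀ j ∈ range (3 ^ l), m j ≤ ll F ((j + 1 : ℕ) / 3 ^ l) - ll F (j / 3 ^ l) := by
      intro j _
      have h2 : (j:ℝ) / 3 ^ l < ((j + 1 : ℕ):ℝ) / 3 ^ l := by push_cast; gcongr; linarith
      obtain ⟨b, hb, h3, h4⟩ := z_between h2
      have h5 := (hF.rr_lt (z_three _ _) hb h3).trans (hF.lt_ll (z_three _ _) hb h4)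
      show rr F _ - ll F _ ≤ _
      linarith
    refine (sum_le_sum h1).trans ?_
    rw [sum_range_sub (fun j : ℕ => ll F (j / 3 ^ l))]
    have h2 := hF.ll_add_one zzero
    have h3 : ((3 ^ l : ℕ):ℝ) / 3 ^ l = 0 + 1 := by push_cast; field_simp; ring
    rw [h3, h2]; simp
  have hpt : ∀ j ∈ range (3 ^ l), Φ 2 (j / 3 ^ l) ≤
      Real.log (m (2 * j)) - Real.log (m j) + ε + C * m j := by
    intro j hj
    have hj' : (j:ℝ) < 3 ^ l := by exact_mod_cast mem_range.1 hj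
    obtain ⟨g, G, hG, hg, ho⟩ := hu (j / 3 ^ l) (by positivity) (by rw [div_lt_one hn]; exact hj')
    have h1 := log_mvt hG (hgap' _ (z_three j l)) ho hC (hgap' _ (z_three j l)).le le_rfl
    have h0 : g ((j:ℝ) / 3 ^ l) = ((2 * j : ℕ):ℝ) / 3 ^ l := by
      rw [hg _ (by linarith) (by linarith)]; push_cast; ring
    rw [hF.G_rr hG (z_three _ _), hF.G_ll hG (z_three _ _), h0] at h1
    have h2 : Real.log (deriv G (rr F (j / 3 ^ l))) = Φ 2 (j / 3 ^ l) :=
      hΦ 2 ltwo _ (z_three _ _) g G (j / 3 ^ l + 1/24) hG (by linarith) fun x hx hx' =>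
        hg x (by linarith) hx'
    rw [h2, abs_le] at h1
    have h5 : C * (rr F (j / 3 ^ l) - ll F (j / 3 ^ l)) = C * m j := rfl
    have h6 : Real.log (rr F (j / 3 ^ l) - ll F (j / 3 ^ l)) = Real.log (m j) := rfl
    have h7 : Real.log (rr F ((2 * j : ℕ) / 3 ^ l) - ll F ((2 * j : ℕ) / 3 ^ l)) =
      Real.log (m (2 * j)) := rfl
    linarith [h1.1]
  have hS := sum_le_sum hpt
  have hlogp : ∀ j, Real.log (m (j + (2 * k + 1))) = Real.log (m j) := by
    intro j; rw [← hk, hmp]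
  have s1 := sum_two_mul (fun j => Real.log (m j)) k hlogp
  rw [← hk] at s1
  rw [hF.phi_sum hΦ l] at hS
  have s4 : ∑ j ∈ range (3 ^ l), (Real.log (m (2 * j)) - Real.log (m j) + ε + C * m j) =
      3 ^ l * ε + C * ∑ j ∈ range (3 ^ l), m j := by
    rw [sum_add_distrib, sum_add_distrib, sum_sub_distrib, s1, ← mul_sum, sum_const,
      card_range, nsmul_eq_mul]
    push_cast; ring
  rw [s4] at hS
  have := mul_le_mul_of_nonneg_left hsum hC
  linarith

/-- **No increasing equivariant map.** -/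
theorem false : False := by
  obtain ⟨Φ, hΦ⟩ := hF.exists_phi
  have h2 := hF.log_two_le hΦ
  have hlog : 0 < Real.log 2 := Real.log_pos (by norm_num)
  rcases ((hF.ll_le zzero).trans (hF.le_rr zzero)).lt_or_eq with hlt | heq
  · have := hF.gap_le hΦ hlt
    linarith
  · -- an element equal to the identity on the left of `0` and to the doubling on the right
    have h8 : (1/8:ℝ) ∈ ZA := zldiv zone ⟨3, 0, by norm_num⟩
    obtain ⟨k, hk1, hk2⟩ := exists_glue 1 (Dil 2 ltwo) 0 zzero (by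
      rw [Dil_apply]; simp)
    obtain ⟨g, hg, hgk⟩ := loc_ext k (a := -(1/8)) (b := 1/8) (zneg h8) h8 (by norm_num)
      (by norm_num) (by
        rw [hk2 _ (by norm_num), hk1 _ (by norm_num), Dil_apply, P_one]; norm_num)
    obtain ⟨G, hG⟩ := hF.lift g hg
    have e1 : deriv G (ll F 0) = 1 := by
      have := hF.germ_ll hG isL_one zzero (c := -(1/8)) (by norm_num) fun x h1 h2 => by
        rw [hgk x h1 (by linarith), hk1 x h2]
      rw [this]; simp
    have e2 : Real.log (deriv G (rr F 0)) = Φ 2 0 :=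
      hΦ 2 ltwo 0 zzero g G (1/8) hG (by norm_num) fun x h1 h2 => by
        rw [hgk x (by linarith) h2, hk2 x h1, Dil_apply]
    rw [← heq, e1, Real.log_one] at e2
    linarith

end Inc

end Pool.Agent.W328
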