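import Mathlib

/-!
# Piecewise linear order isomorphisms of the line with slopes in `⟨2,3⟩` and breaks in `ℤ[1/6]`
-/

set_option autoImplicit false

open Filter Topology Set

namespace Pool.Agent.W328

/-- The multiplicative group `⟨2,3⟩` of positive reals. -/
def Lam : Set ℝ := {s | ∃ a b : ℤ, s = (2:ℝ)^a * (3:ℝ)^b}

/-- The ring `ℤ[1/6]`, as a set of reals. -/
def ZA : Set ℝ := {x | ∃ (m : ℤ) (k : ℕ), x = m / 6^k}

theorem lpos {s : ℝ} (h : s ∈ Lam) : 0 < s := by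
  obtain ⟨a, b, rfl⟩ := h; positivity

theorem lone : (1:ℝ) ∈ Lam := ⟨0, 0, by simp⟩

theorem ltwo : (2:ℝ) ∈ Lam := ⟨1, 0, by simp⟩

theorem lthree : (3:ℝ) ∈ Lam := ⟨0, 1, by simp⟩

theorem lmul {s t : ℝ} (hs : s ∈ Lam) (ht : t ∈ Lam) : s * t ∈ Lam := by
  obtain ⟨a, b, rfl⟩ := hs
  obtain ⟨c, d, rfl⟩ := ht
  refine ⟨a + c, b + d, ?_⟩
  rw [zpow_add₀ (by norm_num), zpow_add₀ (by norm_num)]; ring

theorem linv {s : ℝ} (hs : s ∈ Lam) : s⁻¹ ∈ Lam := by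
  obtain ⟨a, b, rfl⟩ := hs
  refine ⟨-a, -b, ?_⟩
  rw [zpow_neg, zpow_neg, mul_inv]

theorem ldiv {s t : ℝ} (hs : s ∈ Lam) (ht : t ∈ Lam) : s / t ∈ Lam := by
  rw [div_eq_mul_inv]; exact lmul hs (linv ht)

theorem lpow {s : ℝ} (hs : s ∈ Lam) (n : ℕ) : s ^ n ∈ Lam := by
  induction n with
  | zero => simpa using lone
  | succ n ih => rw [pow_succ]; exact lmul ih hs

theorem zint (m : ℤ) : (m:ℝ) ∈ ZA := ⟨m, 0, by simp⟩

theorem znat (m : ℕ) : (m:ℝ) ∈ ZA := ⟨m, 0, by simp⟩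

theorem zzero : (0:ℝ) ∈ ZA := ⟨0, 0, by simp⟩

theorem zone : (1:ℝ) ∈ ZA := ⟨1, 0, by simp⟩

theorem zadd {x y : ℝ} (hx : x ∈ ZA) (hy : y ∈ ZA) : x + y ∈ ZA := by
  obtain ⟨m, k, rfl⟩ := hx
  obtain ⟨n, l, rfl⟩ := hy
  refine ⟨m * 6^l + n * 6^k, k + l, ?_⟩
  push_cast
  rw [pow_add]
  field_simp

theorem zneg {x : ℝ} (hx : x ∈ ZA) : -x ∈ ZA := by
  obtain ⟨m, k, rfl⟩ := hx
  exact ⟨-m, k, by push_cast; ring⟩

theorem zsub {x y : ℝ} (hx : x ∈ ZA) (hy : y ∈ ZA) : x - y ∈ ZA := by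
  rw [sub_eq_add_neg]; exact zadd hx (zneg hy)

theorem zmul {x y : ℝ} (hx : x ∈ ZA) (hy : y ∈ ZA) : x * y ∈ ZA := by
  obtain ⟨m, k, rfl⟩ := hx
  obtain ⟨n, l, rfl⟩ := hy
  refine ⟨m * n, k + l, ?_⟩
  push_cast
  rw [pow_add]
  field_simp

theorem z_of_l {s : ℝ} (hs : s ∈ Lam) : s ∈ ZA := by
  obtain ⟨a, b, rfl⟩ := hs
  have h2 : ∀ a : ℤ, (2:ℝ)^a ∈ ZA := by
    intro a
    obtain ⟨n, rfl | rfl⟩ := a.eq_nat_or_neg
    · exact ⟨2^n, 0, by push_cast; simp⟩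
    · refine ⟨3^n, n, ?_⟩
      rw [zpow_neg, zpow_natCast]
      push_cast
      have : (6:ℝ)^n = 2^n * 3^n := by rw [← mul_pow]; norm_num
      rw [this]; field_simp
  have h3 : ∀ a : ℤ, (3:ℝ)^a ∈ ZA := by
    intro a
    obtain ⟨n, rfl | rfl⟩ := a.eq_nat_or_neg
    · exact ⟨3^n, 0, by push_cast; simp⟩
    · refine ⟨2^n, n, ?_⟩
      rw [zpow_neg, zpow_natCast]
      push_cast
      have : (6:ℝ)^n = 2^n * 3^n := by rw [← mul_pow]; norm_num
      rw [this]; field_simp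
  exact zmul (h2 a) (h3 b)

theorem zlmul {s x : ℝ} (hs : s ∈ Lam) (hx : x ∈ ZA) : s * x ∈ ZA :=
  zmul (z_of_l hs) hx

theorem zldiv {s x : ℝ} (hx : x ∈ ZA) (hs : s ∈ Lam) : x / s ∈ ZA := by
  rw [div_eq_mul_inv]; exact zmul hx (z_of_l (linv hs))

theorem lsix : (6:ℝ) ∈ Lam := ⟨1, 1, by norm_num⟩

theorem lsix_pow (k : ℕ) : (6:ℝ)^k ∈ Lam := lpow lsix k

/-- `ℤ[1/6]` is dense. -/
theorem z_between {x y : ℝ} (h : x < y) : ∃ a ∈ ZA, x < a ∧ a < y := by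
  obtain ⟨k, hk⟩ := exists_pow_lt_of_lt_one (sub_pos.2 h) (by norm_num : (1/6:ℝ) < 1)
  have h6 : (0:ℝ) < 6^k := by positivity
  have hk' : 1 < (y - x) * 6^k := by
    rw [one_div, inv_pow] at hk
    rwa [inv_lt_iff_one_lt_mul₀ h6] at hk
  refine ⟨(⌊x * 6^k⌋ + 1 : ℤ) / 6^k, ⟨_, k, rfl⟩, ?_, ?_⟩
  · rw [lt_div_iff₀ h6]; push_cast; exact Int.lt_floor_add_one _
  · rw [div_lt_iff₀ h6]; push_cast
    have := Int.floor_le (x * 6^k)
    nlinarith

/-- Right-affine at `x`. -/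
def RA (F : ℝ → ℝ) (x : ℝ) : Prop := ∃ s ∈ Lam, ∃ c ∈ ZA, ∀ᶠ y in 𝓝[≥] x, F y = s * y + c

/-- Left-affine at `x`. -/
def LA (F : ℝ → ℝ) (x : ℝ) : Prop := ∃ s ∈ Lam, ∃ c ∈ ZA, ∀ᶠ y in 𝓝[≤] x, F y = s * y + c

/-- Affine at `x`. -/
def NA (F : ℝ → ℝ) (x : ℝ) : Prop := ∃ s ∈ Lam, ∃ c ∈ ZA, ∀ᶠ y in 𝓝 x, F y = s * y + c

/-- Locally piecewise linear with slopes in `Lam` and breaks in `ZA`. -/
def PL (F : ℝ → ℝ) : Prop := ∀ x, RA F x ∧ LA F x ∧ (x ∉ ZA → NA F x)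

theorem NA.ra {F : ℝ → ℝ} {x : ℝ} (h : NA F x) : RA F x := by
  obtain ⟨s, hs, c, hc, h⟩ := h
  exact ⟨s, hs, c, hc, h.filter_mono nhdsWithin_le_nhds⟩

theorem NA.la {F : ℝ → ℝ} {x : ℝ} (h : NA F x) : LA F x := by
  obtain ⟨s, hs, c, hc, h⟩ := h
  exact ⟨s, hs, c, hc, h.filter_mono nhdsWithin_le_nhds⟩

theorem RA.mem {F : ℝ → ℝ} {x : ℝ} (h : RA F x) : F x ∈ ZA ↔ x ∈ ZA := by
  obtain ⟨s, hs, c, hc, h⟩ := h
  have hx : F x = s * x + c := h.self_of_nhdsWithin (mem_Ici.2 le_rfl)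
  constructor
  · intro hF
    have hs0 := (lpos hs).ne'
    have : x = (F x - c) / s := by
      rw [hx]; field_simp; ring
    rw [this]
    exact zldiv (zsub hF hc) hs
  · intro h
    rw [hx]
    exact zadd (zlmul hs h) hc

theorem PL.mem {F : ℝ → ℝ} (h : PL F) {x : ℝ} : F x ∈ ZA ↔ x ∈ ZA := (h x).1.mem

theorem tendsto_ge {F : ℝ → ℝ} (hm : Monotone F) (hc : Continuous F) (x : ℝ) :
    Tendsto F (𝓝[≥] x) (𝓝[≥] (F x)) := by
  apply tendsto_nhdsWithin_of_tendsto_nhds_of_eventually_within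
  · exact hc.continuousAt.tendsto.mono_left nhdsWithin_le_nhds
  · filter_upwards [self_mem_nhdsWithin] with y hy using hm hy

theorem tendsto_le {F : ℝ → ℝ} (hm : Monotone F) (hc : Continuous F) (x : ℝ) :
    Tendsto F (𝓝[≤] x) (𝓝[≤] (F x)) := by
  apply tendsto_nhdsWithin_of_tendsto_nhds_of_eventually_within
  · exact hc.continuousAt.tendsto.mono_left nhdsWithin_le_nhds
  · filter_upwards [self_mem_nhdsWithin] with y hy using hm hy

theorem comp_aux {G F : ℝ → ℝ} {l l' : Filter ℝ} (ht : Tendsto F l l')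
    (hG : ∃ s ∈ Lam, ∃ c ∈ ZA, ∀ᶠ y in l', G y = s * y + c)
    (hF : ∃ s ∈ Lam, ∃ c ∈ ZA, ∀ᶠ y in l, F y = s * y + c) :
    ∃ s ∈ Lam, ∃ c ∈ ZA, ∀ᶠ y in l, G (F y) = s * y + c := by
  obtain ⟨s, hs, c, hc, hG⟩ := hG
  obtain ⟨t, ht', d, hd, hF⟩ := hF
  refine ⟨s * t, lmul hs ht', s * d + c, zadd (zlmul hs hd) hc, ?_⟩
  filter_upwards [ht.eventually hG, hF] with y h1 h2
  rw [h1, h2]; ring

theorem PL.comp {G F : ℝ → ℝ} (hG : PL G) (hF : PL F) (hm : Monotone F) (hc : Continuous F) :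
    PL (fun x => G (F x)) := by
  intro x
  refine ⟨comp_aux (tendsto_ge hm hc x) (hG (F x)).1 (hF x).1,
    comp_aux (tendsto_le hm hc x) (hG (F x)).2.1 (hF x).2.1, fun hx => ?_⟩
  have hFx : F x ∉ ZA := fun h => hx (hF.mem.1 h)
  exact comp_aux hc.continuousAt.tendsto ((hG (F x)).2.2 hFx) ((hF x).2.2 hx)

theorem inv_aux {F G : ℝ → ℝ} {l l' : Filter ℝ} (ht : Tendsto G l' l) (hGF : ∀ y, F (G y) = y)
    (hF : ∃ s ∈ Lam, ∃ c ∈ ZA, ∀ᶠ y in l, F y = s * y + c) :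
    ∃ s ∈ Lam, ∃ c ∈ ZA, ∀ᶠ y in l', G y = s * y + c := by
  obtain ⟨s, hs, c, hc, hF⟩ := hF
  have hs0 := (lpos hs).ne'
  refine ⟨s⁻¹, linv hs, -(s⁻¹ * c), zneg (zlmul (linv hs) hc), ?_⟩
  filter_upwards [ht.eventually hF] with y h
  rw [hGF] at h
  have h1 : s⁻¹ * y + -(s⁻¹ * c) = s⁻¹ * (s * G y + c) - s⁻¹ * c := by rw [← h]; ring
  rw [h1]
  field_simp
  ring

/-- The group of piecewise linear order isomorphisms of the line. -/
def PLg : Subgroup (ℝ ≃o ℝ) where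
  carrier := {F | PL F}
  one_mem' := by
    intro x
    have h : NA (1 : ℝ ≃o ℝ) x :=
      ⟨1, lone, 0, zzero, Eventually.of_forall fun y => by
        show y = 1 * y + 0
        ring⟩
    exact ⟨h.ra, h.la, fun _ => h⟩
  mul_mem' := by
    intro F G hF hG
    have hF' : PL F := hF
    have hG' : PL G := hG
    have := PL.comp hF' hG' G.monotone G.continuous
    exact this
  inv_mem' := by
    intro F hF x
    have hF' : PL F := hF
    have e : ∀ y, F (F⁻¹ y) = y := fun y => F.apply_symm_apply y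
    have hm : Monotone (F⁻¹ : ℝ ≃o ℝ) := (F⁻¹ : ℝ ≃o ℝ).monotone
    have hc : Continuous (F⁻¹ : ℝ ≃o ℝ) := (F⁻¹ : ℝ ≃o ℝ).continuous
    refine ⟨inv_aux (tendsto_ge hm hc x) e (hF' _).1, inv_aux (tendsto_le hm hc x) e (hF' _).2.1,
      fun hx => inv_aux hc.continuousAt.tendsto e ((hF' _).2.2 fun h => hx ?_)⟩
    have := (hF'.mem (x := F⁻¹ x)).2 h
    rwa [e] at this

theorem mem_PLg {F : ℝ ≃o ℝ} : F ∈ PLg ↔ PL F := Iff.rfl

theorem PLg_mem {F : ℝ ≃o ℝ} (h : F ∈ PLg) {x : ℝ} : F x ∈ ZA ↔ x ∈ ZA := PL.mem h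

theorem mul_apply' (F G : ℝ ≃o ℝ) (x : ℝ) : (F * G) x = F (G x) := rfl

theorem one_apply' (x : ℝ) : (1 : ℝ ≃o ℝ) x = x := rfl

theorem inv_apply_self' (F : ℝ ≃o ℝ) (x : ℝ) : F⁻¹ (F x) = x := F.symm_apply_apply x

theorem apply_inv_self' (F : ℝ ≃o ℝ) (x : ℝ) : F (F⁻¹ x) = x := F.apply_symm_apply x

theorem inv_apply_eq' {F : ℝ ≃o ℝ} {x y : ℝ} : F⁻¹ x = y ↔ x = F y := F.symm_apply_eq

/-- Elements with disjoint supports commute. -/
theorem disj_comm {F G : ℝ ≃o ℝ} (h : ∀ x, F x = x ∨ G x = x) : F * G = G * F := by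
  have hd : Equiv.Perm.Disjoint (F.toEquiv : Equiv.Perm ℝ) (G.toEquiv : Equiv.Perm ℝ) := h
  have hc := hd.commute
  ext x
  exact congrArg (fun e : Equiv.Perm ℝ => e x) hc.eq

/-- Affine map. -/
noncomputable def aff (s c : ℝ) (hs : 0 < s) : ℝ ≃o ℝ where
  toFun x := s * x + c
  invFun y := (y - c) / s
  left_inv x := by field_simp; ring
  right_inv y := by field_simp; ring
  map_rel_iff' := by
    intro x y
    simp only [Equiv.coe_fn_mk, add_le_add_iff_right]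
    exact mul_le_mul_iff_right₀ hs

theorem aff_apply (s c : ℝ) (hs : 0 < s) (x : ℝ) : aff s c hs x = s * x + c := rfl

theorem aff_mem {s c : ℝ} (hs : s ∈ Lam) (hc : c ∈ ZA) : aff s c (lpos hs) ∈ PLg := by
  intro x
  have h : NA (aff s c (lpos hs)) x := ⟨s, hs, c, hc, Eventually.of_forall fun y => rfl⟩
  exact ⟨h.ra, h.la, fun _ => h⟩

/-- Gluing of two order isomorphisms at a point where they agree. -/
noncomputable def glue (F G : ℝ ≃o ℝ) (a : ℝ) (h : F a = G a) : ℝ ≃o ℝ :=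
  StrictMono.orderIsoOfSurjective (fun x => if x ≤ a then F x else G x)
    (by
      intro x y hxy
      by_cases hx : x ≤ a <;> by_cases hy : y ≤ a <;> simp only [hx, hy, if_true, if_false]
      · exact F.strictMono hxy
      · calc F x ≤ F a := F.monotone hx
          _ = G a := h
          _ < G y := G.strictMono (not_le.1 hy)
      · exact absurd (hxy.le.trans hy) hx
      · exact G.strictMono hxy)
    (by
      intro y
      by_cases hy : y ≤ F a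
      · refine ⟨F.symm y, ?_⟩
        have : F.symm y ≤ a := by rw [F.symm_apply_le]; exact hy
        simp [this]
      · refine ⟨G.symm y, ?_⟩
        have : ¬ G.symm y ≤ a := by
          rw [G.symm_apply_le, ← h]; exact hy
        simp [this])

theorem glue_apply (F G : ℝ ≃o ℝ) (a : ℝ) (h : F a = G a) (x : ℝ) :
    glue F G a h x = if x ≤ a then F x else G x := rfl

theorem glue_le {F G : ℝ ≃o ℝ} {a : ℝ} {h : F a = G a} {x : ℝ} (hx : x ≤ a) :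
    glue F G a h x = F x := by rw [glue_apply, if_pos hx]

theorem glue_ge {F G : ℝ ≃o ℝ} {a : ℝ} {h : F a = G a} {x : ℝ} (hx : a ≤ x) :
    glue F G a h x = G x := by
  rw [glue_apply]
  split_ifs with h'
  · obtain rfl : x = a := le_antisymm h' hx
    exact h
  · rfl

theorem glue_mem {F G : ℝ ≃o ℝ} {a : ℝ} {h : F a = G a} (hF : F ∈ PLg) (hG : G ∈ PLg)
    (ha : a ∈ ZA) : glue F G a h ∈ PLg := by
  have hF' : PL F := hF
  have hG' : PL G := hG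
  intro x
  rcases lt_trichotomy x a with hx | rfl | hx
  · have he : ∀ᶠ y in 𝓝 x, glue F G a h y = F y := by
      filter_upwards [Iio_mem_nhds hx] with y hy using glue_le (le_of_lt hy)
    obtain ⟨⟨s, hs, c, hc, h1⟩, ⟨s', hs', c', hc', h2⟩, h3⟩ := hF' x
    refine ⟨⟨s, hs, c, hc, ?_⟩, ⟨s', hs', c', hc', ?_⟩, fun hx' => ?_⟩
    · filter_upwards [h1, he.filter_mono nhdsWithin_le_nhds] with y h1 h2 using h2.trans h1
    · filter_upwards [h2, he.filter_mono nhdsWithin_le_nhds] with y h1 h2 using h2.trans h1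
    · obtain ⟨s, hs, c, hc, h1⟩ := h3 hx'
      refine ⟨s, hs, c, hc, ?_⟩
      filter_upwards [h1, he] with y h1 h2 using h2.trans h1
  · obtain ⟨⟨s, hs, c, hc, h1⟩, -, -⟩ := hG' x
    obtain ⟨-, ⟨s', hs', c', hc', h2⟩, -⟩ := hF' x
    refine ⟨⟨s, hs, c, hc, ?_⟩, ⟨s', hs', c', hc', ?_⟩, fun hx' => absurd ha hx'⟩
    · filter_upwards [h1, self_mem_nhdsWithin] with y h1 h2 using (glue_ge h2).trans h1
    · filter_upwards [h2, self_mem_nhdsWithin] with y h1 h2 using (glue_le h2).trans h1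
  · have he : ∀ᶠ y in 𝓝 x, glue F G a h y = G y := by
      filter_upwards [Ioi_mem_nhds hx] with y hy using glue_ge (le_of_lt hy)
    obtain ⟨⟨s, hs, c, hc, h1⟩, ⟨s', hs', c', hc', h2⟩, h3⟩ := hG' x
    refine ⟨⟨s, hs, c, hc, ?_⟩, ⟨s', hs', c', hc', ?_⟩, fun hx' => ?_⟩
    · filter_upwards [h1, he.filter_mono nhdsWithin_le_nhds] with y h1 h2 using h2.trans h1
    · filter_upwards [h2, he.filter_mono nhdsWithin_le_nhds] with y h1 h2 using h2.trans h1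
    · obtain ⟨s, hs, c, hc, h1⟩ := h3 hx'
      refine ⟨s, hs, c, hc, ?_⟩
      filter_upwards [h1, he] with y h1 h2 using h2.trans h1

/-- Stretching `[0,1]` onto `[0,q+1]`. -/
theorem exists_stretch (q : ℕ) : ∃ F ∈ PLg, F 0 = 0 ∧ F 1 = q + 1 := by
  induction q with
  | zero => exact ⟨1, PLg.one_mem, rfl, by simp⟩
  | succ q ih =>
    obtain ⟨F, hF, h0, h1⟩ := ih
    let A := aff 2 0 (by norm_num)
    let B := aff 2 (-1) (by norm_num)
    let C := aff 1 1 (by norm_num)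
    have hA : A ∈ PLg := aff_mem ltwo zzero
    have hB : B ∈ PLg := aff_mem ltwo (zneg zone)
    have hC : C ∈ PLg := aff_mem lone zone
    have hhalf : (1/2:ℝ) ∈ ZA := zldiv zone ltwo
    have hag : A (1/2) = (C * F * B) (1/2) := by
      simp only [mul_apply', A, B, C, aff_apply]
      norm_num [h0]
    refine ⟨glue A (C * F * B) (1/2) hag, glue_mem hA (PLg.mul_mem (PLg.mul_mem hC hF) hB) hhalf,
      ?_, ?_⟩
    · rw [glue_le (by norm_num)]; simp [A, aff_apply]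
    · rw [glue_ge (by norm_num)]
      simp only [mul_apply', B, C, aff_apply]
      norm_num [h1]

/-- **Extension lemma.** -/
theorem exists_ext {u v u' v' : ℝ} (hu : u ∈ ZA) (hv : v ∈ ZA) (hu' : u' ∈ ZA) (hv' : v' ∈ ZA)
    (h : u < v) (h' : u' < v') : ∃ F ∈ PLg, F u = u' ∧ F v = v' := by
  obtain ⟨m, k, hm⟩ := zsub hv hu
  obtain ⟨m', k', hm'⟩ := zsub hv' hu'
  have hmpos : 0 < m := by
    have : (0:ℝ) < m / 6^k := by rw [← hm]; linarith
    have h2 := (div_pos_iff_of_pos_right (by positivity)).1 this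
    exact_mod_cast h2
  have hmpos' : 0 < m' := by
    have : (0:ℝ) < m' / 6^k' := by rw [← hm']; linarith
    have h2 := (div_pos_iff_of_pos_right (by positivity)).1 this
    exact_mod_cast h2
  obtain ⟨q, hq⟩ : ∃ q : ℕ, m = q + 1 := ⟨(m - 1).toNat, by omega⟩
  obtain ⟨q', hq'⟩ : ∃ q : ℕ, m' = q + 1 := ⟨(m' - 1).toNat, by omega⟩
  obtain ⟨S, hS, hS0, hS1⟩ := exists_stretch q
  obtain ⟨S', hS', hS0', hS1'⟩ := exists_stretch q'
  have h6 : (6:ℝ)^k ∈ Lam := lsix_pow k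
  have h6' : (6:ℝ)^k' ∈ Lam := lsix_pow k'
  let A := aff (6^k) (-(6^k * u)) (lpos h6)
  let B := aff (((6:ℝ)^k')⁻¹) u' (lpos (linv h6'))
  have hA : A ∈ PLg := aff_mem h6 (zneg (zlmul h6 hu))
  have hB : B ∈ PLg := aff_mem (linv h6') hu'
  refine ⟨B * S' * S⁻¹ * A, PLg.mul_mem (PLg.mul_mem (PLg.mul_mem hB hS') (PLg.inv_mem hS)) hA,
    ?_, ?_⟩
  · have e1 : A u = 0 := by simp [A, aff_apply]
    have e2 : S⁻¹ 0 = 0 := by rw [inv_apply_eq', hS0]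
    simp only [mul_apply', e1, e2, hS0']
    simp [B, aff_apply]
  · have e1 : A v = q + 1 := by
      simp only [A, aff_apply]
      have : v = u + m / 6^k := by linarith
      rw [this, hq]; push_cast
      field_simp
      ring
    have e2 : S⁻¹ ((q:ℝ) + 1) = 1 := by rw [inv_apply_eq', hS1]
    simp only [mul_apply', e1, e2, hS1']
    simp only [B, aff_apply]
    have : v' = u' + m' / 6^k' := by linarith
    rw [this, hq']; push_cast
    field_simp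
    ring

end Pool.Agent.W328
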