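import Pool.Agent.W328.PL

/-!
# The group of compactly supported piecewise linear maps is perfect
-/

set_option autoImplicit false

open Filter Topology Set

namespace Pool.Agent.W328

/-- The group `PLg`, as a type. -/
abbrev P := ↥PLg

theorem P_ext {f g : P} (h : ∀ x, (f : ℝ ≃o ℝ) x = (g : ℝ ≃o ℝ) x) : f = g :=
  Subtype.ext (DFunLike.ext _ _ h)

instance : CoeFun P (fun _ => ℝ → ℝ) := ⟨fun f => (f : ℝ ≃o ℝ)⟩

theorem P_mul (f g : P) (x : ℝ) : (f * g) x = f (g x) := rfl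

theorem P_one (x : ℝ) : (1 : P) x = x := rfl

theorem P_inv_self (f : P) (x : ℝ) : f⁻¹ (f x) = x := (f : ℝ ≃o ℝ).symm_apply_apply x

theorem P_self_inv (f : P) (x : ℝ) : f (f⁻¹ x) = x := (f : ℝ ≃o ℝ).apply_symm_apply x

theorem P_inv_eq {f : P} {x y : ℝ} : f⁻¹ x = y ↔ x = f y := (f : ℝ ≃o ℝ).symm_apply_eq

theorem P_strictMono (f : P) : StrictMono f := (f : ℝ ≃o ℝ).strictMono

theorem P_mono (f : P) : Monotone f := (f : ℝ ≃o ℝ).monotone

theorem P_mem (f : P) {x : ℝ} : f x ∈ ZA ↔ x ∈ ZA := PLg_mem f.2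

theorem P_comm {f g : P} (h : ∀ x, f x = x ∨ g x = x) : f * g = g * f :=
  Subtype.ext (disj_comm h)

/-- Translation by `a ∈ ZA`. -/
noncomputable def Tr (a : ℝ) (ha : a ∈ ZA) : P := ⟨aff 1 a (lpos lone), aff_mem lone ha⟩

theorem Tr_apply (a : ℝ) (ha : a ∈ ZA) (x : ℝ) : Tr a ha x = x + a := by
  show 1 * x + a = x + a
  ring

theorem Tr_inv_apply (a : ℝ) (ha : a ∈ ZA) (x : ℝ) : (Tr a ha)⁻¹ x = x - a := by
  rw [P_inv_eq, Tr_apply]; ring

/-- Translation by one. -/
noncomputable def T : P := Tr 1 zone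

theorem T_apply (x : ℝ) : T x = x + 1 := Tr_apply _ _ _

theorem T_pow (n : ℕ) : T ^ n = Tr n (znat n) := by
  induction n with
  | zero =>
    apply P_ext; intro x
    show x = _
    rw [Tr_apply]; simp
  | succ n ih =>
    rw [pow_succ, ih]
    apply P_ext; intro x
    rw [P_mul, T_apply, Tr_apply, Tr_apply]
    push_cast; ring

theorem conj_Tr (a : ℝ) (ha : a ∈ ZA) (f : P) (x : ℝ) :
    (Tr a ha * f * (Tr a ha)⁻¹) x = f (x - a) + a := by
  rw [P_mul, P_mul, Tr_inv_apply, Tr_apply]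

/-- Dilation. -/
noncomputable def Dil (s : ℝ) (hs : s ∈ Lam) : P := ⟨aff s 0 (lpos hs), aff_mem hs zzero⟩

theorem Dil_apply (s : ℝ) (hs : s ∈ Lam) (x : ℝ) : Dil s hs x = s * x := by
  show s * x + 0 = s * x
  ring

/-- Gluing inside `P`. -/
theorem exists_glue (f g : P) (a : ℝ) (ha : a ∈ ZA) (h : f a = g a) :
    ∃ k : P, (∀ x, x ≤ a → k x = f x) ∧ (∀ x, a ≤ x → k x = g x) :=
  ⟨⟨glue f g a h, glue_mem f.2 g.2 ha⟩, fun _ hx => glue_le (h := h) hx,
    fun _ hx => glue_ge (h := h) hx⟩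

theorem exists_ext' {u v u' v' : ℝ} (hu : u ∈ ZA) (hv : v ∈ ZA) (hu' : u' ∈ ZA) (hv' : v' ∈ ZA)
    (h : u < v) (h' : u' < v') : ∃ k : P, k u = u' ∧ k v = v' := by
  obtain ⟨F, hF, h1, h2⟩ := exists_ext hu hv hu' hv' h h'
  exact ⟨⟨F, hF⟩, h1, h2⟩

theorem J_aux1 (s a : ℝ) (hs : s ∈ Lam) :
    aff s 0 (lpos hs) a = aff 1 (s * a - a) one_pos a := by
  rw [aff_apply, aff_apply]; ring

theorem J_aux2 (s a : ℝ) (hs : s ∈ Lam) (h0 : 0 ≤ a) :
    (1 : ℝ ≃o ℝ) 0 = glue (aff s 0 (lpos hs)) (aff 1 (s * a - a) one_pos) a (J_aux1 s a hs) 0 := by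
  rw [glue_le h0, aff_apply, one_apply']; ring

/-- `x` for `x ≤ 0`, `s x` on `[0,a]`, slope one after `a`. -/
noncomputable def J (s a : ℝ) (hs : s ∈ Lam) (ha : a ∈ ZA) (h0 : 0 ≤ a) : P :=
  ⟨glue 1 (glue (aff s 0 (lpos hs)) (aff 1 (s * a - a) one_pos) a (J_aux1 s a hs)) 0
      (J_aux2 s a hs h0),
    glue_mem PLg.one_mem (glue_mem (aff_mem hs zzero) (aff_mem lone (zsub (zlmul hs ha) ha)) ha)
      zzero⟩

section J

variable {s a : ℝ} {hs : s ∈ Lam} {ha : a ∈ ZA} {h0 : 0 ≤ a}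

theorem J_le {x : ℝ} (hx : x ≤ 0) : J s a hs ha h0 x = x :=
  glue_le (h := J_aux2 s a hs h0) hx

theorem J_mid {x : ℝ} (hx : 0 ≤ x) (hx' : x ≤ a) : J s a hs ha h0 x = s * x :=
  (glue_ge (h := J_aux2 s a hs h0) hx).trans
    ((glue_le (h := J_aux1 s a hs) hx').trans (by rw [aff_apply]; ring))

theorem J_ge {x : ℝ} (hx : a ≤ x) : J s a hs ha h0 x = x + (s * a - a) :=
  (glue_ge (h := J_aux2 s a hs h0) (h0.trans hx)).trans
    ((glue_ge (h := J_aux1 s a hs) hx).trans (by rw [aff_apply]; ring))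

theorem J_apply (x : ℝ) : J s a hs ha h0 x =
    if x ≤ 0 then x else if x ≤ a then s * x else x + (s * a - a) := by
  split_ifs with h1 h2
  · exact J_le h1
  · exact J_mid (le_of_not_ge h1) h2
  · exact J_ge (le_of_not_ge h2)

end J

/-- Compactly supported elements. -/
def K : Subgroup P where
  carrier := {f | ∃ u v : ℝ, (∀ x, x ≤ u → f x = x) ∧ (∀ x, v ≤ x → f x = x)}
  one_mem' := ⟨0, 0, fun _ _ => rfl, fun _ _ => rfl⟩
  mul_mem' := by
    rintro f g ⟨u, v, h1, h2⟩ ⟨u', v', h1', h2'⟩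
    refine ⟨min u u', max v v', fun x hx => ?_, fun x hx => ?_⟩
    · rw [P_mul, h1' x (hx.trans (min_le_right _ _)), h1 x (hx.trans (min_le_left _ _))]
    · rw [P_mul, h2' x ((le_max_right _ _).trans hx), h2 x ((le_max_left _ _).trans hx)]
  inv_mem' := by
    rintro f ⟨u, v, h1, h2⟩
    exact ⟨u, v, fun x hx => P_inv_eq.2 (h1 x hx).symm, fun x hx => P_inv_eq.2 (h2 x hx).symm⟩

theorem mem_K {f : P} :
    f ∈ K ↔ ∃ u v : ℝ, (∀ x, x ≤ u → f x = x) ∧ (∀ x, v ≤ x → f x = x) := Iff.rfl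

theorem K_conj {f : P} (k : P) {u v : ℝ} (h1 : ∀ x, x ≤ u → f x = x) (h2 : ∀ x, v ≤ x → f x = x) :
    (∀ x, x ≤ k u → (k * f * k⁻¹) x = x) ∧ (∀ x, k v ≤ x → (k * f * k⁻¹) x = x) := by
  constructor
  · intro x hx
    have : k⁻¹ x ≤ u := by
      have := P_mono k⁻¹ hx
      rwa [P_inv_self] at this
    rw [P_mul, P_mul, h1 _ this, P_self_inv]
  · intro x hx
    have : v ≤ k⁻¹ x := by
      have := P_mono k⁻¹ hx
      rwa [P_inv_self] at this
    rw [P_mul, P_mul, h2 _ this, P_self_inv]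

instance K_normal : K.Normal where
  conj_mem := by
    rintro f ⟨u, v, h1, h2⟩ k
    exact ⟨k u, k v, K_conj k h1 h2⟩

/-- Local approximation of an element of `P` by an element supported in `[L,R]`. -/
theorem exists_local' (k : P) {L u v R : ℝ} (hL : L ∈ ZA) (hu : u ∈ ZA) (hv : v ∈ ZA)
    (hR : R ∈ ZA) (hLu : L < u) (huv : u ≤ v) (hvR : v < R) (h1 : L < k u) (h2 : k v < R) :
    ∃ k' : P, (∀ x, u ≤ x → x ≤ v → k' x = k x) ∧ (∀ x, x ≤ L → k' x = x) ∧
      (∀ x, R ≤ x → k' x = x) := by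
  obtain ⟨e1, h11, h12⟩ := exists_ext' hL hu hL ((P_mem k).2 hu) hLu h1
  obtain ⟨e2, h21, h22⟩ := exists_ext' hv hR ((P_mem k).2 hv) hR hvR h2
  obtain ⟨a, ha1, ha2⟩ := exists_glue e2 1 R hR h22
  obtain ⟨b, hb1, hb2⟩ := exists_glue k a v hv (by rw [ha1 v hvR.le, h21])
  obtain ⟨c, hc1, hc2⟩ := exists_glue e1 b u hu (by rw [hb1 u huv, h12])
  obtain ⟨d, hd1, hd2⟩ := exists_glue 1 c L hL (by rw [hc1 L hLu.le, h11]; rfl)
  refine ⟨d, fun x hx hx' => ?_, fun x hx => ?_, fun x hx => ?_⟩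
  · rw [hd2 x (hLu.le.trans hx), hc2 x hx, hb1 x hx']
  · rw [hd1 x hx]; rfl
  · rw [hd2 x (by linarith), hc2 x (by linarith), hb2 x (by linarith), ha2 x hx]; rfl

theorem exists_local (k : P) (u v : ℝ) :
    ∃ k' ∈ K, ∀ x, u ≤ x → x ≤ v → k' x = k x := by
  obtain ⟨m, hm⟩ := exists_int_lt (min u v)
  obtain ⟨n, hn⟩ := exists_int_gt (max u v)
  obtain ⟨m', hm'⟩ := exists_int_lt (min (m:ℝ) (k m))
  obtain ⟨n', hn'⟩ := exists_int_gt (max (n:ℝ) (k n))
  have hm1 : (m:ℝ) < u := hm.trans_le (min_le_left _ _)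
  have hn1 : v < n := (le_max_right _ _).trans_lt hn
  have hmn : (m:ℝ) ≤ n := by
    have h1 : (m:ℝ) < v := hm.trans_le (min_le_right _ _)
    linarith
  obtain ⟨k', h1, h2, h3⟩ := exists_local' k (zint m') (zint m) (zint n) (zint n')
    (hm'.trans_le (min_le_left _ _)) hmn ((le_max_left _ _).trans_lt hn')
    (hm'.trans_le (min_le_right _ _)) ((le_max_right _ _).trans_lt hn')
  exact ⟨k', ⟨m', n', h2, h3⟩, fun x hx hx' => h1 x (by linarith) (by linarith)⟩

/-- If `k` and `k'` agree on the support of `f`, they conjugate `f` in the same way. -/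
theorem conj_eq {f k k' : P} {u v : ℝ} (h1 : ∀ x, x ≤ u → f x = x) (h2 : ∀ x, v ≤ x → f x = x)
    (hk : ∀ x, u ≤ x → x ≤ v → k' x = k x) : k' * f * k'⁻¹ = k * f * k⁻¹ := by
  have hm : (k⁻¹ * k') * f = f * (k⁻¹ * k') := by
    apply P_comm
    intro x
    by_cases hx : x ≤ u
    · exact Or.inr (h1 x hx)
    by_cases hx' : v ≤ x
    · exact Or.inr (h2 x hx')
    left
    rw [P_mul, hk x (le_of_not_ge hx) (le_of_not_ge hx'), P_inv_self]
  calc k' * f * k'⁻¹ = k * ((k⁻¹ * k') * f) * k'⁻¹ := by group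
    _ = k * (f * (k⁻¹ * k')) * k'⁻¹ := by rw [hm]
    _ = k * f * k⁻¹ := by group

theorem central_mem {f : P} (hf : f ∈ K) (k : P) : k * f * k⁻¹ * f⁻¹ ∈ ⁅K, K⁆ := by
  obtain ⟨u, v, h1, h2⟩ := hf
  obtain ⟨k', hk', h⟩ := exists_local k u v
  rw [← conj_eq h1 h2 h]
  exact Subgroup.commutator_mem_commutator hk' ⟨u, v, h1, h2⟩

/-- The quotient by the commutator subgroup of `K`. -/
abbrev Q := P ⧸ (⁅K, K⁆ : Subgroup P)

/-- The projection. -/
def π : P →* Q := QuotientGroup.mk' _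

theorem π_eq_one {f : P} : π f = 1 ↔ f ∈ (⁅K, K⁆ : Subgroup P) := QuotientGroup.eq_one_iff f

theorem π_conj {f : P} (hf : f ∈ K) (k : P) : π (k * f * k⁻¹) = π f := by
  have h := π_eq_one.2 (central_mem hf k)
  rw [map_mul, map_inv, mul_inv_eq_one] at h
  exact h

theorem π_comm {f : P} (hf : f ∈ K) (k : P) : π k * π f = π f * π k := by
  have h := π_conj hf k
  rw [map_mul, map_mul, map_inv, mul_inv_eq_iff_eq_mul] at h
  exact h

/-- `b`-adic natural numbers of the form `2^i 3^j`. -/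
def Smooth (b : ℕ) : Prop := (b:ℝ) ∈ Lam

theorem Smooth.pos {b : ℕ} (h : Smooth b) : 0 < b := by
  have := lpos h
  exact_mod_cast this

/-- Divide `b` unit intervals by `b`. -/
noncomputable def U (b : ℕ) (hb : Smooth b) : P :=
  J ((b:ℝ)⁻¹) b (linv hb) (znat b) (Nat.cast_nonneg b)

section U

variable {b : ℕ} {hb : Smooth b}

theorem U_le {x : ℝ} (hx : x ≤ 0) : U b hb x = x := J_le hx

theorem U_mid {x : ℝ} (hx : 0 ≤ x) (hx' : x ≤ b) : U b hb x = x / b := by
  rw [U, J_mid hx hx']; ring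

theorem U_ge {x : ℝ} (hx : b ≤ x) : U b hb x = x - (b - 1) := by
  have : (b:ℝ) ≠ 0 := (lpos hb).ne'
  rw [U, J_ge hx]; field_simp; ring

end U

theorem smooth_one : Smooth 1 := by
  show ((1:ℕ):ℝ) ∈ Lam
  simpa using lone

theorem smooth_two : Smooth 2 := by
  show ((2:ℕ):ℝ) ∈ Lam
  simpa using ltwo

theorem smooth_three : Smooth 3 := by
  show ((3:ℕ):ℝ) ∈ Lam
  simpa using lthree

theorem Smooth.mul {a b : ℕ} (ha : Smooth a) (hb : Smooth b) : Smooth (a * b) := by
  show ((a * b : ℕ):ℝ) ∈ Lam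
  push_cast
  exact lmul ha hb

theorem U_one : U 1 smooth_one = 1 := by
  apply P_ext; intro x
  show _ = x
  rcases le_total x 0 with h | h
  · exact U_le h
  rcases le_total x 1 with h' | h'
  · rw [U_mid h (by simpa using h')]; simp
  · rw [U_ge (by simpa using h')]; simp

/-- `h₁ h₀ = h₀ h₂`. -/
theorem rel_h : T * U 2 smooth_two * T⁻¹ * U 2 smooth_two =
    U 2 smooth_two * (T ^ 2 * U 2 smooth_two * (T ^ 2)⁻¹) := by
  apply P_ext; intro x
  rw [T_pow, P_mul, P_mul (U 2 smooth_two), conj_Tr, T, conj_Tr]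
  push_cast
  rcases le_total x 0 with h | h
  · rw [U_le h, U_le (by linarith), U_le (x := x - 2) (by linarith), U_le (by linarith)]
    ring
  rcases le_total x 2 with h' | h'
  · rw [U_mid h (by simpa using h'), U_le (x := x - 2) (by linarith)]
    push_cast
    rw [U_le (by linarith), U_mid (by linarith) (by push_cast; linarith)]
    push_cast; ring
  rcases le_total x 4 with h'' | h''
  · rw [U_ge (x := x) (by simpa using h'), U_mid (x := x - 2) (by linarith) (by push_cast; linarith)]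
    push_cast
    rw [U_mid (by linarith) (by push_cast; linarith), U_ge (by push_cast; linarith)]
    push_cast; ring
  · rw [U_ge (x := x) (by simpa using h'), U_ge (x := x - 2) (by push_cast; linarith)]
    push_cast
    rw [U_ge (by push_cast; linarith), U_ge (by push_cast; linarith)]
    push_cast; ring

theorem rel_two {c : ℕ} (hc : Smooth c) : U (2 * c) (smooth_two.mul hc) =
    U 2 smooth_two * U c hc * (T ^ c * U c hc * (T ^ c)⁻¹) := by
  apply P_ext; intro x
  have hc0 : (0:ℝ) < c := lpos hc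
  rw [T_pow, P_mul, P_mul, conj_Tr]
  rcases le_total x 0 with h | h
  · rw [U_le h, U_le (x := x - c) (by linarith), sub_add_cancel, U_le h, U_le h]
  rcases le_total x c with h' | h'
  · rw [U_le (x := x - c) (by linarith), sub_add_cancel, U_mid (b := c) h h',
      U_mid (b := 2) (by positivity) (by push_cast; rw [div_le_iff₀ hc0]; linarith),
      U_mid h (by push_cast; linarith)]
    push_cast; field_simp
  rcases le_total x (2 * c) with h'' | h''
  · have e : (c:ℝ) ≤ (x - c) / c + c := by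
      have : 0 ≤ (x - c) / c := div_nonneg (by linarith) hc0.le
      linarith
    have e2 : (x - c) / c ≤ 1 := by rw [div_le_iff₀ hc0]; linarith
    have e3 : 0 ≤ (x - c) / c := div_nonneg (by linarith) hc0.le
    rw [U_mid (b := c) (x := x - c) (by linarith) (by linarith), U_ge (b := c) e,
      U_mid (b := 2) (by linarith) (by push_cast; linarith), U_mid h (by push_cast; linarith)]
    push_cast; field_simp; ring
  · rw [U_ge (b := c) (x := x - c) (by linarith), U_ge (b := c) (by linarith),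
      U_ge (b := 2) (by push_cast; linarith), U_ge (by push_cast; linarith)]
    push_cast; ring

theorem rel_three {c : ℕ} (hc : Smooth c) : U (3 * c) (smooth_three.mul hc) =
    U 3 smooth_three * U c hc * (T ^ c * U c hc * (T ^ c)⁻¹) *
      (T ^ (2 * c) * U c hc * (T ^ (2 * c))⁻¹) := by
  apply P_ext; intro x
  have hc0 : (0:ℝ) < c := lpos hc
  rw [T_pow, T_pow, P_mul, P_mul, P_mul, conj_Tr, conj_Tr]
  push_cast
  rcases le_total x 0 with h | h
  · rw [U_le h, U_le (x := x - 2 * c) (by linarith), sub_add_cancel,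
      U_le (x := x - c) (by linarith), sub_add_cancel, U_le h, U_le h]
  rcases le_total x c with h' | h'
  · rw [U_le (x := x - 2 * c) (by linarith), sub_add_cancel,
      U_le (x := x - c) (by linarith), sub_add_cancel, U_mid (b := c) h h',
      U_mid (b := 3) (by positivity) (by push_cast; rw [div_le_iff₀ hc0]; linarith),
      U_mid h (by push_cast; linarith)]
    push_cast; field_simp
  rcases le_total x (2 * c) with h'' | h''
  · have e : (c:ℝ) ≤ (x - c) / c + c := by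
      have : 0 ≤ (x - c) / c := div_nonneg (by linarith) hc0.le
      linarith
    have e2 : (x - c) / c ≤ 1 := by rw [div_le_iff₀ hc0]; linarith
    have e3 : 0 ≤ (x - c) / c := div_nonneg (by linarith) hc0.le
    rw [U_le (x := x - 2 * c) (by linarith), sub_add_cancel,
      U_mid (b := c) (x := x - c) (by linarith) (by linarith), U_ge (b := c) e,
      U_mid (b := 3) (by linarith) (by push_cast; linarith), U_mid h (by push_cast; linarith)]
    push_cast; field_simp; ring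
  rcases le_total x (3 * c) with h3 | h3
  · have e2 : (x - 2 * c) / c ≤ 1 := by rw [div_le_iff₀ hc0]; linarith
    have e3 : 0 ≤ (x - 2 * c) / c := div_nonneg (by linarith) hc0.le
    rw [U_mid (b := c) (x := x - 2 * c) (by linarith) (by linarith),
      U_ge (b := c) (x := (x - 2 * c) / c + 2 * c - c) (by linarith), U_ge (b := c) (by linarith),
      U_mid (b := 3) (by linarith) (by push_cast; linarith), U_mid h (by push_cast; linarith)]
    push_cast; field_simp; ring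
  · rw [U_ge (b := c) (x := x - 2 * c) (by linarith),
      U_ge (b := c) (x := x - 2 * c - (c - 1) + 2 * c - c) (by linarith),
      U_ge (b := c) (x := x - 2 * c - (c - 1) + 2 * c - c - (c - 1) + c) (by linarith),
      U_ge (b := 3) (by push_cast; linarith), U_ge (by push_cast; linarith)]
    push_cast; ring

/-- The class of `h`. -/
noncomputable def h0 : Q := π (U 2 smooth_two)

/-- The class of the translation. -/
noncomputable def t0 : Q := π T

theorem e_mem : T * U 2 smooth_two * T⁻¹ * (U 2 smooth_two)⁻¹ ∈ K := by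
  refine ⟨0, 2, fun x hx => ?_, fun x hx => ?_⟩
  · have : (U 2 smooth_two)⁻¹ x = x := P_inv_eq.2 (U_le hx).symm
    rw [P_mul, this, T, conj_Tr, U_le (by linarith)]; ring
  · have : (U 2 smooth_two)⁻¹ x = x + 1 := by
      rw [P_inv_eq, U_ge (by push_cast; linarith)]; push_cast; ring
    rw [P_mul, this, T, conj_Tr, U_ge (by push_cast; linarith)]; push_cast; ring

theorem t_h : t0 * h0 = h0 * t0 := by
  set e : P := T * U 2 smooth_two * T⁻¹ * (U 2 smooth_two)⁻¹ with he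
  have hK : e ∈ K := e_mem
  have h1 : e = U 2 smooth_two * ((T * e * T⁻¹) * e) * (U 2 smooth_two)⁻¹ := by
    have h2 : (T * e * T⁻¹) * e = T ^ 2 * U 2 smooth_two * (T ^ 2)⁻¹ * (U 2 smooth_two)⁻¹ := by
      rw [he, pow_two]; group
    rw [h2, ← mul_assoc, ← rel_h]; rw [he]; group
  have hK2 : T * e * T⁻¹ ∈ K := K_normal.conj_mem _ hK _
  have h3 : π e = π e * π e := by
    conv_lhs => rw [h1]
    rw [π_conj (K.mul_mem hK2 hK), map_mul, π_conj hK]
  have h4 : π e = 1 := by simpa using h3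
  rw [he, map_mul, map_mul, map_mul, map_inv, map_inv, mul_inv_eq_one, mul_inv_eq_iff_eq_mul] at h4
  exact h4

theorem tpow_h (n : ℕ) : t0 ^ n * h0 = h0 * t0 ^ n := by
  have : Commute t0 h0 := t_h
  exact (this.pow_left n).eq

/-- The class `θ`. -/
noncomputable def θ0 : Q := π (U 3 smooth_three * (U 2 smooth_two)⁻¹ * (U 2 smooth_two)⁻¹)

theorem θ_mem : U 3 smooth_three * (U 2 smooth_two)⁻¹ * (U 2 smooth_two)⁻¹ ∈ K := by
  refine ⟨0, 1, fun x hx => ?_, fun x hx => ?_⟩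
  · have : (U 2 smooth_two)⁻¹ x = x := P_inv_eq.2 (U_le hx).symm
    rw [P_mul, P_mul, this, this, U_le hx]
  · have h1 : (U 2 smooth_two)⁻¹ x = x + 1 := by
      rw [P_inv_eq, U_ge (by push_cast; linarith)]; push_cast; ring
    have h2 : (U 2 smooth_two)⁻¹ (x + 1) = x + 2 := by
      rw [P_inv_eq, U_ge (by push_cast; linarith)]; push_cast; ring
    rw [P_mul, P_mul, h1, h2, U_ge (by push_cast; linarith)]; push_cast; ring

theorem θ_comm (k : P) : Commute (π k) θ0 := π_comm θ_mem k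

theorem π_three : π (U 3 smooth_three) = θ0 * h0 ^ 2 := by
  rw [θ0, h0, map_mul, map_mul, map_inv]; group

theorem θ_one : θ0 = 1 := by
  have h1 := congrArg π (rel_two smooth_three)
  have h2 := congrArg π (rel_three smooth_two)
  have h12 : U (2 * 3) (smooth_two.mul smooth_three) = U (3 * 2) (smooth_three.mul smooth_two) :=
    rfl
  rw [h12, h2] at h1
  simp only [map_mul, map_inv, map_pow] at h1
  rw [π_three] at h1
  change (θ0 * h0 ^ 2 * h0 * (t0 ^ 2 * h0 * (t0 ^ 2)⁻¹) * (t0 ^ (2 * 2) * h0 * (t0 ^ (2 * 2))⁻¹)) =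
    h0 * (θ0 * h0 ^ 2) * (t0 ^ 3 * (θ0 * h0 ^ 2) * (t0 ^ 3)⁻¹) at h1
  have ct : Commute t0 θ0 := θ_comm T
  have ch : Commute h0 θ0 := θ_comm (U 2 smooth_two)
  have cth : Commute t0 h0 := t_h
  have e1 : t0 ^ 2 * h0 * (t0 ^ 2)⁻¹ = h0 := by
    rw [(cth.pow_left 2).eq]; group
  have e2 : t0 ^ (2 * 2) * h0 * (t0 ^ (2 * 2))⁻¹ = h0 := by
    rw [(cth.pow_left (2 * 2)).eq]; group
  have e3 : t0 ^ 3 * (θ0 * h0 ^ 2) * (t0 ^ 3)⁻¹ = θ0 * h0 ^ 2 := by
    have : Commute (t0 ^ 3) (θ0 * h0 ^ 2) := by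
      apply Commute.mul_right
      · exact ct.pow_left 3
      · exact (cth.pow_left 3).pow_right 2
    rw [this.eq]; group
  rw [e1, e2, e3] at h1
  have c1 : h0 * θ0 = θ0 * h0 := ch.eq
  have c2 : ∀ x : Q, h0 * (θ0 * x) = θ0 * (h0 * x) := fun x => by
    rw [← mul_assoc, c1, mul_assoc]
  simp only [pow_two, mul_assoc, c2] at h1
  have h2 := mul_left_cancel h1
  have h3 : (1:Q) * (h0 * (h0 * (h0 * (h0 * h0)))) = θ0 * (h0 * (h0 * (h0 * (h0 * h0)))) := by
    rw [one_mul]; exact h2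
  exact (mul_right_cancel h3).symm

theorem π_U_aux {c : ℕ} (hc : Smooth c) (h : π (U c hc) = h0 ^ (c - 1)) (n : ℕ) :
    π (T ^ n * U c hc * (T ^ n)⁻¹) = h0 ^ (c - 1) := by
  rw [map_mul, map_mul, map_inv, map_pow, h]
  have cth : Commute t0 h0 := t_h
  have := (cth.pow_left n).pow_right (c - 1)
  change t0 ^ n * h0 ^ (c - 1) * (t0 ^ n)⁻¹ = _
  rw [this.eq]; group

theorem π_U_two {c : ℕ} (hc : Smooth c) (h : π (U c hc) = h0 ^ (c - 1)) :
    π (U (2 * c) (smooth_two.mul hc)) = h0 ^ (2 * c - 1) := by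
  rw [rel_two hc, map_mul, map_mul, π_U_aux hc h c, h]
  change h0 * h0 ^ (c - 1) * h0 ^ (c - 1) = _
  rw [← pow_succ', ← pow_add]
  congr 1
  have := hc.pos
  omega

theorem π_U_three {c : ℕ} (hc : Smooth c) (h : π (U c hc) = h0 ^ (c - 1)) :
    π (U (3 * c) (smooth_three.mul hc)) = h0 ^ (3 * c - 1) := by
  rw [rel_three hc, map_mul, map_mul, map_mul, π_U_aux hc h c, π_U_aux hc h (2 * c), h, π_three,
    θ_one, one_mul, ← pow_add, ← pow_add, ← pow_add]
  congr 1
  have := hc.pos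
  omega

/-- A smooth number is `2^i 3^j`. -/
theorem Smooth.exists {b : ℕ} (hb : Smooth b) : ∃ i j : ℕ, b = 2^i * 3^j := by
  obtain ⟨a, c, h⟩ := hb
  have h2 : (b:ℝ) * 2^((-a).toNat) * 3^((-c).toNat) = 2^(a.toNat) * 3^(c.toNat) := by
    have e2 : ∀ n : ℤ, (2:ℝ)^n = 2^(n.toNat) / 2^((-n).toNat) := by
      intro n
      rw [← zpow_natCast, ← zpow_natCast, ← zpow_sub₀ (by norm_num)]
      congr 1; omega
    have e3 : ∀ n : ℤ, (3:ℝ)^n = 3^(n.toNat) / 3^((-n).toNat) := by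
      intro n
      rw [← zpow_natCast, ← zpow_natCast, ← zpow_sub₀ (by norm_num)]
      congr 1; omega
    rw [h, e2, e3]; field_simp
  have h3 : b * 2^((-a).toNat) * 3^((-c).toNat) = 2^(a.toNat) * 3^(c.toNat) := by
    exact_mod_cast h2
  have hdvd : b ∣ 2^(a.toNat) * 3^(c.toNat) := ⟨2^((-a).toNat) * 3^((-c).toNat), by
    rw [← h3]; ring⟩
  obtain ⟨x, y, hx, hy, rfl⟩ := (Nat.dvd_mul).1 hdvd
  obtain ⟨i, -, rfl⟩ := (Nat.dvd_prime_pow Nat.prime_two).1 hx
  obtain ⟨j, -, rfl⟩ := (Nat.dvd_prime_pow Nat.prime_three).1 hy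
  exact ⟨i, j, rfl⟩

theorem π_U {b : ℕ} (hb : Smooth b) : π (U b hb) = h0 ^ (b - 1) := by
  obtain ⟨i, j, rfl⟩ := hb.exists
  have key : ∀ j : ℕ, ∀ h : Smooth (3^j), π (U (3^j) h) = h0 ^ (3^j - 1) := by
    intro j
    induction j with
    | zero => intro h; rw [show (U (3^0) h) = U 1 smooth_one from rfl, U_one]; simp
    | succ j ih =>
      intro h
      have hj : Smooth (3^j) := by
        show ((3^j : ℕ):ℝ) ∈ Lam
        push_cast; exact lpow lthree j
      have e : 3^(j+1) = 3 * 3^j := by ring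
      have := π_U_three hj (ih hj)
      simp only [e]
      exact this
  induction i with
  | zero =>
    simp only [pow_zero, one_mul]
    exact key j _
  | succ i ih =>
    have hj : Smooth (2^i * 3^j) := by
      show ((2^i * 3^j : ℕ):ℝ) ∈ Lam
      push_cast; exact lmul (lpow ltwo i) (lpow lthree j)
    have e : 2^(i+1) * 3^j = 2 * (2^i * 3^j) := by ring
    have := π_U_two hj (ih hj)
    simp only [e]
    exact this

end Pool.Agent.W328
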