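import Pool.Agent.W328.Perfect

/-!
# Perfectness, second part
-/

set_option autoImplicit false

open Filter Topology Set

namespace Pool.Agent.W328

/-- Slope `b / D` on `[0,1]`. -/
noncomputable def W (D b : ℕ) (hD : Smooth D) (hb : Smooth b) : P :=
  J ((b:ℝ) / D) 1 (ldiv hb hD) zone zero_le_one

/-- Slope `1 / D` on `[0,m]`. -/
noncomputable def V (D : ℕ) (hD : Smooth D) (m : ℕ) : P :=
  J ((D:ℝ)⁻¹) m (linv hD) (znat m) (Nat.cast_nonneg m)

section

variable {D b : ℕ} {hD : Smooth D} {hb : Smooth b}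

theorem W_le {x : ℝ} (hx : x ≤ 0) : W D b hD hb x = x := J_le hx

theorem W_mid {x : ℝ} (hx : 0 ≤ x) (hx' : x ≤ 1) : W D b hD hb x = b / D * x := J_mid hx hx'

theorem W_ge {x : ℝ} (hx : 1 ≤ x) : W D b hD hb x = x + (b / D - 1) := by
  rw [W, J_ge hx]; ring

theorem V_le {m : ℕ} {x : ℝ} (hx : x ≤ 0) : V D hD m x = x := J_le hx

theorem V_mid {m : ℕ} {x : ℝ} (hx : 0 ≤ x) (hx' : x ≤ m) : V D hD m x = x / D := by
  rw [V, J_mid hx hx']; ring

theorem V_ge {m : ℕ} {x : ℝ} (hx : m ≤ x) : V D hD m x = x + (m / D - m) := by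
  rw [V, J_ge hx]; ring

theorem V_zero : V D hD 0 = 1 := by
  apply P_ext; intro x
  rw [P_one]
  rcases le_total x 0 with h | h
  · exact V_le h
  · rw [V_ge (by simpa using h)]; simp

theorem V_eq : V D hD b = W D b hD hb * U b hb := by
  have hb0 : (0:ℝ) < b := lpos hb
  have hD0 : (0:ℝ) < D := lpos hD
  apply P_ext; intro x
  rw [P_mul]
  rcases le_total x 0 with h | h
  · rw [V_le h, U_le h, W_le h]
  rcases le_total x b with h' | h'
  · rw [V_mid h h', U_mid h h', W_mid (by positivity) (by rw [div_le_one hb0]; exact h')]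
    field_simp
  · rw [V_ge h', U_ge h', W_ge (by linarith)]
    ring

theorem V_add (m c : ℕ) : V D hD (m + c) = V D hD m * (T ^ m * V D hD c * (T ^ m)⁻¹) := by
  have hD0 : (0:ℝ) < D := lpos hD
  have hm0 : (0:ℝ) ≤ m := Nat.cast_nonneg m
  apply P_ext; intro x
  rw [P_mul, T_pow, conj_Tr]
  rcases le_total x 0 with h | h
  · rw [V_le h, V_le (x := x - m) (by linarith), V_le (by linarith)]; ring
  rcases le_total x m with h' | h'
  · rw [V_mid h (by push_cast; linarith [(Nat.cast_nonneg c : (0:ℝ) ≤ c)]),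
      V_le (x := x - m) (by linarith), V_mid (by linarith) (by linarith)]; ring
  rcases le_total x (m + c) with h'' | h''
  · rw [V_mid h (by push_cast; linarith), V_mid (m := c) (by linarith) (by linarith), V_ge]
    · ring
    · have : 0 ≤ (x - m) / D := div_nonneg (by linarith) hD0.le
      linarith
  · rw [V_ge (by push_cast; linarith), V_ge (m := c) (by linarith), V_ge]
    · push_cast; ring
    · have : (0:ℝ) ≤ c / D := by positivity
      linarith

end

section lists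

variable (D : ℕ) (hD : Smooth D) (b : ℕ → ℕ) (hb : ∀ i, Smooth (b i))

/-- Partial sums. -/
def B (n : ℕ) : ℕ := ∑ i ∈ Finset.range n, b i

theorem B_succ (n : ℕ) : B b (n + 1) = B b n + b n := Finset.sum_range_succ _ _

/-- The map with slope `b j / D` on `[j,j+1]`. -/
noncomputable def R : ℕ → P
  | 0 => 1
  | n + 1 => R n * (T ^ n * W D (b n) hD (hb n) * (T ^ n)⁻¹)

/-- The auxiliary map. -/
noncomputable def r : ℕ → P
  | 0 => 1
  | n + 1 => r n * (T ^ (B b n) * U (b n) (hb n) * (T ^ (B b n))⁻¹)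

theorem R_zero : R D hD b hb 0 = 1 := rfl

theorem R_succ (n : ℕ) :
    R D hD b hb (n + 1) = R D hD b hb n * (T ^ n * W D (b n) hD (hb n) * (T ^ n)⁻¹) := rfl

theorem r_succ (n : ℕ) :
    r b hb (n + 1) = r b hb n * (T ^ (B b n) * U (b n) (hb n) * (T ^ (B b n))⁻¹) := rfl

theorem r_ge (n : ℕ) {x : ℝ} (hx : (B b n : ℝ) ≤ x) : r b hb n x = x - (B b n - n) := by
  induction n generalizing x with
  | zero => show x = _; simp [B]
  | succ n ih =>
    rw [B_succ] at hx ⊢
    push_cast at hx ⊢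
    have hb0 : (1:ℝ) ≤ b n := by exact_mod_cast (hb n).pos
    rw [r_succ, P_mul, T_pow, conj_Tr, U_ge (by linarith), ih (by linarith)]
    ring

theorem V_R_r (n : ℕ) : V D hD (B b n) = R D hD b hb n * r b hb n := by
  induction n with
  | zero => show V D hD 0 = 1 * 1; rw [V_zero, mul_one]
  | succ n ih =>
    rw [B_succ, V_add, ih, V_eq (hb := hb n), R_succ, r_succ]
    have hc : ((T ^ n)⁻¹ * r b hb n * T ^ (B b n)) * W D (b n) hD (hb n) =
        W D (b n) hD (hb n) * ((T ^ n)⁻¹ * r b hb n * T ^ (B b n)) := by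
      apply P_comm
      intro x
      rcases le_total x 0 with h | h
      · exact Or.inr (W_le h)
      · left
        rw [P_mul, P_mul, T_pow, T_pow, Tr_apply, r_ge b hb n (by linarith), Tr_inv_apply]
        ring
    calc R D hD b hb n * r b hb n * (T ^ B b n * (W D (b n) hD (hb n) * U (b n) (hb n)) *
          (T ^ B b n)⁻¹) = R D hD b hb n * (T ^ n * (((T ^ n)⁻¹ * r b hb n * T ^ (B b n)) *
            W D (b n) hD (hb n)) * U (b n) (hb n) * (T ^ B b n)⁻¹) := by group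
      _ = _ := by rw [hc]; group

theorem π_r (n : ℕ) : π (r b hb n) * h0 ^ n = h0 ^ (B b n) := by
  induction n with
  | zero => show π 1 * h0 ^ 0 = h0 ^ 0; simp
  | succ n ih =>
    rw [r_succ, map_mul, π_U_aux (hb n) (π_U (hb n)), mul_assoc, ← pow_add, B_succ]
    have h1 : b n - 1 + (n + 1) = n + b n := by have := (hb n).pos; omega
    rw [h1, pow_add, ← mul_assoc, ih, pow_add]

theorem π_R (n : ℕ) : π (R D hD b hb n) * h0 ^ (B b n) = π (V D hD (B b n)) * h0 ^ n := by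
  rw [V_R_r D hD b hb n, map_mul, mul_assoc, π_r]

theorem π_R_one (n : ℕ) (h : B b n = n * D) : π (R D hD b hb n) = 1 := by
  have h1 := π_R D hD b hb n
  have h2 := π_R D hD (fun _ => D) (fun _ => hD) n
  have hB : B (fun _ => D) n = n * D := by simp [B]
  have hW : W D D hD hD = 1 := by
    apply P_ext; intro x
    have hD0 : (D:ℝ) ≠ 0 := (lpos hD).ne'
    rw [P_one]
    rcases le_total x 0 with h | h
    · exact W_le h
    rcases le_total x 1 with h' | h'
    · rw [W_mid h h', div_self hD0, one_mul]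
    · rw [W_ge h', div_self hD0]; ring
  have hR : ∀ n, R D hD (fun _ => D) (fun _ => hD) n = 1 := by
    intro n
    induction n with
    | zero => rfl
    | succ n ih => rw [R_succ, ih, hW]; group
  rw [hB, hR, map_one, one_mul] at h2
  rw [h, ← h2] at h1
  exact mul_eq_right.1 h1

theorem R_ge (n : ℕ) {x : ℝ} (hx : (n:ℝ) ≤ x) : R D hD b hb n x = x + ((B b n : ℝ) / D - n) := by
  induction n generalizing x with
  | zero => show x = _; simp [B]
  | succ n ih =>
    push_cast at hx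
    have hD0 : (0:ℝ) < D := lpos hD
    have h0 : (0:ℝ) ≤ b n / D := by positivity
    rw [R_succ, P_mul, T_pow, conj_Tr, W_ge (by linarith), ih (by linarith), B_succ]
    push_cast; ring

theorem R_step (n : ℕ) {x : ℝ} (hx : x ≤ n) : R D hD b hb (n + 1) x = R D hD b hb n x := by
  rw [R_succ, P_mul, T_pow, conj_Tr, W_le (by linarith), sub_add_cancel]

theorem R_mid (n : ℕ) {x : ℝ} (hx : n ≤ x) (hx' : x ≤ n + 1) :
    R D hD b hb (n + 1) x = (B b n : ℝ) / D + b n / D * (x - n) := by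
  have hD0 : (0:ℝ) < D := lpos hD
  have h0 : (0:ℝ) ≤ b n / D * (x - n) := mul_nonneg (by positivity) (by linarith)
  rw [R_succ, P_mul, T_pow, conj_Tr, W_mid (by linarith) (by linarith), R_ge]
  · ring
  · linarith

theorem eq_R {f : P} (hf0 : ∀ x : ℝ, x ≤ 0 → f x = x) (n : ℕ)
    (hf : ∀ j < n, ∀ x : ℝ, (j:ℝ) ≤ x → x ≤ j + 1 → f x = f j + b j / D * (x - j)) :
    ∀ x : ℝ, x ≤ n → f x = R D hD b hb n x := by
  induction n with
  | zero => intro x hx; exact hf0 x (by simpa using hx)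
  | succ n ih =>
    have ih := ih (fun j hj => hf j (by omega))
    intro x hx
    push_cast at hx
    rcases le_total x n with h | h
    · rw [R_step _ _ _ _ _ h]; exact ih x h
    · rw [hf n (by omega) x h hx, R_mid _ _ _ _ _ h hx, ih n le_rfl, R_ge _ _ _ _ _ le_rfl]
      ring

include hD hb in
theorem π_eq_one_of {f : P} (hf0 : ∀ x : ℝ, x ≤ 0 → f x = x) (n : ℕ)
    (hfn : ∀ x : ℝ, n ≤ x → f x = x)
    (hf : ∀ j < n, ∀ x : ℝ, (j:ℝ) ≤ x → x ≤ j + 1 → f x = f j + b j / D * (x - j)) :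
    π f = 1 := by
  have hD0 : (0:ℝ) < D := lpos hD
  have h1 := eq_R D hD b hb hf0 n hf
  have hn : (B b n : ℝ) / D = n := by
    have h2 := h1 n le_rfl
    rw [hfn _ le_rfl, R_ge _ _ _ _ _ le_rfl] at h2
    linarith
  have hB : B b n = n * D := by
    rw [div_eq_iff hD0.ne'] at hn
    exact_mod_cast hn
  have : f = R D hD b hb n := by
    apply P_ext; intro x
    rcases le_total x n with h | h
    · exact h1 x h
    · rw [hfn x h, R_ge _ _ _ _ _ h, hn]; ring
  rw [this]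
  exact π_R_one D hD b hb n hB

end lists

/-- Common denominator for slopes. -/
theorem exists_den (s : ℕ → ℝ) (hs : ∀ i, s i ∈ Lam) (n : ℕ) :
    ∃ D : ℕ, Smooth D ∧ ∃ b : ℕ → ℕ, (∀ i, Smooth (b i)) ∧ ∀ i < n, s i = b i / D := by
  have key : ∀ t ∈ Lam, ∃ k : ℕ, ∀ l ≥ k, ∃ c : ℕ, Smooth c ∧ t = c / 6 ^ l := by
    rintro t ⟨a, c, rfl⟩
    refine ⟨max a.natAbs c.natAbs, fun l hl => ⟨2 ^ (a + l).toNat * 3 ^ (c + l).toNat, ?_, ?_⟩⟩
    · show ((2 ^ (a + l).toNat * 3 ^ (c + l).toNat : ℕ):ℝ) ∈ Lam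
      push_cast
      exact lmul (lpow ltwo _) (lpow lthree _)
    · push_cast
      have h2 : (2:ℝ) ^ (a + l).toNat = 2 ^ a * 2 ^ l := by
        rw [← zpow_natCast, ← zpow_natCast, ← zpow_add₀ (by norm_num)]
        congr 1; omega
      have h3 : (3:ℝ) ^ (c + l).toNat = 3 ^ c * 3 ^ l := by
        rw [← zpow_natCast, ← zpow_natCast, ← zpow_add₀ (by norm_num)]
        congr 1; omega
      have h6 : (6:ℝ) ^ l = 2 ^ l * 3 ^ l := by rw [← mul_pow]; norm_num
      rw [h2, h3, h6]; field_simp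
  choose k hk using fun i => key (s i) (hs i)
  let l := (Finset.range n).sup k
  refine ⟨6 ^ l, ?_, ?_⟩
  · show ((6 ^ l : ℕ):ℝ) ∈ Lam
    push_cast; exact lsix_pow l
  have : ∀ i, ∃ c : ℕ, Smooth c ∧ (i < n → s i = c / ((6 ^ l : ℕ):ℝ)) := by
    intro i
    by_cases hi : i < n
    · obtain ⟨c, hc, h⟩ := hk i l (Finset.le_sup (f := k) (Finset.mem_range.2 hi))
      exact ⟨c, hc, fun _ => by push_cast; exact h⟩
    · exact ⟨1, smooth_one, fun h => absurd h hi⟩
  choose c hc h using this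
  exact ⟨c, hc, h⟩

/-- Affine on adic intervals of high level. -/
theorem exists_adic (f : P) (u v : ℝ) :
    ∃ k : ℕ, ∀ j : ℤ, u ≤ j / 6 ^ k → j / 6 ^ k ≤ v →
      ∃ s ∈ Lam, ∀ x, (j:ℝ) / 6 ^ k ≤ x → x ≤ (j + 1) / 6 ^ k →
        f x = f (j / 6 ^ k) + s * (x - j / 6 ^ k) := by
  have hc : IsCompact (Icc u v) := isCompact_Icc
  have := hc.induction_on (p := fun S => ∃ k₀ : ℕ, ∀ k ≥ k₀, ∀ j : ℤ, (j:ℝ) / 6 ^ k ∈ S →
      ∃ s ∈ Lam, ∀ x, (j:ℝ) / 6 ^ k ≤ x → x ≤ (j + 1) / 6 ^ k →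
        f x = f (j / 6 ^ k) + s * (x - j / 6 ^ k)) ?_ ?_ ?_ ?_
  · obtain ⟨k, hk⟩ := this
    exact ⟨k, fun j h1 h2 => hk k le_rfl j ⟨h1, h2⟩⟩
  · exact ⟨0, fun _ _ _ h => absurd h (notMem_empty _)⟩
  · rintro S S' hS ⟨k₀, h⟩
    exact ⟨k₀, fun k hk j hj => h k hk j (hS hj)⟩
  · rintro S S' ⟨k₀, h⟩ ⟨k₁, h'⟩
    refine ⟨max k₀ k₁, fun k hk j hj => ?_⟩
    rcases hj with hj | hj
    · exact h k (le_of_max_le_left hk) j hj
    · exact h' k (le_of_max_le_right hk) j hj
  · intro x _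
    have hf : PL f := f.2
    obtain ⟨⟨s, hs, c, hc, hR⟩, ⟨s', hs', c', hc', hL⟩, hN⟩ := hf x
    have hpow : ∀ δ : ℝ, 0 < δ → ∃ k₀ : ℕ, ∀ k ≥ k₀, (1:ℝ) / 6 ^ k < δ := by
      intro δ hδ
      obtain ⟨k, hk⟩ := exists_pow_lt_of_lt_one hδ (by norm_num : (1/6:ℝ) < 1)
      refine ⟨k, fun k' hk' => ?_⟩
      calc (1:ℝ) / 6 ^ k' = (1/6) ^ k' := by rw [one_div, one_div, inv_pow]
        _ ≤ (1/6) ^ k := pow_le_pow_of_le_one (by norm_num) (by norm_num) hk'
        _ < δ := hk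
    have aff_of : ∀ (t d : ℝ) (k : ℕ) (j : ℤ),
        (∀ y, (j:ℝ) / 6 ^ k ≤ y → y ≤ (j + 1) / 6 ^ k → f y = t * y + d) →
        ∀ y, (j:ℝ) / 6 ^ k ≤ y → y ≤ (j + 1) / 6 ^ k →
          f y = f (j / 6 ^ k) + t * (y - j / 6 ^ k) := by
      intro t d k j h y h1 h2
      rw [h y h1 h2, h _ le_rfl (by gcongr; linarith)]; ring
    by_cases hx : x ∈ ZA
    · obtain ⟨δ, hδ, hδR⟩ : ∃ δ > 0, ∀ y, x ≤ y → y < x + δ → f y = s * y + c := by
        obtain ⟨δ, hδ, h⟩ := (mem_nhdsGE_iff_exists_Ico_subset).1 hR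
        exact ⟨δ - x, by simpa using hδ, fun y h1 h2 => h ⟨h1, by linarith⟩⟩
      obtain ⟨δ', hδ', hδL⟩ : ∃ δ > 0, ∀ y, x - δ < y → y ≤ x → f y = s' * y + c' := by
        obtain ⟨δ, hδ, h⟩ := (mem_nhdsLE_iff_exists_Ioc_subset).1 hL
        exact ⟨x - δ, by simpa using hδ, fun y h1 h2 => h ⟨by linarith, h2⟩⟩
      obtain ⟨k₀, hk₀⟩ := hpow (min δ δ' / 2) (by positivity)
      obtain ⟨m, l, hm⟩ := hx
      refine ⟨Ioo (x - min δ δ' / 2) (x + min δ δ' / 2), ?_, max k₀ l, fun k hk j hj => ?_⟩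
      · exact mem_nhdsWithin_of_mem_nhds (Ioo_mem_nhds (by
          have : 0 < min δ δ' := by positivity
          linarith) (by
          have : 0 < min δ δ' := by positivity
          linarith))
      · have hk1 := hk₀ k (le_of_max_le_left hk)
        have hm1 := min_le_left δ δ'
        have hm2 := min_le_right δ δ'
        have h6 : (0:ℝ) < 6 ^ k := by positivity
        have hsum : ((j:ℝ) + 1) / 6 ^ k = j / 6 ^ k + 1 / 6 ^ k := by ring
        have hxk : x = ((m * 6 ^ (k - l) : ℤ) : ℝ) / 6 ^ k := by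
          have : k = l + (k - l) := by have := le_of_max_le_right hk; omega
          rw [hm]
          conv_rhs => rw [this]
          push_cast
          rw [pow_add]
          have hh : l + (k - l) - l = k - l := by omega
          rw [hh]
          field_simp
        rcases le_or_gt (m * 6 ^ (k - l)) j with hle | hlt
        · have hxj : x ≤ j / 6 ^ k := by
            rw [hxk]; gcongr
          refine ⟨s, hs, aff_of s c k j fun y h1 h2 => hδR y (hxj.trans h1) ?_⟩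
          have := hj.2
          linarith
        · have hxj : ((j:ℝ) + 1) / 6 ^ k ≤ x := by
            rw [hxk]; gcongr
            exact_mod_cast hlt
          refine ⟨s', hs', aff_of s' c' k j fun y h1 h2 => hδL y ?_ (h2.trans hxj)⟩
          have := hj.1
          linarith
    · obtain ⟨s, hs, c, hc, hN⟩ := hN hx
      obtain ⟨δ, hδ, h⟩ := Metric.eventually_nhds_iff.1 hN
      obtain ⟨k₀, hk₀⟩ := hpow (δ / 2) (by positivity)
      refine ⟨Ioo (x - δ / 2) (x + δ / 2), mem_nhdsWithin_of_mem_nhds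
        (Ioo_mem_nhds (by linarith) (by linarith)), k₀, fun k hk j hj => ?_⟩
      have hk1 := hk₀ k hk
      have hsum : ((j:ℝ) + 1) / 6 ^ k = j / 6 ^ k + 1 / 6 ^ k := by ring
      refine ⟨s, hs, aff_of s c k j fun y h1 h2 => h ?_⟩
      rw [Real.dist_eq, abs_lt]
      have := hj.1
      have := hj.2
      constructor <;> linarith

theorem K_perfect {f : P} (hf : f ∈ K) : f ∈ (⁅K, K⁆ : Subgroup P) := by
  rw [← π_eq_one]
  obtain ⟨u, v, h1, h2⟩ := hf
  have hfK : f ∈ K := ⟨u, v, h1, h2⟩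
  obtain ⟨N, hN⟩ := exists_nat_gt (max |u| |v|)
  have hu : -(N:ℝ) < u := by
    have := neg_abs_le u
    have := le_max_left |u| |v|
    linarith
  have hv : v < N := (le_abs_self v).trans_lt ((le_max_right _ _).trans_lt hN)
  obtain ⟨k, hk⟩ := exists_adic f (-N) N
  have h6 : (0:ℝ) < 6 ^ k := by positivity
  -- conjugated element
  let g : P := Tr ((N * 6 ^ k : ℕ):ℝ) (znat _) * Dil (6 ^ k) (lsix_pow k)
  have hg : ∀ x, g x = 6 ^ k * x + N * 6 ^ k := by
    intro x
    rw [P_mul, Tr_apply, Dil_apply]; push_cast; ring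
  have hgi : ∀ x, g⁻¹ x = (x - N * 6 ^ k) / 6 ^ k := by
    intro x
    rw [P_inv_eq, hg]; field_simp; ring
  rw [← π_conj hfK g]
  set F := g * f * g⁻¹ with hF
  have hFx : ∀ x, F x = 6 ^ k * f ((x - N * 6 ^ k) / 6 ^ k) + N * 6 ^ k := by
    intro x; rw [hF, P_mul, P_mul, hgi, hg]
  -- slopes
  have hs : ∀ i : ℕ, ∃ s ∈ Lam, i < 2 * N * 6 ^ k → ∀ x, (i:ℝ) ≤ x → x ≤ i + 1 →
      F x = F i + s * (x - i) := by
    intro i
    by_cases hi : i < 2 * N * 6 ^ k
    · have hi' : (i:ℝ) < 2 * N * 6 ^ k := by exact_mod_cast hi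
      have e : (((i:ℤ) - N * 6 ^ k : ℤ) : ℝ) / 6 ^ k = (i - N * 6 ^ k) / 6 ^ k := by push_cast; ring
      obtain ⟨s, hs, h⟩ := hk ((i:ℤ) - N * 6 ^ k) (by
        rw [e, le_div_iff₀ h6]
        have : (0:ℝ) ≤ i := Nat.cast_nonneg i
        linarith) (by
        rw [e, div_le_iff₀ h6]; linarith)
      refine ⟨s, hs, fun _ x hx hx' => ?_⟩
      have h3 := h ((x - N * 6 ^ k) / 6 ^ k) (by rw [e]; gcongr) (by
        push_cast
        gcongr
        linarith)
      rw [e] at h3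
      rw [hFx, hFx, h3]
      field_simp; ring
    · exact ⟨1, lone, fun h => absurd h hi⟩
  choose s hs hsF using hs
  obtain ⟨D, hD, b, hb, hbs⟩ := exists_den s hs (2 * N * 6 ^ k)
  have hN0 : (0:ℝ) ≤ N := Nat.cast_nonneg N
  refine π_eq_one_of D hD b hb ?_ (2 * N * 6 ^ k) ?_ ?_
  · intro x hx
    rw [hFx, h1 _ (by
      rw [div_le_iff₀ h6]
      have : -(N:ℝ) * 6 ^ k < u * 6 ^ k := by gcongr
      linarith)]
    field_simp; ring
  · intro x hx
    push_cast at hx
    rw [hFx, h2 _ (by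
      rw [le_div_iff₀ h6]
      have : v * 6 ^ k < N * 6 ^ k := by gcongr
      linarith)]
    field_simp; ring
  · intro j hj x hx hx'
    rw [hsF j hj x hx hx', hbs j hj]

end Pool.Agent.W328
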