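import Pool.Agent.W328.Perfect2

/-!
# The group of periodic maps
-/

set_option autoImplicit false

open Filter Topology Set

open scoped commutatorElement

namespace Pool.Agent.W328

/-- Elements supported in `[u,v]`. -/
def KS (u v : ℝ) : Subgroup P where
  carrier := {f | (∀ x, x ≤ u → f x = x) ∧ (∀ x, v ≤ x → f x = x)}
  one_mem' := ⟨fun _ _ => rfl, fun _ _ => rfl⟩
  mul_mem' := by
    rintro f g ⟨h1, h2⟩ ⟨h1', h2'⟩
    exact ⟨fun x hx => by rw [P_mul, h1' x hx, h1 x hx], fun x hx => by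
      rw [P_mul, h2' x hx, h2 x hx]⟩
  inv_mem' := by
    rintro f ⟨h1, h2⟩
    exact ⟨fun x hx => P_inv_eq.2 (h1 x hx).symm, fun x hx => P_inv_eq.2 (h2 x hx).symm⟩

theorem mem_KS {u v : ℝ} {f : P} :
    f ∈ KS u v ↔ (∀ x, x ≤ u → f x = x) ∧ (∀ x, v ≤ x → f x = x) := Iff.rfl

theorem KS_le_K (u v : ℝ) : KS u v ≤ K := fun _ h => ⟨u, v, h.1, h.2⟩

theorem KS_mono {u v u' v' : ℝ} (hu : u' ≤ u) (hv : v ≤ v') : KS u v ≤ KS u' v' :=
  fun _ h => ⟨fun x hx => h.1 x (hx.trans hu), fun x hx => h.2 x (hv.trans hx)⟩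

theorem KS_conj {f : P} {u v : ℝ} (h : f ∈ KS u v) (k : P) : k * f * k⁻¹ ∈ KS (k u) (k v) :=
  K_conj k h.1 h.2

/-- Compression: an element supported in `[u,v]` is a product of commutators of elements supported
in `[u',v']` if `u' < u` and `v < v'`. -/
theorem KS_comm {f : P} {u v u' v' : ℝ} (hu : u ∈ ZA) (hv : v ∈ ZA) (huv : u ≤ v)
    (hu' : u' < u) (hv' : v < v') (hf : f ∈ KS u v) : f ∈ (⁅KS u' v', KS u' v'⁆ : Subgroup P) := by
  have h1 : f ∈ (⁅K, K⁆ : Subgroup P) := K_perfect (KS_le_K _ _ hf)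
  have key : ∀ g ∈ (⁅K, K⁆ : Subgroup P), ∃ M : ℝ, ∀ k : P, u' < k (-M) → k M < v' →
      k * g * k⁻¹ ∈ (⁅KS u' v', KS u' v'⁆ : Subgroup P) := by
    intro g hg
    refine Subgroup.closure_induction (p := fun g _ => ∃ M : ℝ, ∀ k : P, u' < k (-M) → k M < v' →
      k * g * k⁻¹ ∈ (⁅KS u' v', KS u' v'⁆ : Subgroup P)) ?_ ?_ ?_ ?_ hg
    · rintro _ ⟨a, ⟨p, q, ha1, ha2⟩, b, ⟨p', q', hb1, hb2⟩, rfl⟩
      obtain ⟨M, hM⟩ := exists_gt (max (max |p| |q|) (max |p'| |q'|))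
      refine ⟨M, fun k hk1 hk2 => ?_⟩
      have e : k * ⁅a, b⁆ * k⁻¹ = ⁅k * a * k⁻¹, k * b * k⁻¹⁆ := by
        rw [commutatorElement_def, commutatorElement_def]; group
      have hp : -M ≤ p := by
        have h1 := neg_abs_le p
        have h2 := (le_max_left |p| |q|).trans (le_max_left _ (max |p'| |q'|))
        linarith
      have hq : q ≤ M := by
        have h1 := le_abs_self q
        have h2 := (le_max_right |p| |q|).trans (le_max_left _ (max |p'| |q'|))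
        linarith
      have hp' : -M ≤ p' := by
        have h1 := neg_abs_le p'
        have h2 := (le_max_left |p'| |q'|).trans (le_max_right (max |p| |q|) _)
        linarith
      have hq' : q' ≤ M := by
        have h1 := le_abs_self q'
        have h2 := (le_max_right |p'| |q'|).trans (le_max_right (max |p| |q|) _)
        linarith
      rw [e]
      refine Subgroup.commutator_mem_commutator ?_ ?_
      · exact KS_mono (hk1.le.trans (P_mono k hp)) ((P_mono k hq).trans hk2.le)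
          (KS_conj (u := p) (v := q) ⟨ha1, ha2⟩ k)
      · exact KS_mono (hk1.le.trans (P_mono k hp')) ((P_mono k hq').trans hk2.le)
          (KS_conj (u := p') (v := q') ⟨hb1, hb2⟩ k)
    · exact ⟨0, fun k _ _ => by simp⟩
    · rintro a b _ _ ⟨M, hM⟩ ⟨M', hM'⟩
      refine ⟨max M M', fun k h1 h2 => ?_⟩
      have e : k * (a * b) * k⁻¹ = (k * a * k⁻¹) * (k * b * k⁻¹) := by group
      rw [e]
      refine Subgroup.mul_mem _ (hM k ?_ ?_) (hM' k ?_ ?_)
      · exact h1.trans_le (P_mono k (neg_le_neg (le_max_left _ _)))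
      · exact (P_mono k (le_max_left _ _)).trans_lt h2
      · exact h1.trans_le (P_mono k (neg_le_neg (le_max_right _ _)))
      · exact (P_mono k (le_max_right _ _)).trans_lt h2
    · rintro a _ ⟨M, hM⟩
      refine ⟨M, fun k h1 h2 => ?_⟩
      have e : k * a⁻¹ * k⁻¹ = (k * a * k⁻¹)⁻¹ := by group
      rw [e]
      exact Subgroup.inv_mem _ (hM k h1 h2)
  obtain ⟨M, hM⟩ := key f h1
  obtain ⟨N, hN⟩ := exists_nat_gt (max (max |u| |v|) |M|)
  have huN : -(N:ℝ) < u := by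
    have h1 := neg_abs_le u
    have h2 := (le_max_left |u| |v|).trans (le_max_left _ |M|)
    linarith
  have hvN : v < N := by
    have h1 := le_abs_self v
    have h2 := (le_max_right |u| |v|).trans (le_max_left _ |M|)
    linarith
  have hMN : M ≤ N := by
    have h1 := le_abs_self M
    have h2 := le_max_right (max |u| |v|) |M|
    linarith
  obtain ⟨p, hp, hp1, hp2⟩ := z_between hu'
  obtain ⟨q, hq, hq1, hq2⟩ := z_between hv'
  obtain ⟨e1, h11, h12⟩ := exists_ext' (zneg (znat N)) hu hp hu huN hp2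
  obtain ⟨e2, h21, h22⟩ := exists_ext' hv (znat N) hv hq hvN hq1
  obtain ⟨a, ha1, ha2⟩ := exists_glue 1 e2 v hv (by rw [h21]; rfl)
  obtain ⟨k, hk1, hk2⟩ := exists_glue e1 a u hu (by rw [ha1 u huv, h12]; rfl)
  have e : k * f * k⁻¹ = f := by
    have := conj_eq (k := 1) (k' := k) hf.1 hf.2 (fun x hx hx' => by
      rw [hk2 x hx, ha1 x hx'])
    rw [this]; group
  rw [← e]
  refine hM k ?_ ?_
  · calc u' < p := hp1
      _ = k (-N) := by rw [hk1 _ huN.le, h11]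
      _ ≤ k (-M) := P_mono k (neg_le_neg hMN)
  · calc k M ≤ k N := P_mono k hMN
      _ = q := by rw [hk2 _ (huv.trans hvN.le), ha2 _ hvN.le, h22]
      _ < v' := hq2

/-- The group of periodic maps. -/
def TT : Subgroup P where
  carrier := {g | ∀ x, g (x + 1) = g x + 1}
  one_mem' := fun _ => rfl
  mul_mem' := by
    intro f g hf hg x
    show f (g (x + 1)) = f (g x) + 1
    rw [hg, hf]
  inv_mem' := by
    intro f hf x
    show f⁻¹ (x + 1) = f⁻¹ x + 1
    rw [P_inv_eq, hf, P_self_inv]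

theorem mem_TT {g : P} : g ∈ TT ↔ ∀ x, g (x + 1) = g x + 1 := Iff.rfl

theorem TT_int {g : P} (hg : g ∈ TT) (x : ℝ) (n : ℤ) : g (x + n) = g x + n := by
  have hn : ∀ n : ℕ, ∀ x, g (x + n) = g x + n := by
    intro n
    induction n with
    | zero => intro x; simp
    | succ n ih => intro x; push_cast; rw [← add_assoc, hg, ih]; ring
  obtain ⟨m, rfl | rfl⟩ := n.eq_nat_or_neg
  · exact_mod_cast hn m x
  · have := hn m (x + ((-m : ℤ) : ℝ))
    push_cast at this ⊢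
    rw [neg_add_cancel_right] at this
    linarith

theorem Tr_mem (a : ℝ) (ha : a ∈ ZA) : Tr a ha ∈ TT := by
  intro x
  show Tr a ha (x + 1) = Tr a ha x + 1
  rw [Tr_apply, Tr_apply]; ring

theorem T_mem : T ∈ TT := Tr_mem _ _

theorem TT_ext {g h : P} (hg : g ∈ TT) (hh : h ∈ TT) (u : ℝ)
    (H : ∀ x, u ≤ x → x ≤ u + 1 → g x = h x) : g = h := by
  apply P_ext; intro x
  have h1 := TT_int hg (x - ⌊x - u⌋) ⌊x - u⌋
  have h2 := TT_int hh (x - ⌊x - u⌋) ⌊x - u⌋
  rw [sub_add_cancel] at h1 h2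
  rw [h1, h2, H]
  · have := Int.floor_le (x - u); linarith
  · have := Int.lt_floor_add_one (x - u); linarith

/-- Periodic extension. -/
theorem exists_per (F : P) (u : ℝ) (hu : u ∈ ZA) (h : F (u + 1) = F u + 1) :
    ∃ g : P, g ∈ TT ∧ ∀ x, u ≤ x → x ≤ u + 1 → g x = F x := by
  let G : ℝ → ℝ := fun x => F (x - ⌊x - u⌋) + ⌊x - u⌋
  have hGn : ∀ (n : ℤ) (x : ℝ), u + n ≤ x → x ≤ u + n + 1 → G x = F (x - n) + n := by
    intro n x h1 h2
    rcases h2.lt_or_eq with h2 | h2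
    · have : ⌊x - u⌋ = n := by rw [Int.floor_eq_iff]; constructor <;> linarith
      show F (x - ⌊x - u⌋) + ⌊x - u⌋ = _
      rw [this]
    · have : ⌊x - u⌋ = n + 1 := by
        rw [Int.floor_eq_iff]; push_cast; constructor <;> linarith
      show F (x - ⌊x - u⌋) + ⌊x - u⌋ = _
      rw [this, h2]; push_cast
      have e1 : u + n + 1 - ((n:ℝ) + 1) = u := by ring
      have e2 : u + n + 1 - (n:ℝ) = u + 1 := by ring
      rw [e1, e2, h]; ring
  have hmono : StrictMono G := by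
    intro x y hxy
    show F (x - ⌊x - u⌋) + ⌊x - u⌋ < F (y - ⌊y - u⌋) + ⌊y - u⌋
    rcases (Int.floor_mono (sub_le_sub_right hxy.le u)).eq_or_lt with he | hl
    · rw [← he]
      have : F (x - ⌊x - u⌋) < F (y - ⌊x - u⌋) := P_strictMono F (by linarith)
      linarith
    · have h1 : x - ⌊x - u⌋ < u + 1 := by have := Int.lt_floor_add_one (x - u); linarith
      have h2 : u ≤ y - ⌊y - u⌋ := by have := Int.floor_le (y - u); linarith
      have h3 := P_strictMono F h1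
      have h4 := P_mono F h2
      have h5 : (⌊x - u⌋ : ℝ) + 1 ≤ ⌊y - u⌋ := by exact_mod_cast hl
      linarith
  have hsurj : Function.Surjective G := by
    intro y
    let m : ℤ := ⌊y - F u⌋
    have hm1 : (m:ℝ) ≤ y - F u := Int.floor_le _
    have hm2 : y - F u < m + 1 := Int.lt_floor_add_one _
    refine ⟨F⁻¹ (y - m) + m, ?_⟩
    rw [hGn m]
    · rw [add_sub_cancel_right, P_self_inv]; ring
    · have : u ≤ F⁻¹ (y - m) := by
        have h1 : F u ≤ y - m := by linarith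
        have := P_mono F⁻¹ h1
        rwa [P_inv_self] at this
      linarith
    · have : F⁻¹ (y - m) ≤ u + 1 := by
        have h1 : y - m ≤ F (u + 1) := by rw [h]; linarith
        have := P_mono F⁻¹ h1
        rwa [P_inv_self] at this
      linarith
  let g : ℝ ≃o ℝ := StrictMono.orderIsoOfSurjective G hmono hsurj
  have hg : ∀ x, g x = G x := fun _ => rfl
  have hgP : g ∈ PLg := by
    -- comparison elements
    have hn : ∀ n : ℤ, ∃ k : P, ∀ x, u + n ≤ x → x ≤ u + n + 1 → g x = k x := by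
      intro n
      refine ⟨Tr n (zint n) * F * (Tr n (zint n))⁻¹, fun x h1 h2 => ?_⟩
      rw [conj_Tr, hg, hGn n x h1 h2]
    have hR : ∀ x, RA g x := by
      intro x
      obtain ⟨k, hk⟩ := hn ⌊x - u⌋
      have hk' : PL k := k.2
      obtain ⟨⟨s, hs, c, hc, h1⟩, -, -⟩ := hk' x
      refine ⟨s, hs, c, hc, ?_⟩
      have h2 : x < u + ⌊x - u⌋ + 1 := by have := Int.lt_floor_add_one (x - u); linarith
      filter_upwards [h1, Ico_mem_nhdsGE h2] with y h3 h4
      rw [hk y _ h4.2.le, h3]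
      have := Int.floor_le (x - u)
      have := h4.1
      linarith
    have hL : ∀ x, LA g x := by
      intro x
      obtain ⟨k, hk⟩ := hn (⌈x - u⌉ - 1)
      push_cast at hk
      have hk' : PL k := k.2
      obtain ⟨-, ⟨s, hs, c, hc, h1⟩, -⟩ := hk' x
      refine ⟨s, hs, c, hc, ?_⟩
      have h2 : u + (⌈x - u⌉ - 1) < x := by have := Int.ceil_lt_add_one (x - u); linarith
      filter_upwards [h1, Ioc_mem_nhdsLE h2] with y h3 h4
      rw [hk y h4.1.le, h3]
      have := Int.le_ceil (x - u)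
      have := h4.2
      linarith
    intro x
    refine ⟨hR x, hL x, fun hx => ?_⟩
    obtain ⟨k, hk⟩ := hn ⌊x - u⌋
    have hk' : PL k := k.2
    obtain ⟨s, hs, c, hc, h1⟩ := (hk' x).2.2 hx
    have h2 : x < u + ⌊x - u⌋ + 1 := by have := Int.lt_floor_add_one (x - u); linarith
    have h3 : u + ⌊x - u⌋ < x := by
      have h4 := Int.floor_le (x - u)
      refine lt_of_le_of_ne (by linarith) fun h5 => hx ?_
      rw [← h5]
      exact zadd hu (zint _)
    refine ⟨s, hs, c, hc, ?_⟩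
    filter_upwards [h1, Ioo_mem_nhds h3 h2] with y h4 h5
    rw [hk y h5.1.le h5.2.le, h4]
  refine ⟨⟨g, hgP⟩, ?_, ?_⟩
  · intro x
    show G (x + 1) = G x + 1
    show F (x + 1 - ⌊x + 1 - u⌋) + ⌊x + 1 - u⌋ = F (x - ⌊x - u⌋) + ⌊x - u⌋ + 1
    have e : ⌊x + 1 - u⌋ = ⌊x - u⌋ + 1 := by
      rw [← Int.floor_add_one]; congr 1; ring
    rw [e]; push_cast
    have e2 : x + 1 - ((⌊x - u⌋:ℝ) + 1) = x - ⌊x - u⌋ := by ring
    rw [e2]; ring
  · intro x h1 h2
    show G x = F x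
    rw [hGn 0 x (by push_cast; linarith) (by push_cast; linarith)]
    simp

/-- Local extension: an element of `P` on a short interval extends to an element of `TT`. -/
theorem loc_ext (k : P) {a b : ℝ} (ha : a ∈ ZA) (hb : b ∈ ZA) (hab : a ≤ b) (hb1 : b < a + 1)
    (hk : k b < k a + 1) : ∃ g : P, g ∈ TT ∧ ∀ x, a ≤ x → x ≤ b → g x = k x := by
  obtain ⟨e, he1, he2⟩ := exists_ext' hb (zadd ha zone) ((P_mem k).2 hb)
    (zadd ((P_mem k).2 ha) zone) hb1 hk
  obtain ⟨F, hF1, hF2⟩ := exists_glue k e b hb he1.symm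
  obtain ⟨g, hg, hgF⟩ := exists_per F a ha (by rw [hF2 _ hb1.le, he2, hF1 _ hab])
  exact ⟨g, hg, fun x h1 h2 => by rw [hgF x h1 (by linarith), hF1 x h2]⟩

/-- Local extension with control of the support. -/
theorem loc_ext' (k : P) {L a b R : ℝ} (hL : L ∈ ZA) (ha : a ∈ ZA) (hb : b ∈ ZA) (hR : R ∈ ZA)
    (hLa : L < a) (hab : a ≤ b) (hbR : b < R) (hLR : R ≤ L + 1)
    (h1 : L < k a) (h2 : k b < R) : ∃ g : P, g ∈ TT ∧ (∀ x, a ≤ x → x ≤ b → g x = k x) ∧
      (∀ x, R ≤ x → x ≤ L + 1 → g x = x) := by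
  obtain ⟨F, hF1, hF2, hF3⟩ := exists_local' k hL ha hb hR hLa hab hbR h1 h2
  obtain ⟨g, hg, hgF⟩ := exists_per F L hL (by rw [hF3 _ hLR, hF2 _ le_rfl])
  refine ⟨g, hg, fun x h1 h2 => ?_, fun x h1 h2 => ?_⟩
  · rw [hgF x (by linarith) (by linarith), hF1 x h1 h2]
  · rw [hgF x (by linarith) (by linarith), hF3 x h1]

theorem extT {a b a' b' : ℝ} (ha : a ∈ ZA) (hb : b ∈ ZA) (ha' : a' ∈ ZA) (hb' : b' ∈ ZA)
    (hab : a < b) (hb1 : b < a + 1) (hab' : a' < b') (hb1' : b' < a' + 1) :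
    ∃ g : P, g ∈ TT ∧ g a = a' ∧ g b = b' := by
  obtain ⟨k, hk1, hk2⟩ := exists_ext' ha hb ha' hb' hab hab'
  obtain ⟨g, hg, h⟩ := loc_ext k ha hb hab.le hb1 (by rw [hk1, hk2]; exact hb1')
  exact ⟨g, hg, by rw [h a le_rfl hab.le, hk1], by rw [h b hab.le le_rfl, hk2]⟩

/-- Elements of `TT` with support in `[u,v] + ℤ`. -/
def TS (u v : ℝ) : Subgroup P where
  carrier := {g | g ∈ TT ∧ ∀ x, v ≤ x → x ≤ u + 1 → g x = x}
  one_mem' := ⟨TT.one_mem, fun _ _ _ => rfl⟩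
  mul_mem' := by
    rintro f g ⟨hf, h1⟩ ⟨hg, h2⟩
    exact ⟨TT.mul_mem hf hg, fun x hx hx' => by rw [P_mul, h2 x hx hx', h1 x hx hx']⟩
  inv_mem' := by
    rintro f ⟨hf, h1⟩
    exact ⟨TT.inv_mem hf, fun x hx hx' => P_inv_eq.2 (h1 x hx hx').symm⟩

theorem mem_TS {u v : ℝ} {g : P} :
    g ∈ TS u v ↔ g ∈ TT ∧ ∀ x, v ≤ x → x ≤ u + 1 → g x = x := Iff.rfl

theorem TS_le (u v : ℝ) : TS u v ≤ TT := fun _ h => h.1

theorem TS_mono {u v u' v' : ℝ} (hu : u' ≤ u) (hv : v ≤ v') : TS u v ≤ TS u' v' :=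
  fun _ h => ⟨h.1, fun x hx hx' => h.2 x (hv.trans hx) (by linarith)⟩

theorem TS_conj {g : P} {u v : ℝ} (h : g ∈ TS u v) {k : P} (hk : k ∈ TT) :
    k * g * k⁻¹ ∈ TS (k u) (k v) := by
  refine ⟨TT.mul_mem (TT.mul_mem hk h.1) (TT.inv_mem hk), fun x h1 h2 => ?_⟩
  have h3 := P_mono k⁻¹ h1
  have h4 := P_mono k⁻¹ h2
  rw [P_inv_self] at h3
  have h5 : k⁻¹ (k u + 1) = u + 1 := by
    have : k⁻¹ ∈ TT := TT.inv_mem hk
    rw [mem_TT.1 this, P_inv_self]
  rw [h5] at h4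
  rw [P_mul, P_mul, h.2 _ h3 h4, P_self_inv]

/-- Disjoint supports. -/
theorem TS_comm {g h : P} {u v w : ℝ} (hg : g ∈ TS u v) (hh : h ∈ TS v w) (hw : w ≤ u + 1) :
    g * h = h * g := by
  apply P_comm
  intro x
  -- move `x` into `[u,u+1]`
  have h1 := TT_int hg.1 (x - ⌊x - u⌋) ⌊x - u⌋
  have h2 := TT_int hh.1 (x - ⌊x - u⌋) ⌊x - u⌋
  rw [sub_add_cancel] at h1 h2
  have h3 : u ≤ x - ⌊x - u⌋ := by have := Int.floor_le (x - u); linarith
  have h4 : x - ⌊x - u⌋ < u + 1 := by have := Int.lt_floor_add_one (x - u); linarith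
  rcases le_total v (x - ⌊x - u⌋) with h5 | h5
  · left
    rw [h1, hg.2 _ h5 h4.le]; ring
  · right
    have h6 := TT_int hh.1 (x - ⌊x - u⌋) 1
    push_cast at h6
    rw [hh.2 _ (by linarith) (by linarith)] at h6
    rw [h2]; linarith

/-- Perfectness for `TS`. -/
theorem TS_perfect {g : P} {u v u' v' : ℝ} (hu : u ∈ ZA) (hv : v ∈ ZA) (hu' : u' ∈ ZA)
    (huv : u ≤ v) (h1 : u' < u) (h2 : v < v') (h3 : v' ≤ u' + 1) (hg : g ∈ TS u v) :
    g ∈ (⁅TS u' v', TS u' v'⁆ : Subgroup P) := by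
  have hu1 : u' + 1 ∈ ZA := zadd hu' zone
  -- restriction to a fundamental domain
  have hgu : g u = u := by
    have h4 := TT_int hg.1 u 1
    push_cast at h4
    rw [hg.2 _ (by linarith) le_rfl] at h4
    linarith
  have hgv : g v = v := hg.2 v le_rfl (by linarith)
  obtain ⟨a, ha1, ha2⟩ := exists_glue g 1 v hv hgv
  obtain ⟨f, hf1, hf2⟩ := exists_glue 1 a u hu (by rw [ha1 u huv, hgu]; rfl)
  have hf : f ∈ KS u v := by
    refine ⟨fun x hx => ?_, fun x hx => ?_⟩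
    · rw [hf1 x hx]; rfl
    · rw [hf2 x (huv.trans hx), ha2 x hx]; rfl
  have hf' := KS_comm (u' := u') (v' := v') hu hv huv h1 h2 hf
  -- periodic extension as a homomorphism
  have hper : ∀ k : KS u' v', ∃ g : P, g ∈ TT ∧ ∀ x, u' ≤ x → x ≤ u' + 1 → g x = (k : P) x := by
    intro k
    exact exists_per k u' hu' (by rw [k.2.2 _ h3, k.2.1 _ le_rfl])
  choose per hperT hper using hper
  have hmul : ∀ k l : KS u' v', per (k * l) = per k * per l := by
    intro k l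
    refine TT_ext (hperT _) (TT.mul_mem (hperT _) (hperT _)) u' fun x hx hx' => ?_
    have e1 : u' ≤ (l : P) x := by
      have := P_mono (l : P) hx
      rwa [l.2.1 _ le_rfl] at this
    have e2 : (l : P) x ≤ u' + 1 := by
      have := P_mono (l : P) hx'
      rwa [l.2.2 _ h3] at this
    rw [hper _ x hx hx', P_mul, hper l x hx hx', hper k _ e1 e2]
    rfl
  let Per : KS u' v' →* P := MonoidHom.mk' per hmul
  have hPer : ∀ k : KS u' v', Per k ∈ TS u' v' := by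
    intro k
    exact ⟨hperT k, fun x hx hx' => by
      show per k x = x
      rw [hper k x (by linarith) hx', k.2.2 x hx]⟩
  have hfK : f ∈ KS u' v' := KS_mono h1.le h2.le hf
  have hgP : g = Per ⟨f, hfK⟩ := by
    refine TT_ext hg.1 (hperT _) u' fun x hx hx' => ?_
    show g x = per _ x
    rw [hper _ x hx hx']
    show g x = f x
    rcases le_total x u with h | h
    · rw [hf1 x h]
      have h4 := TT_int hg.1 x 1
      push_cast at h4
      rw [hg.2 _ (by linarith) (by linarith)] at h4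
      show g x = x
      linarith
    rcases le_total x v with h' | h'
    · rw [hf2 x h, ha1 x h']
    · rw [hf2 x h, ha2 x h', hg.2 x h' (by linarith)]; rfl
  have hcomm : (⟨f, hfK⟩ : KS u' v') ∈ (⁅(⊤ : Subgroup (KS u' v')), (⊤ : Subgroup (KS u' v'))⁆) := by
    have e : (⁅KS u' v', KS u' v'⁆ : Subgroup P) =
        Subgroup.map (KS u' v').subtype
          (⁅(⊤ : Subgroup (KS u' v')), (⊤ : Subgroup (KS u' v'))⁆) := by
      rw [Subgroup.map_commutator, ← MonoidHom.range_eq_map, Subgroup.range_subtype]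
    rw [e] at hf'
    obtain ⟨z, hz, hz'⟩ := hf'
    have : z = ⟨f, hfK⟩ := Subtype.ext hz'
    rwa [← this]
  have h5 : Per ⟨f, hfK⟩ ∈ Subgroup.map Per
      (⁅(⊤ : Subgroup (KS u' v')), (⊤ : Subgroup (KS u' v'))⁆) :=
    Subgroup.mem_map_of_mem _ hcomm
  rw [Subgroup.map_commutator] at h5
  rw [hgP]
  refine Subgroup.commutator_mono ?_ ?_ h5 <;>
  · rintro _ ⟨k, -, rfl⟩
    exact hPer k

/-- Decomposition of the stabiliser of `0`. -/
theorem stab_dec {k : P} (hk : k ∈ TT) (hk0 : k 0 = 0) :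
    ∃ m ∈ TS 0 (1/2), ∃ c ∈ ZA, 0 < c ∧ c < 1/4 ∧ ∃ n ∈ TS c 1, k = m * n := by
  obtain ⟨c, hc, hc0, hc1⟩ : ∃ c ∈ ZA, 0 < c ∧ c < 1/4 ∧ k c < 1/2 := by
    have h3 : 0 < min (1/4) (k⁻¹ (1/2)) := by
      refine lt_min (by norm_num) ?_
      have h4 := P_strictMono k⁻¹ (show (0:ℝ) < 1/2 by norm_num)
      have h5 : k⁻¹ 0 = 0 := by rw [P_inv_eq, hk0]
      rwa [h5] at h4
    obtain ⟨c, hc, h4, h5⟩ := z_between h3
    refine ⟨c, hc, h4, h5.trans_le (min_le_left _ _), ?_⟩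
    have h6 := P_strictMono k (h5.trans_le (min_le_right _ _))
    rwa [P_self_inv] at h6
  have hkc0 : 0 < k c := by rw [← hk0]; exact P_strictMono k hc0
  -- an element `m` equal to `k` on `[0,c]`, supported in `[0, 1/2]`
  obtain ⟨e, he1, he2⟩ := exists_ext' hc (zldiv zone ltwo) ((P_mem k).2 hc) (zldiv zone ltwo)
    (by linarith : c < 1/2) hc1.2
  obtain ⟨a, ha1, ha2⟩ := exists_glue e 1 (1/2) (zldiv zone ltwo) (by rw [he2]; rfl)
  obtain ⟨b, hb1, hb2⟩ := exists_glue k a c hc (by rw [ha1 c (by linarith), he1])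
  obtain ⟨m, hm, hmb⟩ := exists_per b 0 zzero (by
    rw [hb2 _ (by linarith), ha2 _ (by norm_num), hb1 _ hc0.le, hk0]; simp)
  have hm1 : m ∈ TS 0 (1/2) := ⟨hm, fun x hx hx' => by
    rw [hmb x (by linarith) (by linarith), hb2 x (by linarith), ha2 x hx]; rfl⟩
  have hmk : m⁻¹ * k ∈ TS c 1 := by
    refine ⟨TT.mul_mem (TT.inv_mem hm) hk, fun x hx hx' => ?_⟩
    have h3 := TT_int (TT.mul_mem (TT.inv_mem hm) hk) (x - 1) 1
    push_cast at h3
    rw [sub_add_cancel] at h3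
    have h4 : m⁻¹ (k (x - 1)) = x - 1 := by
      rw [P_inv_eq, hmb _ (by linarith) (by linarith), hb1 _ (by linarith)]
    have h5 : (m⁻¹ * k) (x - 1) = x - 1 := h4
    have h6 : (m⁻¹ * k) x = (m⁻¹ * k) (x - 1) + 1 := h3
    rw [h6, h5]; ring
  exact ⟨m, hm1, c, hc, hc0, hc1.1, m⁻¹ * k, hmk, by group⟩

/-- Generation of `TT`. -/
theorem TT_gen (S : Subgroup P) (h1 : ∀ a (ha : a ∈ ZA), Tr a ha ∈ S)
    (h2 : ∀ u ∈ ZA, ∀ v ∈ ZA, u < v → v < u + 1 → TS u v ≤ S) : TT ≤ S := by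
  intro g hg
  have hg0 : g 0 ∈ ZA := (P_mem g).2 zzero
  have hk : (Tr (g 0) hg0)⁻¹ * g ∈ TT := TT.mul_mem (TT.inv_mem (Tr_mem _ _)) hg
  obtain ⟨m, hm, c, hc, hc0, hc1, n, hn, h⟩ := stab_dec hk (by
    rw [P_mul, Tr_inv_apply]; ring)
  have h3 := S.mul_mem (h2 0 zzero (1/2) (zldiv zone ltwo) (by norm_num) (by norm_num) hm)
    (h2 c hc 1 zone (by linarith) (by linarith) hn)
  rw [← h] at h3
  have := S.mul_mem (h1 (g 0) hg0) h3
  rwa [mul_inv_cancel_left] at this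

/-- Transitivity on pairs. -/
theorem trans2 {a b a' b' : ℝ} (ha : a ∈ ZA) (hb : b ∈ ZA) (ha' : a' ∈ ZA) (hb' : b' ∈ ZA)
    (h0 : 0 < a) (hab : a < b) (h1 : b < 1) (h0' : 0 < a') (hab' : a' < b') (h1' : b' < 1) :
    ∃ g ∈ TT, g 0 = 0 ∧ g a = a' ∧ g b = b' := by
  obtain ⟨e1, h11, h12⟩ := exists_ext' zzero ha zzero ha' h0 h0'
  obtain ⟨e2, h21, h22⟩ := exists_ext' ha hb ha' hb' hab hab'
  obtain ⟨e3, h31, h32⟩ := exists_ext' hb zone hb' zone h1 h1'
  obtain ⟨x, hx1, hx2⟩ := exists_glue e1 e2 a ha (by rw [h12, h21])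
  obtain ⟨y, hy1, hy2⟩ := exists_glue x e3 b hb (by rw [hx2 b hab.le, h22, h31])
  have hy0 : y 0 = 0 := by rw [hy1 0 (by linarith), hx1 0 h0.le, h11]
  obtain ⟨g, hg, h⟩ := exists_per y 0 zzero (by
    rw [hy2 _ (by linarith), hy0, zero_add, h32])
  refine ⟨g, hg, ?_, ?_, ?_⟩
  · rw [h 0 le_rfl (by norm_num), hy0]
  · rw [h a h0.le (by linarith), hy1 a hab.le, hx1 a le_rfl, h12]
  · rw [h b (by linarith) (by linarith), hy1 b le_rfl, hx2 b hab.le, h22]

/-! ### The flip -/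

/-- `x ↦ -g(-x)`. -/
noncomputable def starI (g : ℝ ≃o ℝ) : ℝ ≃o ℝ where
  toFun x := -g (-x)
  invFun x := -g.symm (-x)
  left_inv x := by simp
  right_inv x := by simp
  map_rel_iff' := by
    intro x y
    simp

theorem starI_apply (g : ℝ ≃o ℝ) (x : ℝ) : starI g x = -g (-x) := rfl

theorem star_aux {g : ℝ → ℝ} {l l' : Filter ℝ} (ht : Tendsto (fun x : ℝ => -x) l l')
    (h : ∃ s ∈ Lam, ∃ c ∈ ZA, ∀ᶠ y in l', g y = s * y + c) :
    ∃ s ∈ Lam, ∃ c ∈ ZA, ∀ᶠ y in l, -g (-y) = s * y + c := by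
  obtain ⟨s, hs, c, hc, h⟩ := h
  refine ⟨s, hs, -c, zneg hc, ?_⟩
  filter_upwards [ht.eventually h] with y h1
  rw [h1]; ring

theorem starI_mem {g : ℝ ≃o ℝ} (hg : g ∈ PLg) : starI g ∈ PLg := by
  have hg' : PL g := hg
  intro x
  have h1 : Tendsto (fun x : ℝ => -x) (𝓝[≥] x) (𝓝[≤] (-x)) := by
    apply tendsto_nhdsWithin_of_tendsto_nhds_of_eventually_within
    · exact continuous_neg.continuousAt.tendsto.mono_left nhdsWithin_le_nhds
    · filter_upwards [self_mem_nhdsWithin] with y hy using mem_Iic.2 (neg_le_neg (mem_Ici.1 hy))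
  have h2 : Tendsto (fun x : ℝ => -x) (𝓝[≤] x) (𝓝[≥] (-x)) := by
    apply tendsto_nhdsWithin_of_tendsto_nhds_of_eventually_within
    · exact continuous_neg.continuousAt.tendsto.mono_left nhdsWithin_le_nhds
    · filter_upwards [self_mem_nhdsWithin] with y hy using mem_Ici.2 (neg_le_neg (mem_Iic.1 hy))
  refine ⟨star_aux h1 (hg' (-x)).2.1, star_aux h2 (hg' (-x)).1, fun hx => ?_⟩
  have h3 : -x ∉ ZA := fun h => hx (by have := zneg h; rwa [neg_neg] at this)
  exact star_aux continuous_neg.continuousAt.tendsto ((hg' (-x)).2.2 h3)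

/-- The flip of an element of `P`. -/
noncomputable def flip (g : P) : P := ⟨starI g, starI_mem g.2⟩

theorem flip_apply (g : P) (x : ℝ) : flip g x = -g (-x) := rfl

theorem flip_mul (g h : P) : flip (g * h) = flip g * flip h := by
  apply P_ext; intro x
  rw [P_mul, flip_apply, flip_apply, flip_apply, P_mul]; simp

theorem flip_one : flip 1 = 1 := by
  apply P_ext; intro x
  rw [flip_apply, P_one, P_one]; simp

theorem flip_flip (g : P) : flip (flip g) = g := by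
  apply P_ext; intro x
  rw [flip_apply, flip_apply]; simp

theorem flip_mem {g : P} (hg : g ∈ TT) : flip g ∈ TT := by
  intro x
  show -g (-(x + 1)) = -g (-x) + 1
  have h := TT_int hg (-(x + 1)) 1
  push_cast at h
  have e : -(x + 1) + 1 = -x := by ring
  rw [e] at h
  linarith

end Pool.Agent.W328
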