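import Pool.Agent.W328.Action

/-!
# Smooth actions of the periodic group on the circle are trivial
-/

set_option autoImplicit false

open Filter Topology Set

open scoped Manifold ContDiff commutatorElement

namespace Pool.Agent.W328

namespace Act

variable {ρ : P → Circle → Circle} (A : Act ρ)

include A

theorem exists_s0 : ∃ (c : ℝ) (s : ℝ → Circle), s 0 = E c ∧
    (∀ g ∈ TT, ∀ a ∈ ZA, ρ g (s a) = s (g a)) ∧
    (∀ g ∈ TT, g 0 = 0 → ∃ f : CU, f c = c ∧ ∀ x, E (f x) = ρ g (E x)) := by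
  classical
  obtain ⟨c, hc⟩ := A.exists_fix
  have hst : ∀ g ∈ TT, g 0 = 0 → ∃ f : CU, f c = c ∧ ∀ x, E (f x) = ρ g (E x) := by
    intro g hg hg0
    obtain ⟨p, hp, rfl⟩ := A.M_surj hg hg0
    exact ⟨p.2, hc p hp, (A.M_EE hp).2⟩
  refine ⟨c, fun a => if h : a ∈ ZA then ρ (Tr a h) (E c) else 1, ?_, ?_, hst⟩
  · simp only [dif_pos zzero]
    have : Tr 0 zzero = 1 := by
      apply P_ext; intro x
      rw [Tr_apply, add_zero, P_one]
    rw [this, A.one]
  · intro g hg a ha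
    have hga : g a ∈ ZA := (P_mem g).2 ha
    simp only [dif_pos ha, dif_pos hga]
    have hk : (Tr (g a) hga)⁻¹ * g * Tr a ha ∈ TT :=
      TT.mul_mem (TT.mul_mem (TT.inv_mem (Tr_mem _ _)) hg) (Tr_mem _ _)
    obtain ⟨f, hf, hfl⟩ := hst _ hk (by
      rw [P_mul, P_mul, Tr_apply, zero_add, Tr_inv_apply, sub_self])
    have h1 := hfl c
    rw [hf] at h1
    rw [← A.mul _ hg _ (Tr_mem _ _)]
    conv_rhs => rw [h1, ← A.mul _ (Tr_mem _ _) _ hk]
    congr 1
    rw [← mul_assoc, mul_inv_cancel_left]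

/-- Construction of the increasing map. -/
theorem build {c : ℝ} {s : ℝ → Circle} (hs : ∀ g ∈ TT, ∀ a ∈ ZA, ρ g (s a) = s (g a))
    {σ : ℝ → ℝ} (h0 : σ 0 = c) (hE : ∀ a ∈ ZA, 0 ≤ a → a < 1 → E (σ a) = s a)
    (hr : ∀ a ∈ ZA, 0 < a → a < 1 → c ≤ σ a ∧ σ a < c + 1)
    (hm : ∀ a ∈ ZA, ∀ b ∈ ZA, 0 < a → a < b → b < 1 → σ a < σ b) : False := by
  have hper : ∀ a ∈ ZA, s (a + 1) = s a := by
    intro a ha
    have h1 := hs T T_mem a ha
    rw [A.trivT, T_apply] at h1
    exact h1.symm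
  have hpern : ∀ (n : ℕ), ∀ a ∈ ZA, s (a + n) = s a := by
    intro n
    induction n with
    | zero => intro a _; simp
    | succ n ih =>
      intro a ha
      push_cast
      rw [← add_assoc, hper _ (zadd ha (znat n)), ih a ha]
  have hperz : ∀ (n : ℤ), ∀ a ∈ ZA, s (a + n) = s a := by
    intro n a ha
    obtain ⟨m, rfl | rfl⟩ := n.eq_nat_or_neg
    · exact_mod_cast hpern m a ha
    · have := hpern m (a + ((-m : ℤ) : ℝ)) (zadd ha (zint _))
      push_cast at this ⊢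
      rw [neg_add_cancel_right] at this
      exact this.symm
  have hfrac : ∀ a ∈ ZA, Int.fract a ∈ ZA := fun a ha => zsub ha (zint _)
  have hc : ∀ a ∈ ZA, 0 < a → a < 1 → c < σ a := by
    intro a ha h1 h2
    obtain ⟨b, hb, h3, h4⟩ := z_between h1
    exact (hr b hb h3 (by linarith)).1.trans_lt (hm b hb a ha h3 h4 h2)
  let F : ℝ → ℝ := fun a => σ (Int.fract a) + ⌊a⌋
  have hFz : ∀ (a : ℝ) (n : ℤ), F (a + n) = F a + n := by
    intro a n
    show σ (Int.fract (a + n)) + ⌊a + n⌋ = σ (Int.fract a) + ⌊a⌋ + n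
    rw [Int.fract_add_intCast, Int.floor_add_intCast]; push_cast; ring
  have hF1 : ∀ a : ℝ, F (a + 1) = F a + 1 := by
    intro a; have := hFz a 1; push_cast at this; exact this
  have hEF : ∀ a ∈ ZA, E (F a) = s a := by
    intro a ha
    show E (σ (Int.fract a) + ⌊a⌋) = s a
    rw [E_add_int, hE _ (hfrac a ha) (Int.fract_nonneg a) (Int.fract_lt_one a)]
    have := hperz ⌊a⌋ _ (hfrac a ha)
    rw [Int.fract_add_floor] at this
    exact this.symm
  have hmono : ∀ a ∈ ZA, ∀ b ∈ ZA, a < b → F a < F b := by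
    intro a ha b hb hab
    show σ (Int.fract a) + ⌊a⌋ < σ (Int.fract b) + ⌊b⌋
    have hfa := Int.fract_nonneg a
    have hfb := Int.fract_nonneg b
    have hfa1 := Int.fract_lt_one a
    have hfb1 := Int.fract_lt_one b
    have ea := Int.fract_add_floor a
    have eb := Int.fract_add_floor b
    rcases (Int.floor_mono hab.le).eq_or_lt with he | hl
    · rw [← he] at eb ⊢
      have h1 : Int.fract a < Int.fract b := by linarith
      have h2 : σ (Int.fract a) < σ (Int.fract b) := by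
        rcases hfa.eq_or_lt with h3 | h3
        · rw [← h3, h0]
          exact hc _ (hfrac b hb) (by linarith) hfb1
        · exact hm _ (hfrac a ha) _ (hfrac b hb) h3 h1 hfb1
      linarith
    · have h1 : (⌊a⌋ : ℝ) + 1 ≤ ⌊b⌋ := by exact_mod_cast hl
      have h2 : σ (Int.fract a) < c + 1 := by
        rcases hfa.eq_or_lt with h3 | h3
        · rw [← h3, h0]; linarith
        · exact (hr _ (hfrac a ha) h3 hfa1).2
      have h4 : c ≤ σ (Int.fract b) := by
        rcases hfb.eq_or_lt with h3 | h3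
        · rw [← h3, h0]
        · exact (hr _ (hfrac b hb) h3 hfb1).1
      linarith
  refine Inc.false (F := F) ⟨hmono, fun a _ => hF1 a, fun g hg => ?_⟩
  obtain ⟨G, hG⟩ := A.good hg
  have hEG : ∀ a ∈ ZA, ∃ m : ℤ, G (F a) = F (g a) + m := by
    intro a ha
    rw [← E_eq, hG.lift, hEF a ha, hs g hg a ha, hEF _ ((P_mem g).2 ha)]
  obtain ⟨n, hn⟩ := hEG 0 zzero
  have hG' := hG.add_int (-n)
  refine ⟨fun x => G x + ((-n : ℤ) : ℝ), hG'.contDiff, hG'.deriv_pos, hG'.add_one, ?_⟩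
  have key : ∀ a ∈ ZA, 0 ≤ a → a < 1 → G (F a) = F (g a) + n := by
    intro a ha h1 h2
    rcases h1.eq_or_lt with rfl | h1
    · exact hn
    obtain ⟨m, hm'⟩ := hEG a ha
    have e1 := hG.strictMono (hmono 0 zzero a ha h1)
    have e2 : F a < F 0 + 1 := by
      rw [← hF1]; exact hmono a ha _ (zadd zzero zone) (by linarith)
    have e3 := hG.strictMono e2
    rw [hG.add_one] at e3
    have g0 : g 0 ∈ ZA := (P_mem g).2 zzero
    have ga : g a ∈ ZA := (P_mem g).2 ha
    have e4 := hmono _ g0 _ ga (P_strictMono g h1)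
    have e5 : F (g a) < F (g 0) + 1 := by
      rw [← hF1]
      refine hmono _ ga _ (zadd g0 zone) ?_
      rw [← mem_TT.1 hg, zero_add]
      exact P_strictMono g h2
    have e6 : (m:ℝ) < n + 1 := by linarith
    have e7 : (n:ℝ) < m + 1 := by linarith
    have e8 : m < n + 1 := by exact_mod_cast e6
    have e9 : n < m + 1 := by exact_mod_cast e7
    have : m = n := by omega
    rw [hm', this]
  intro a ha
  have h1 := key _ (hfrac a ha) (Int.fract_nonneg a) (Int.fract_lt_one a)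
  have h2 : F a = F (Int.fract a) + ⌊a⌋ := by
    rw [← hFz, Int.fract_add_floor]
  have h3 : g a = g (Int.fract a) + ⌊a⌋ := by
    rw [← TT_int hg, Int.fract_add_floor]
  have h4 : G (F (Int.fract a) + ⌊a⌋) = G (F (Int.fract a)) + ⌊a⌋ := by
    obtain ⟨K, hK⟩ := exists_CU hG
    have := CU_add_int K (F (Int.fract a)) ⌊a⌋
    rw [hK, hK] at this
    exact this
  show G (F a) + ((-n : ℤ) : ℝ) = F (g a)
  rw [h2, h4, h3, hFz, h1]; push_cast; ring

/-- The flipped action. -/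
theorem flipped : Act (fun g => ρ (flip g)) where
  mul g hg h hh z := by
    show ρ (flip (g * h)) z = _
    rw [flip_mul, A.mul _ (flip_mem hg) _ (flip_mem hh)]
  one z := by
    show ρ (flip 1) z = z
    rw [flip_one, A.one]
  trivT z := by
    show ρ (flip T) z = z
    have : flip T = T⁻¹ := by
      apply P_ext; intro x
      rw [flip_apply, T_apply]
      symm
      rw [P_inv_eq, T_apply]; ring
    rw [this]
    have h := A.inv_left T_mem z
    rwa [A.trivT] at h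
  smooth g hg := A.smooth _ (flip_mem hg)

/-- The kernel. -/
def N : Subgroup P where
  carrier := {g | g ∈ TT ∧ ∀ z, ρ g z = z}
  one_mem' := ⟨TT.one_mem, A.one⟩
  mul_mem' := by
    rintro g h ⟨hg, h1⟩ ⟨hh, h2⟩
    exact ⟨TT.mul_mem hg hh, fun z => by rw [A.mul _ hg _ hh, h2, h1]⟩
  inv_mem' := by
    rintro g ⟨hg, h1⟩
    refine ⟨TT.inv_mem hg, fun z => ?_⟩
    have := A.inv_left hg z
    rwa [h1] at this

theorem N_conj {g k : P} (hg : g ∈ A.N) (hk : k ∈ TT) : k * g * k⁻¹ ∈ A.N := by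
  obtain ⟨hg, h1⟩ := hg
  refine ⟨TT.mul_mem (TT.mul_mem hk hg) (TT.inv_mem hk), fun z => ?_⟩
  rw [A.mul _ (TT.mul_mem hk hg) _ (TT.inv_mem hk), A.mul _ hk _ hg, h1, A.inv_right hk]

theorem N_top (h : Tr (1/2) (zldiv zone ltwo) ∈ A.N) : TT ≤ A.N := by
  set r := Tr (1/2) (zldiv zone ltwo) with hr
  have h8 : (1/8:ℝ) ∈ ZA := zldiv zone ⟨3, 0, by norm_num⟩
  have h38 : (3/8:ℝ) ∈ ZA := by
    have : (3/8:ℝ) = 3 * (1/8) := by norm_num
    rw [this]; exact zlmul lthree h8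
  have h4 : (1/4:ℝ) ∈ ZA := zldiv zone ⟨2, 0, by norm_num⟩
  have h12 : (1/2:ℝ) ∈ ZA := zldiv zone ltwo
  have h78 : (7/8:ℝ) ∈ ZA := by
    have : (7/8:ℝ) = 1 - 1/8 := by norm_num
    rw [this]; exact zsub zone h8
  -- commutators of elements supported in a half circle
  have hcomm : (⁅TS 0 (1/2), TS 0 (1/2)⁆ : Subgroup P) ≤ A.N := by
    rw [Subgroup.commutator_le]
    intro u hu v hv
    have hu' : u⁻¹ ∈ TS 0 (1/2) := Subgroup.inv_mem _ hu
    have hw : r * u⁻¹ * r⁻¹ ∈ TS (1/2) 1 := by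
      have h1 := TS_conj hu' (Tr_mem (1/2) h12)
      rw [Tr_apply, Tr_apply] at h1
      norm_num at h1
      exact h1
    set w := r * u⁻¹ * r⁻¹ with hwdef
    have hwu : u * w = w * u := TS_comm hu hw (by norm_num)
    have hwv : v * w = w * v := TS_comm hv hw (by norm_num)
    -- `w * u` lies in the kernel
    have h1 : w * u ∈ A.N := by
      have h2 : r * (u⁻¹ * r⁻¹ * (u⁻¹)⁻¹) ∈ A.N :=
        A.N.mul_mem h (A.N_conj (A.N.inv_mem h) (TS_le _ _ hu'))
      have e : w * u = r * (u⁻¹ * r⁻¹ * (u⁻¹)⁻¹) := by rw [hwdef]; group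
      rwa [e]
    have h2 : (w * u) * (v * (w * u)⁻¹ * v⁻¹) ∈ A.N :=
      A.N.mul_mem h1 (A.N_conj (A.N.inv_mem h1) (TS_le _ _ hv))
    have e : ⁅u, v⁆ = (w * u) * (v * (w * u)⁻¹ * v⁻¹) := by
      rw [commutatorElement_def]
      have e1 : (w * u) * v = u * v * w := by
        rw [← hwu, mul_assoc, ← hwv, mul_assoc]
      calc u * v * u⁻¹ * v⁻¹ = u * v * w * (w⁻¹ * u⁻¹ * v⁻¹) := by group
        _ = (w * u) * v * (w⁻¹ * u⁻¹ * v⁻¹) := by rw [e1]
        _ = (w * u) * v * ((u * w)⁻¹ * v⁻¹) := by group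
        _ = (w * u) * v * ((w * u)⁻¹ * v⁻¹) := by rw [hwu]
        _ = _ := by group
    rwa [e]
  have hsmall : TS (1/8) (3/8) ≤ A.N := by
    intro g hg
    exact hcomm (TS_perfect h8 h38 zzero (by norm_num) (by norm_num) (by norm_num) (by norm_num) hg)
  have hTS : ∀ u ∈ ZA, ∀ v ∈ ZA, u < v → v < u + 1 → TS u v ≤ A.N := by
    intro u hu v hv huv hv1 g hg
    obtain ⟨γ, hγ, h1, h2⟩ := extT hu hv h8 h38 huv hv1 (by norm_num) (by norm_num)
    have h3 := TS_conj hg hγ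
    rw [h1, h2] at h3
    have h4 := A.N_conj (hsmall h3) (TT.inv_mem hγ)
    have e : γ⁻¹ * (γ * g * γ⁻¹) * γ⁻¹⁻¹ = g := by group
    rwa [e] at h4
  refine TT_gen _ ?_ hTS
  -- small translations
  have hsm : ∀ a (ha : a ∈ ZA), 0 ≤ a → a < 1/4 → Tr a ha ∈ A.N := by
    intro a ha h1 h2
    obtain ⟨g, hg, hg1, hg2⟩ := loc_ext' (Tr a ha) zzero h4 h12 h78 (by norm_num) (by norm_num)
      (by norm_num) (by norm_num) (by rw [Tr_apply]; linarith) (by rw [Tr_apply]; linarith)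
    have hg' : g ∈ TS 0 (7/8) := ⟨hg, fun x hx hx' => hg2 x hx (by linarith)⟩
    have hk : g⁻¹ * Tr a ha ∈ TS (1/2) (5/4) := by
      refine ⟨TT.mul_mem (TT.inv_mem hg) (Tr_mem _ _), fun x hx hx' => ?_⟩
      have h5 := TT_int (TT.mul_mem (TT.inv_mem hg) (Tr_mem a ha)) (x - 1) 1
      push_cast at h5
      rw [sub_add_cancel] at h5
      have h6 : g⁻¹ (Tr a ha (x - 1)) = x - 1 := by
        rw [P_inv_eq, hg1 _ (by linarith) (by linarith)]
      have h7 : (g⁻¹ * Tr a ha) (x - 1) = x - 1 := h6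
      have h8 : (g⁻¹ * Tr a ha) x = (g⁻¹ * Tr a ha) (x - 1) + 1 := h5
      rw [h8, h7]; ring
    have h9 := A.N.mul_mem (hTS 0 zzero _ h78 (by norm_num) (by norm_num) hg')
      (hTS _ h12 _ (by
        have : (5/4:ℝ) = 1 + 1/4 := by norm_num
        rw [this]; exact zadd zone h4) (by norm_num) (by norm_num) hk)
    rwa [mul_inv_cancel_left] at h9
  have hpow : ∀ (n : ℕ) (a : ℝ) (ha : a ∈ ZA), (Tr a ha) ^ n = Tr (n * a) (zmul (znat n) ha) := by
    intro n a ha
    induction n with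
    | zero =>
      apply P_ext; intro x
      rw [Tr_apply]; show x = _; simp
    | succ n ih =>
      rw [pow_succ, ih]
      apply P_ext; intro x
      rw [P_mul, Tr_apply, Tr_apply, Tr_apply]; push_cast; ring
  have hpos : ∀ a (ha : a ∈ ZA), 0 ≤ a → Tr a ha ∈ A.N := by
    intro a ha h1
    obtain ⟨n, hn⟩ := pow_unbounded_of_one_lt (4 * a) (by norm_num : (1:ℝ) < 2)
    have h2n : (0:ℝ) < 2 ^ n := by positivity
    have hb : a / 2 ^ n ∈ ZA := zldiv ha (lpow ltwo n)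
    have h5 := A.N.pow_mem (hsm _ hb (by positivity) (by rw [div_lt_iff₀ h2n]; linarith)) (2 ^ n)
    rw [hpow] at h5
    have e : Tr (((2 ^ n : ℕ):ℝ) * (a / 2 ^ n)) (zmul (znat _) hb) = Tr a ha := by
      apply P_ext; intro x
      rw [Tr_apply, Tr_apply]; push_cast; field_simp
    rwa [e] at h5
  intro a ha
  rcases le_total 0 a with h5 | h5
  · exact hpos a ha h5
  · have h6 := A.N.inv_mem (hpos (-a) (zneg ha) (by linarith))
    have e : (Tr (-a) (zneg ha))⁻¹ = Tr a ha := by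
      apply P_ext; intro x
      rw [Tr_inv_apply, Tr_apply]; ring
    rwa [e] at h6

/-- An involution with a fixed point is trivial. -/
theorem half_of_fix {x₀ : ℝ} (h : ρ (Tr (1/2) (zldiv zone ltwo)) (E x₀) = E x₀) :
    Tr (1/2) (zldiv zone ltwo) ∈ A.N := by
  set r := Tr (1/2) (zldiv zone ltwo) with hr
  have hrT : r ∈ TT := Tr_mem _ _
  have hrr : r * r = T := by
    apply P_ext; intro x
    rw [P_mul, hr, Tr_apply, Tr_apply, T_apply]; ring
  obtain ⟨G, hG⟩ := A.good hrT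
  obtain ⟨m, hm⟩ := E_eq.1 ((hG.lift x₀).trans h)
  have hG' := hG.add_int (-m)
  set H : ℝ → ℝ := fun x => G x + ((-m : ℤ) : ℝ) with hH
  have hx : H x₀ = x₀ := by
    show G x₀ + ((-m : ℤ) : ℝ) = x₀
    rw [hm]; push_cast; ring
  obtain ⟨n, hn⟩ := lift_unique (F := fun x => H (H x)) (H := fun x => x)
    (hG'.contDiff.continuous.comp hG'.contDiff.continuous) continuous_id (fun x => by
      rw [hG'.lift, hG'.lift, ← A.mul _ hrT _ hrT, hrr, A.trivT])
  have hn0 : (n:ℝ) = 0 := by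
    have := hn x₀
    rw [hx, hx] at this
    linarith
  have hid : ∀ x, H x = x := by
    intro x
    have h1 := hn x
    rw [hn0, add_zero] at h1
    rcases lt_trichotomy (H x) x with h2 | h2 | h2
    · have := hG'.strictMono h2
      rw [h1] at this
      exact absurd (this.trans h2) (lt_irrefl _)
    · exact h2
    · have := hG'.strictMono h2
      rw [h1] at this
      exact absurd (h2.trans this) (lt_irrefl _)
  refine ⟨hrT, fun z => ?_⟩
  obtain ⟨x, rfl⟩ := E_surj z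
  rw [← hG'.lift, hid]

/-- **Every smooth action is trivial.** -/
theorem triv {g : P} (hg : g ∈ TT) (z : Circle) : ρ g z = z := by
  obtain ⟨c, s, hs0, hs, hst⟩ := A.exists_s0
  have h4 : (1/4:ℝ) ∈ ZA := zldiv zone ⟨2, 0, by norm_num⟩
  have h12 : (1/2:ℝ) ∈ ZA := zldiv zone ltwo
  have h34 : (3/4:ℝ) ∈ ZA := by
    have : (3/4:ℝ) = 1 - 1/4 := by norm_num
    rw [this]; exact zsub zone h4
  choose σ hσ1 hσ2 hσ3 using fun a => E_surj' c (s a)
  have hσ0 : σ 0 = c := E_inj (hσ1 0) (hσ2 0) le_rfl (by linarith) (by rw [hσ3, hs0])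
  have hst' : ∀ g ∈ TT, g 0 = 0 → ∃ f : CU, ∀ a ∈ ZA, f (σ a) = σ (g a) := by
    intro g hg hg0
    obtain ⟨f, hf, hfl⟩ := hst g hg hg0
    refine ⟨f, fun a ha => ?_⟩
    refine E_inj (c := c) ?_ ?_ (hσ1 _) (hσ2 _) ?_
    · have := (CU_smono f).monotone (hσ1 a)
      rwa [hf] at this
    · have := CU_smono f (hσ2 a)
      rwa [CU_add_one, hf] at this
    · rw [hfl, hσ3, hσ3, hs g hg a ha]
  have hpair : ∀ a ∈ ZA, ∀ b ∈ ZA, 0 < a → a < b → b < 1 →
      ∃ f : CU, f (σ (1/4)) = σ a ∧ f (σ (1/2)) = σ b := by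
    intro a ha b hb h1 h2 h3
    obtain ⟨g, hg, hg0, hga, hgb⟩ := trans2 h4 h12 ha hb (by norm_num) (by norm_num) (by norm_num)
      h1 h2 h3
    obtain ⟨f, hf⟩ := hst' g hg hg0
    exact ⟨f, by rw [hf _ h4, hga], by rw [hf _ h12, hgb]⟩
  rcases lt_trichotomy (σ (1/4)) (σ (1/2)) with h | h | h
  · -- increasing
    exfalso
    refine A.build hs hσ0 (fun a _ _ _ => hσ3 a) (fun a _ _ _ => ⟨hσ1 a, hσ2 a⟩) ?_
    intro a ha b hb h1 h2 h3
    obtain ⟨f, hf1, hf2⟩ := hpair a ha b hb h1 h2 h3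
    rw [← hf1, ← hf2]
    exact CU_smono f h
  · -- constant
    have h5 : σ (1/4) = σ (3/4) := by
      obtain ⟨f, hf1, hf2⟩ := hpair (1/4) h4 (3/4) h34 (by norm_num) (by norm_num) (by norm_num)
      rw [← hf1, ← hf2, h]
    have h6 : ρ (Tr (1/2) (zldiv zone ltwo)) (E (σ (1/4))) = E (σ (1/4)) := by
      rw [hσ3, hs _ (Tr_mem _ _) _ h4, Tr_apply]
      have e : (1/4:ℝ) + 1/2 = 3/4 := by norm_num
      rw [e, ← hσ3, ← h5, hσ3]
    exact (A.N_top (A.half_of_fix h6) hg).2 z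
  · -- decreasing
    exfalso
    classical
    have hper : ∀ a ∈ ZA, s (a + 1) = s a := by
      intro a ha
      have h1 := hs T T_mem a ha
      rw [A.trivT, T_apply] at h1
      exact h1.symm
    refine A.flipped.build (c := c) (s := fun a => s (-a))
      (σ := fun a => if a = 0 then c else σ (1 - a)) ?_ (if_pos rfl) ?_ ?_ ?_
    · intro g hg a ha
      show ρ (flip g) (s (-a)) = s (-(g a))
      rw [hs _ (flip_mem hg) _ (zneg ha), flip_apply, neg_neg]
    · intro a ha h1 h2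
      show E (if a = 0 then c else σ (1 - a)) = s (-a)
      split_ifs with h3
      · rw [h3, neg_zero, hs0]
      · rw [hσ3, ← hper _ (zneg ha)]
        congr 1; ring
    · intro a ha h1 h2
      show c ≤ (if a = 0 then c else σ (1 - a)) ∧ (if a = 0 then c else σ (1 - a)) < c + 1
      rw [if_neg h1.ne']
      exact ⟨hσ1 _, hσ2 _⟩
    · intro a ha b hb h1 h2 h3
      show (if a = 0 then c else σ (1 - a)) < (if b = 0 then c else σ (1 - b))
      rw [if_neg h1.ne', if_neg (by linarith)]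
      obtain ⟨f, hf1, hf2⟩ := hpair (1 - b) (zsub zone hb) (1 - a) (zsub zone ha) (by linarith)
        (by linarith) (by linarith)
      rw [← hf1, ← hf2]
      exact CU_smono f h

end Act

end Pool.Agent.W328
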